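import Pool.Agent.Y402.PL.Stm2

/-!
Statements for the third part: lower rectangular density (MP_796fdb_co), the same method with error
terms.
-/

set_option autoImplicit false

namespace Pool.Agent.Y402.PL

open Pointwise

/-- The staircase bound with an error term: `C` is only known to be `β`-dense in corner boxes
`[0,a] × [0,b]` with `a, b ≥ N0`. -/
def S_STC2 : Prop :=
  ∀ (N0 n m : ℕ) (C W : Finset (ℕ × ℕ)) (β : ℝ), 0 ≤ β →
    (∀ a b : ℕ, N0 ≤ a → a ≤ n → N0 ≤ b → b ≤ m →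
      β * (((a : ℝ) + 1) * ((b : ℝ) + 1)) ≤ ((C ∩ box a b).card : ℝ)) →
      β * (((box n m).filter (fun p => ∃ w ∈ W, w.1 ≤ p.1 ∧ w.2 ≤ p.2)).card : ℝ)
        ≤ (((W + C) ∩ box n m).card : ℝ) + β * ((N0 : ℝ) * (((n : ℝ) + 1) + ((m : ℝ) + 1)))

/-- The analytic step with an error term. -/
def S_ANA3 : Prop :=
  ∀ (p α β c : ℝ), 1 < p → 0 < α → 0 < β →
    c < Real.Gamma (1 + 1 / p) * (α ^ (1 - 1 / p) * β ^ (1 / p)) →
    ∃ η : ℝ, 0 < η ∧
      ∀ (r : ℕ) (a K : ℕ → ℝ) (V E : ℝ), 0 < V → 0 ≤ E → E ≤ η * V →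
        (∀ j < r, 0 ≤ a j) → (∀ j < r, 0 ≤ K j) →
        (∀ κ t : ℝ, 0 < κ → t = α * κ ^ p / β →
          V * α * ((1 - Real.exp (-t)) / t) - α * E * (1 + 1 / t)
            ≤ ∑ j ∈ Finset.range r, a j * min ((K j / κ) ^ p) 1) →
        c * V ≤ ∑ j ∈ Finset.range r, K j * a j

end Pool.Agent.Y402.PL
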