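import Pool.Agent.Y402.PL.Stm

set_option autoImplicit false

namespace Pool.Agent.Y402.PL

open MeasureTheory Set Filter Topology

theorem L1_pos (k : ℕ) (hk : 2 ≤ k) (c : ℝ) (hc : 0 < c) :
    IntegrableOn (fun κ : ℝ => min ((c / κ) ^ k) 1) (Ioi 0) ∧
      ∫ κ in Ioi (0 : ℝ), min ((c / κ) ^ k) 1 = c * k / ((k : ℝ) - 1) := by
  have hk1 : (1 : ℝ) < (k : ℝ) := by exact_mod_cast (by omega : 1 < k)
  have h1 : EqOn (fun κ : ℝ => min ((c / κ) ^ k) 1) (fun _ => (1 : ℝ)) (Ioc 0 c) := by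
    intro κ hκ
    simp only
    apply min_eq_right
    apply one_le_pow₀
    rw [one_le_div hκ.1]
    exact hκ.2
  have h2 : EqOn (fun κ : ℝ => min ((c / κ) ^ k) 1) (fun κ => c ^ k * κ ^ (-(k : ℝ))) (Ioi c) := by
    intro κ hκ
    have hκ0 : 0 < κ := lt_trans hc hκ
    simp only
    rw [min_eq_left, div_pow, Real.rpow_neg hκ0.le, Real.rpow_natCast]
    · rfl
    · apply pow_le_one₀ (by positivity)
      rw [div_le_one hκ0]
      exact (mem_Ioi.mp hκ).le
  have i1 : IntegrableOn (fun κ : ℝ => min ((c / κ) ^ k) 1) (Ioc 0 c) := by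
    apply IntegrableOn.congr_fun _ h1.symm measurableSet_Ioc
    exact integrableOn_const (by simp)
  have i2 : IntegrableOn (fun κ : ℝ => min ((c / κ) ^ k) 1) (Ioi c) := by
    apply IntegrableOn.congr_fun _ h2.symm measurableSet_Ioi
    exact (integrableOn_Ioi_rpow_of_lt (by linarith) hc).const_mul _
  have hun : Ioi (0 : ℝ) = Ioc 0 c ∪ Ioi c := (Ioc_union_Ioi_eq_Ioi hc.le).symm
  refine ⟨?_, ?_⟩
  · rw [hun]; exact i1.union i2
  · rw [hun, setIntegral_union (Ioc_disjoint_Ioi le_rfl) measurableSet_Ioi i1 i2,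
      setIntegral_congr_fun measurableSet_Ioc h1, setIntegral_congr_fun measurableSet_Ioi h2,
      integral_const_mul, integral_Ioi_rpow_of_lt (by linarith) hc]
    simp only [integral_const, MeasurableSet.univ, measureReal_restrict_apply, univ_inter,
      Real.volume_real_Ioc, sub_zero, smul_eq_mul, mul_one]
    rw [max_eq_left hc.le]
    have h3 : c ^ (-(k : ℝ) + 1) = c / c ^ k := by
      rw [Real.rpow_add hc, Real.rpow_neg hc.le, Real.rpow_natCast, Real.rpow_one]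
      field_simp
    rw [h3]
    have h4 : (-(k : ℝ) + 1) ≠ 0 := by linarith
    have h5 : ((k : ℝ) - 1) ≠ 0 := by linarith
    have h6 : -(c / c ^ k) / (-(k : ℝ) + 1) = (c / c ^ k) / ((k : ℝ) - 1) := by
      rw [div_eq_div_iff h4 h5]; ring
    rw [h6]
    field_simp
    ring

theorem L1 (k : ℕ) (hk : 2 ≤ k) (c : ℝ) (hc : 0 ≤ c) :
    IntegrableOn (fun κ : ℝ => min ((c / κ) ^ k) 1) (Ioi 0) ∧
      ∫ κ in Ioi (0 : ℝ), min ((c / κ) ^ k) 1 = c * k / ((k : ℝ) - 1) := by
  rcases hc.eq_or_lt with rfl | hc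
  · have h : (fun κ : ℝ => min (((0 : ℝ) / κ) ^ k) 1) = fun _ => (0 : ℝ) := by
      funext κ
      rw [zero_div, zero_pow (by omega)]
      simp
    rw [h]
    simp
  · exact L1_pos k hk c hc

theorem sum_integral (k r : ℕ) (hk : 2 ≤ k) (a K : ℕ → ℝ) (hK : ∀ j < r, 0 ≤ K j) :
    IntegrableOn (fun κ : ℝ => ∑ j ∈ Finset.range r, a j * min ((K j / κ) ^ k) 1) (Ioi 0) ∧
      ∫ κ in Ioi (0 : ℝ), ∑ j ∈ Finset.range r, a j * min ((K j / κ) ^ k) 1
        = (∑ j ∈ Finset.range r, K j * a j) * (k / ((k : ℝ) - 1)) := by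
  have h : ∀ j ∈ Finset.range r, IntegrableOn (fun κ : ℝ => a j * min ((K j / κ) ^ k) 1)
      (Ioi 0) := by
    intro j hj
    exact (L1 k hk (K j) (hK j (Finset.mem_range.mp hj))).1.const_mul _
  refine ⟨integrable_finsetSum _ h, ?_⟩
  rw [integral_finsetSum _ h, Finset.sum_mul]
  apply Finset.sum_congr rfl
  intro j hj
  rw [integral_const_mul, (L1 k hk (K j) (hK j (Finset.mem_range.mp hj))).2]
  ring

/-- the integrand for the rectangle bound -/
noncomputable def gfun (A : ℝ) (k : ℕ) (κ : ℝ) : ℝ := (1 - Real.exp (-(A * κ ^ k))) / (A * κ ^ k)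

theorem gfun_nonneg (A : ℝ) (hA : 0 < A) (k : ℕ) (κ : ℝ) (hκ : 0 < κ) : 0 ≤ gfun A k κ := by
  unfold gfun
  apply div_nonneg
  · have : Real.exp (-(A * κ ^ k)) ≤ 1 := by
      rw [Real.exp_le_one_iff]
      have : 0 < A * κ ^ k := by positivity
      linarith
    linarith
  · positivity

theorem gfun_le_one (A : ℝ) (hA : 0 < A) (k : ℕ) (κ : ℝ) (hκ : 0 < κ) : gfun A k κ ≤ 1 := by
  unfold gfun
  have h : 0 < A * κ ^ k := by positivity
  rw [div_le_one h]
  have := Real.one_sub_le_exp_neg (A * κ ^ k)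
  linarith

theorem gfun_le_inv (A : ℝ) (hA : 0 < A) (k : ℕ) (κ : ℝ) (hκ : 0 < κ) :
    gfun A k κ ≤ 1 / (A * κ ^ k) := by
  unfold gfun
  have h : 0 < A * κ ^ k := by positivity
  apply div_le_div_of_nonneg_right _ h.le
  have := Real.exp_pos (-(A * κ ^ k))
  linarith

theorem gfun_integrable (A : ℝ) (hA : 0 < A) (k : ℕ) (hk : 2 ≤ k) :
    IntegrableOn (gfun A k) (Ioi 0) := by
  set c : ℝ := (1 / A) ^ (1 / (k : ℝ)) with hc
  have hcpos : 0 < c := by positivity
  have hck : c ^ k = 1 / A := by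
    rw [hc, ← Real.rpow_natCast, ← Real.rpow_mul (by positivity)]
    rw [one_div_mul_cancel (by positivity : (k : ℝ) ≠ 0), Real.rpow_one]
  have hint := (L1 k hk c hcpos.le).1
  have hmeas : Measurable (gfun A k) := by
    unfold gfun
    fun_prop
  refine Integrable.mono' hint hmeas.aestronglyMeasurable ?_
  refine (ae_restrict_iff' measurableSet_Ioi).mpr (Eventually.of_forall ?_)
  intro κ hκ
  have hκ0 : 0 < κ := hκ
  rw [Real.norm_of_nonneg (gfun_nonneg A hA k κ hκ0)]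
  apply le_min
  · rw [div_pow, hck]
    have := gfun_le_inv A hA k κ hκ0
    calc gfun A k κ ≤ 1 / (A * κ ^ k) := this
      _ = 1 / A / κ ^ k := by rw [div_div]
  · exact gfun_le_one A hA k κ hκ0

theorem exp_integrable (A : ℝ) (hA : 0 < A) (k : ℕ) (hk : 2 ≤ k) :
    IntegrableOn (fun κ : ℝ => Real.exp (-(A * κ ^ k))) (Ioi 0) := by
  have h := integrableOn_rpow_mul_exp_neg_mul_rpow (p := (k : ℝ)) (s := 0) (b := A) (by norm_num)
    (by positivity) hA
  refine h.congr_fun (fun x hx => ?_) measurableSet_Ioi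
  simp [Real.rpow_natCast]

theorem exp_integral (A : ℝ) (hA : 0 < A) (k : ℕ) (hk : 2 ≤ k) :
    ∫ κ in Ioi (0 : ℝ), Real.exp (-(A * κ ^ k))
      = A ^ (-(1 / (k : ℝ))) * Real.Gamma (1 + 1 / (k : ℝ)) := by
  have h := integral_exp_neg_mul_rpow (p := (k : ℝ)) (b := A) (by positivity) hA
  have h2 : ∫ κ in Ioi (0 : ℝ), Real.exp (-(A * κ ^ k))
      = ∫ x in Ioi (0 : ℝ), Real.exp (-A * x ^ (k : ℝ)) := by
    apply setIntegral_congr_fun measurableSet_Ioi
    intro x hx
    simp [Real.rpow_natCast]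
  rw [h2, h, add_comm (1 / (k : ℝ)) 1, neg_div]

theorem gfun_integral (A : ℝ) (hA : 0 < A) (k : ℕ) (hk : 2 ≤ k) :
    ∫ κ in Ioi (0 : ℝ), gfun A k κ
      = A ^ (-(1 / (k : ℝ))) * Real.Gamma (1 + 1 / (k : ℝ)) * ((k : ℝ) / ((k : ℝ) - 1)) := by
  have hk1 : (1 : ℝ) < (k : ℝ) := by exact_mod_cast (by omega : 1 < k)
  have hk0 : ((k : ℝ) - 1) ≠ 0 := by linarith
  have key : ∫ κ in Ioi (0 : ℝ),
      (gfun A k κ - ((k : ℝ) / ((k : ℝ) - 1)) * Real.exp (-(A * κ ^ k))) = 0 := by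
    have h := integral_Ioi_of_hasDerivAt_of_tendsto (a := (0 : ℝ)) (m := (0 : ℝ))
      (f := fun κ : ℝ => -(κ * gfun A k κ) / ((k : ℝ) - 1))
      (f' := fun κ : ℝ => gfun A k κ - ((k : ℝ) / ((k : ℝ) - 1)) * Real.exp (-(A * κ ^ k)))
      ?_ ?_ ?_ ?_
    · simpa using h
    · -- continuity at zero
      have h0 : Tendsto (fun κ : ℝ => κ / ((k : ℝ) - 1)) (𝓝[Ici 0] 0) (𝓝 0) := by
        have : Continuous (fun κ : ℝ => κ / ((k : ℝ) - 1)) := by fun_prop
        have h2 := (this.tendsto 0).mono_left (nhdsWithin_le_nhds (s := Ici (0 : ℝ)))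
        simpa using h2
      have h3 : ∀ κ ∈ Ici (0 : ℝ), |-(κ * gfun A k κ) / ((k : ℝ) - 1)| ≤ κ / ((k : ℝ) - 1) := by
        intro κ hκ
        rcases (show (0 : ℝ) ≤ κ from hκ).eq_or_lt with rfl | hpos
        · simp
        · rw [abs_div, abs_neg, abs_of_nonneg (mul_nonneg hpos.le (gfun_nonneg A hA k κ hpos)),
            abs_of_pos (by linarith : (0 : ℝ) < (k : ℝ) - 1)]
          apply div_le_div_of_nonneg_right _ (by linarith)
          have := gfun_le_one A hA k κ hpos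
          nlinarith
      unfold ContinuousWithinAt
      have h4 : -((0 : ℝ) * gfun A k 0) / ((k : ℝ) - 1) = 0 := by simp
      simp only
      rw [h4]
      apply squeeze_zero_norm' _ h0
      filter_upwards [self_mem_nhdsWithin] with κ hκ
      exact h3 κ hκ
    · intro κ hκ
      have hκ0 : (0 : ℝ) < κ := hκ
      have hAk : A * κ ^ k ≠ 0 := by positivity
      have hp : HasDerivAt (fun x : ℝ => A * x ^ k) (A * ((k : ℝ) * κ ^ (k - 1))) κ :=
        (hasDerivAt_pow k κ).const_mul A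
      have he : HasDerivAt (fun x : ℝ => Real.exp (-(A * x ^ k)))
          (Real.exp (-(A * κ ^ k)) * -(A * ((k : ℝ) * κ ^ (k - 1)))) κ := hp.neg.exp
      have hnum : HasDerivAt (fun x : ℝ => 1 - Real.exp (-(A * x ^ k)))
          (-(Real.exp (-(A * κ ^ k)) * -(A * ((k : ℝ) * κ ^ (k - 1))))) κ := by
        exact he.const_sub 1
      have hg : HasDerivAt (gfun A k)
          ((-(Real.exp (-(A * κ ^ k)) * -(A * ((k : ℝ) * κ ^ (k - 1)))) * (A * κ ^ k)
            - (1 - Real.exp (-(A * κ ^ k))) * (A * ((k : ℝ) * κ ^ (k - 1))))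
            / (A * κ ^ k) ^ 2) κ := hnum.div hp hAk
      have hfin := ((hasDerivAt_id κ).mul hg).neg.div_const ((k : ℝ) - 1)
      refine HasDerivAt.congr_deriv hfin ?_
      have hpow : κ ^ k = κ ^ (k - 1) * κ := by
        rw [← pow_succ]
        congr 1
        omega
      unfold gfun
      simp only [id]
      rw [hpow]
      have h5 : κ ^ (k - 1) ≠ 0 := by positivity
      set E := Real.exp (-(A * (κ ^ (k - 1) * κ)))
      set P := κ ^ (k - 1)
      field_simp
      ring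
    · exact (gfun_integrable A hA k hk).sub ((exp_integrable A hA k hk).const_mul _)
    · -- at infinity
      have h0 : Tendsto (fun κ : ℝ => (1 / (A * ((k : ℝ) - 1))) * κ⁻¹) atTop (𝓝 0) := by
        have := (tendsto_inv_atTop_zero (𝕜 := ℝ)).const_mul (1 / (A * ((k : ℝ) - 1)))
        simpa using this
      apply squeeze_zero_norm' _ h0
      filter_upwards [eventually_ge_atTop (1 : ℝ)] with κ hκ
      have hpos : 0 < κ := by linarith
      rw [Real.norm_eq_abs, abs_div, abs_neg,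
        abs_of_nonneg (mul_nonneg hpos.le (gfun_nonneg A hA k κ hpos)),
        abs_of_pos (by linarith : (0 : ℝ) < (k : ℝ) - 1)]
      have h6 := gfun_le_inv A hA k κ hpos
      have h7 : κ ^ 2 ≤ κ ^ k := pow_le_pow_right₀ hκ hk
      have h8 : κ * gfun A k κ ≤ 1 / A * κ⁻¹ := by
        calc κ * gfun A k κ ≤ κ * (1 / (A * κ ^ k)) := mul_le_mul_of_nonneg_left h6 hpos.le
          _ ≤ κ * (1 / (A * κ ^ 2)) := by
              apply mul_le_mul_of_nonneg_left _ hpos.le
              apply one_div_le_one_div_of_le (by positivity)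
              exact mul_le_mul_of_nonneg_left h7 hA.le
          _ = 1 / A * κ⁻¹ := by
              field_simp
      calc κ * gfun A k κ / ((k : ℝ) - 1) ≤ (1 / A * κ⁻¹) / ((k : ℝ) - 1) :=
            div_le_div_of_nonneg_right h8 (by linarith)
        _ = 1 / (A * ((k : ℝ) - 1)) * κ⁻¹ := by
            field_simp
  rw [integral_sub (gfun_integrable A hA k hk) ((exp_integrable A hA k hk).const_mul _),
    integral_const_mul, exp_integral A hA k hk] at key
  linarith

theorem rpow_aux (α β : ℝ) (hα : 0 < α) (hβ : 0 < β) (θ : ℝ) :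
    α * (α / β) ^ (-θ) = α ^ (1 - θ) * β ^ θ := by
  rw [Real.div_rpow hα.le hβ.le, Real.rpow_neg hβ.le, Real.rpow_sub hα, Real.rpow_one,
    Real.rpow_neg hα.le]
  have h1 : 0 < α ^ θ := by positivity
  have h2 : 0 < β ^ θ := by positivity
  field_simp

theorem mainANA : S_ANA := by
  intro k r a K α β V hk hα hβ hV ha hK h
  have hk1 : (1 : ℝ) < (k : ℝ) := by exact_mod_cast (by omega : 1 < k)
  have hk0 : (0 : ℝ) < (k : ℝ) / ((k : ℝ) - 1) := by
    apply div_pos <;> linarith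
  have hA : 0 < α / β := by positivity
  obtain ⟨hi, hI⟩ := sum_integral k r hk a K hK
  have hmono : ∫ κ in Ioi (0 : ℝ), (V * α) * gfun (α / β) k κ
      ≤ ∫ κ in Ioi (0 : ℝ), ∑ j ∈ Finset.range r, a j * min ((K j / κ) ^ k) 1 := by
    apply setIntegral_mono_on ((gfun_integrable _ hA k hk).const_mul _) hi measurableSet_Ioi
    intro κ hκ
    have h1 := h κ (α * κ ^ k / β) hκ rfl
    have h2 : α * κ ^ k / β = α / β * κ ^ k := by ring
    rw [h2] at h1
    exact h1
  rw [integral_const_mul, gfun_integral _ hA k hk, hI] at hmono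
  have h3 : V * α * ((α / β) ^ (-(1 / (k : ℝ))) * Real.Gamma (1 + 1 / (k : ℝ))
      * ((k : ℝ) / ((k : ℝ) - 1)))
      = (Real.Gamma (1 + 1 / (k : ℝ)) * (α ^ (1 - 1 / (k : ℝ)) * β ^ (1 / (k : ℝ))) * V)
        * ((k : ℝ) / ((k : ℝ) - 1)) := by
    rw [← rpow_aux α β hα hβ]
    ring
  rw [h3] at hmono
  exact le_of_mul_le_mul_right hmono hk0

/-- The exact version: the level bound `V α min((c/κ)^k, 1)` with `c = (β/α)^(1/k)`. -/
theorem exactANA (k r : ℕ) (a K : ℕ → ℝ) (α β V : ℝ) (hk : 2 ≤ k) (hα : 0 < α) (hβ : 0 < β)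
    (hK : ∀ j < r, 0 ≤ K j)
    (h : ∀ κ : ℝ, 0 < κ → V * min (β / κ ^ k) α
        ≤ ∑ j ∈ Finset.range r, a j * min ((K j / κ) ^ k) 1) :
    α ^ (1 - 1 / (k : ℝ)) * β ^ (1 / (k : ℝ)) * V ≤ ∑ j ∈ Finset.range r, K j * a j := by
  have hk1 : (1 : ℝ) < (k : ℝ) := by exact_mod_cast (by omega : 1 < k)
  have hk0 : (0 : ℝ) < (k : ℝ) / ((k : ℝ) - 1) := by
    apply div_pos <;> linarith
  set c : ℝ := (β / α) ^ (1 / (k : ℝ)) with hc
  have hcpos : 0 < c := by positivity
  have hck : c ^ k = β / α := by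
    rw [hc, ← Real.rpow_natCast, ← Real.rpow_mul (by positivity)]
    rw [one_div_mul_cancel (by positivity : (k : ℝ) ≠ 0), Real.rpow_one]
  obtain ⟨hi, hI⟩ := sum_integral k r hk a K hK
  obtain ⟨hi2, hI2⟩ := L1 k hk c hcpos.le
  have hmono : ∫ κ in Ioi (0 : ℝ), (V * α) * min ((c / κ) ^ k) 1
      ≤ ∫ κ in Ioi (0 : ℝ), ∑ j ∈ Finset.range r, a j * min ((K j / κ) ^ k) 1 := by
    apply setIntegral_mono_on (hi2.const_mul _) hi measurableSet_Ioi
    intro κ hκ
    have h1 := h κ hκ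
    refine le_trans (le_of_eq ?_) h1
    have h2 : β / κ ^ k = α * (c / κ) ^ k := by
      rw [div_pow, hck]
      field_simp
    have h3 : min (β / κ ^ k) α = α * min ((c / κ) ^ k) 1 := by
      rw [h2, mul_min_of_nonneg _ _ hα.le, mul_one]
    rw [h3]
    ring
  rw [integral_const_mul, hI2, hI] at hmono
  have h3 : V * α * (c * (k : ℝ) / ((k : ℝ) - 1))
      = (α ^ (1 - 1 / (k : ℝ)) * β ^ (1 / (k : ℝ)) * V) * ((k : ℝ) / ((k : ℝ) - 1)) := by
    have h4 : α * c = α ^ (1 - 1 / (k : ℝ)) * β ^ (1 / (k : ℝ)) := by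
      rw [← rpow_aux α β hα hβ, hc]
      congr 1
      rw [← inv_div α β, Real.inv_rpow (by positivity), Real.rpow_neg (by positivity)]
    rw [← h4]
    ring
  rw [h3] at hmono
  exact le_of_mul_le_mul_right hmono hk0

end Pool.Agent.Y402.PL
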