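import Pool.Agent.Y402.PL.Mix

set_option autoImplicit false

namespace Pool.Agent.Y402.PL

open MeasureTheory Set Filter Topology

theorem R1_pos (p : ℝ) (hp : 1 < p) (c : ℝ) (hc : 0 < c) :
    IntegrableOn (fun κ : ℝ => min ((c / κ) ^ p) 1) (Ioi 0) ∧
      ∫ κ in Ioi (0 : ℝ), min ((c / κ) ^ p) 1 = c * p / (p - 1) := by
  have hp0 : 0 < p := by linarith
  have h1 : EqOn (fun κ : ℝ => min ((c / κ) ^ p) 1) (fun _ => (1 : ℝ)) (Ioc 0 c) := by
    intro κ hκ
    simp only
    apply min_eq_right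
    apply Real.one_le_rpow _ hp0.le
    rw [one_le_div hκ.1]
    exact hκ.2
  have h2 : EqOn (fun κ : ℝ => min ((c / κ) ^ p) 1) (fun κ => c ^ p * κ ^ (-p)) (Ioi c) := by
    intro κ hκ
    have hκ0 : 0 < κ := lt_trans hc hκ
    simp only
    rw [min_eq_left, Real.div_rpow hc.le hκ0.le, Real.rpow_neg hκ0.le]
    · rfl
    · apply Real.rpow_le_one (by positivity) _ hp0.le
      rw [div_le_one hκ0]
      exact (mem_Ioi.mp hκ).le
  have i1 : IntegrableOn (fun κ : ℝ => min ((c / κ) ^ p) 1) (Ioc 0 c) := by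
    apply IntegrableOn.congr_fun _ h1.symm measurableSet_Ioc
    exact integrableOn_const (by simp)
  have i2 : IntegrableOn (fun κ : ℝ => min ((c / κ) ^ p) 1) (Ioi c) := by
    apply IntegrableOn.congr_fun _ h2.symm measurableSet_Ioi
    exact (integrableOn_Ioi_rpow_of_lt (by linarith) hc).const_mul _
  have hun : Ioi (0 : ℝ) = Ioc 0 c ∪ Ioi c := (Ioc_union_Ioi_eq_Ioi hc.le).symm
  refine ⟨?_, ?_⟩
  · rw [hun]; exact i1.union i2
  · rw [hun, setIntegral_union (Ioc_disjoint_Ioi le_rfl) measurableSet_Ioi i1 i2,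
      setIntegral_congr_fun measurableSet_Ioc h1, setIntegral_congr_fun measurableSet_Ioi h2,
      integral_const_mul, integral_Ioi_rpow_of_lt (by linarith) hc]
    simp only [integral_const, MeasurableSet.univ, measureReal_restrict_apply, univ_inter,
      Real.volume_real_Ioc, sub_zero, smul_eq_mul, mul_one]
    rw [max_eq_left hc.le]
    have h3 : c ^ (-p + 1) = c / c ^ p := by
      rw [Real.rpow_add hc, Real.rpow_neg hc.le, Real.rpow_one]
      field_simp
    rw [h3]
    have h4 : (-p + 1) ≠ 0 := by linarith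
    have h5 : (p - 1) ≠ 0 := by linarith
    have h6 : -(c / c ^ p) / (-p + 1) = (c / c ^ p) / (p - 1) := by
      rw [div_eq_div_iff h4 h5]; ring
    rw [h6]
    field_simp
    ring

theorem R1 (p : ℝ) (hp : 1 < p) (c : ℝ) (hc : 0 ≤ c) :
    IntegrableOn (fun κ : ℝ => min ((c / κ) ^ p) 1) (Ioi 0) ∧
      ∫ κ in Ioi (0 : ℝ), min ((c / κ) ^ p) 1 = c * p / (p - 1) := by
  rcases hc.eq_or_lt with rfl | hc
  · have h : (fun κ : ℝ => min (((0 : ℝ) / κ) ^ p) 1) = fun _ => (0 : ℝ) := by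
      funext κ
      rw [zero_div, Real.zero_rpow (by linarith)]
      simp
    rw [h]
    simp
  · exact R1_pos p hp c hc

theorem sum_integralR (p : ℝ) (r : ℕ) (hp : 1 < p) (a K : ℕ → ℝ) (hK : ∀ j < r, 0 ≤ K j) :
    IntegrableOn (fun κ : ℝ => ∑ j ∈ Finset.range r, a j * min ((K j / κ) ^ p) 1) (Ioi 0) ∧
      ∫ κ in Ioi (0 : ℝ), ∑ j ∈ Finset.range r, a j * min ((K j / κ) ^ p) 1
        = (∑ j ∈ Finset.range r, K j * a j) * (p / (p - 1)) := by
  have h : ∀ j ∈ Finset.range r, IntegrableOn (fun κ : ℝ => a j * min ((K j / κ) ^ p) 1)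
      (Ioi 0) := by
    intro j hj
    exact (R1 p hp (K j) (hK j (Finset.mem_range.mp hj))).1.const_mul _
  refine ⟨integrable_finsetSum _ h, ?_⟩
  rw [integral_finsetSum _ h, Finset.sum_mul]
  apply Finset.sum_congr rfl
  intro j hj
  rw [integral_const_mul, (R1 p hp (K j) (hK j (Finset.mem_range.mp hj))).2]
  ring

/-- the integrand for the rectangle bound -/
noncomputable def gfunR (A p κ : ℝ) : ℝ := (1 - Real.exp (-(A * κ ^ p))) / (A * κ ^ p)

theorem gfunR_nonneg (A : ℝ) (hA : 0 < A) (p κ : ℝ) (hκ : 0 < κ) : 0 ≤ gfunR A p κ := by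
  unfold gfunR
  apply div_nonneg
  · have : Real.exp (-(A * κ ^ p)) ≤ 1 := by
      rw [Real.exp_le_one_iff]
      have : 0 < A * κ ^ p := by positivity
      linarith
    linarith
  · positivity

theorem gfunR_le_one (A : ℝ) (hA : 0 < A) (p κ : ℝ) (hκ : 0 < κ) : gfunR A p κ ≤ 1 := by
  unfold gfunR
  have h : 0 < A * κ ^ p := by positivity
  rw [div_le_one h]
  have := Real.one_sub_le_exp_neg (A * κ ^ p)
  linarith

theorem gfunR_le_inv (A : ℝ) (hA : 0 < A) (p κ : ℝ) (hκ : 0 < κ) :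
    gfunR A p κ ≤ 1 / (A * κ ^ p) := by
  unfold gfunR
  have h : 0 < A * κ ^ p := by positivity
  apply div_le_div_of_nonneg_right _ h.le
  have := Real.exp_pos (-(A * κ ^ p))
  linarith

theorem gfunR_integrable (A : ℝ) (hA : 0 < A) (p : ℝ) (hp : 1 < p) :
    IntegrableOn (gfunR A p) (Ioi 0) := by
  have hp0 : p ≠ 0 := by linarith
  set c : ℝ := (1 / A) ^ (1 / p) with hc
  have hcpos : 0 < c := by positivity
  have hck : c ^ p = 1 / A := by
    rw [hc, ← Real.rpow_mul (by positivity), one_div_mul_cancel hp0, Real.rpow_one]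
  have hint := (R1 p hp c hcpos.le).1
  have hmeas : Measurable (gfunR A p) := by
    unfold gfunR
    fun_prop
  refine Integrable.mono' hint hmeas.aestronglyMeasurable ?_
  refine (ae_restrict_iff' measurableSet_Ioi).mpr (Eventually.of_forall ?_)
  intro κ hκ
  have hκ0 : 0 < κ := hκ
  rw [Real.norm_of_nonneg (gfunR_nonneg A hA p κ hκ0)]
  apply le_min
  · rw [Real.div_rpow hcpos.le hκ0.le, hck]
    have := gfunR_le_inv A hA p κ hκ0
    calc gfunR A p κ ≤ 1 / (A * κ ^ p) := this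
      _ = 1 / A / κ ^ p := by rw [div_div]
  · exact gfunR_le_one A hA p κ hκ0

theorem expR_integrable (A : ℝ) (hA : 0 < A) (p : ℝ) (hp : 1 < p) :
    IntegrableOn (fun κ : ℝ => Real.exp (-(A * κ ^ p))) (Ioi 0) := by
  have h := integrableOn_rpow_mul_exp_neg_mul_rpow (p := p) (s := 0) (b := A) (by norm_num)
    (by linarith) hA
  refine h.congr_fun (fun x hx => ?_) measurableSet_Ioi
  simp

theorem expR_integral (A : ℝ) (hA : 0 < A) (p : ℝ) (hp : 1 < p) :
    ∫ κ in Ioi (0 : ℝ), Real.exp (-(A * κ ^ p))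
      = A ^ (-(1 / p)) * Real.Gamma (1 + 1 / p) := by
  have h := integral_exp_neg_mul_rpow (p := p) (b := A) (by linarith) hA
  have h2 : ∫ κ in Ioi (0 : ℝ), Real.exp (-(A * κ ^ p))
      = ∫ x in Ioi (0 : ℝ), Real.exp (-A * x ^ p) := by
    apply setIntegral_congr_fun measurableSet_Ioi
    intro x hx
    simp
  rw [h2, h, add_comm (1 / p) 1, neg_div]

theorem gfunR_integral (A : ℝ) (hA : 0 < A) (p : ℝ) (hp : 1 < p) :
    ∫ κ in Ioi (0 : ℝ), gfunR A p κ
      = A ^ (-(1 / p)) * Real.Gamma (1 + 1 / p) * (p / (p - 1)) := by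
  have hp0 : (p - 1) ≠ 0 := by linarith
  have key : ∫ κ in Ioi (0 : ℝ),
      (gfunR A p κ - (p / (p - 1)) * Real.exp (-(A * κ ^ p))) = 0 := by
    have h := integral_Ioi_of_hasDerivAt_of_tendsto (a := (0 : ℝ)) (m := (0 : ℝ))
      (f := fun κ : ℝ => -(κ * gfunR A p κ) / (p - 1))
      (f' := fun κ : ℝ => gfunR A p κ - (p / (p - 1)) * Real.exp (-(A * κ ^ p)))
      ?_ ?_ ?_ ?_
    · simpa using h
    · -- continuity at zero
      have h0 : Tendsto (fun κ : ℝ => κ / (p - 1)) (𝓝[Ici 0] 0) (𝓝 0) := by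
        have : Continuous (fun κ : ℝ => κ / (p - 1)) := by fun_prop
        have h2 := (this.tendsto 0).mono_left (nhdsWithin_le_nhds (s := Ici (0 : ℝ)))
        simpa using h2
      have h3 : ∀ κ ∈ Ici (0 : ℝ), |-(κ * gfunR A p κ) / (p - 1)| ≤ κ / (p - 1) := by
        intro κ hκ
        rcases (show (0 : ℝ) ≤ κ from hκ).eq_or_lt with rfl | hpos
        · simp
        · rw [abs_div, abs_neg, abs_of_nonneg (mul_nonneg hpos.le (gfunR_nonneg A hA p κ hpos)),
            abs_of_pos (by linarith : (0 : ℝ) < p - 1)]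
          apply div_le_div_of_nonneg_right _ (by linarith)
          have := gfunR_le_one A hA p κ hpos
          nlinarith
      unfold ContinuousWithinAt
      have h4 : -((0 : ℝ) * gfunR A p 0) / (p - 1) = 0 := by simp
      simp only
      rw [h4]
      apply squeeze_zero_norm' _ h0
      filter_upwards [self_mem_nhdsWithin] with κ hκ
      exact h3 κ hκ
    · intro κ hκ
      have hκ0 : (0 : ℝ) < κ := hκ
      have hAk : A * κ ^ p ≠ 0 := by positivity
      have hpw : HasDerivAt (fun x : ℝ => A * x ^ p) (A * (p * κ ^ (p - 1))) κ :=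
        (Real.hasDerivAt_rpow_const (Or.inl hκ0.ne')).const_mul A
      have he : HasDerivAt (fun x : ℝ => Real.exp (-(A * x ^ p)))
          (Real.exp (-(A * κ ^ p)) * -(A * (p * κ ^ (p - 1)))) κ := hpw.neg.exp
      have hnum : HasDerivAt (fun x : ℝ => 1 - Real.exp (-(A * x ^ p)))
          (-(Real.exp (-(A * κ ^ p)) * -(A * (p * κ ^ (p - 1))))) κ := by
        exact he.const_sub 1
      have hg : HasDerivAt (gfunR A p)
          ((-(Real.exp (-(A * κ ^ p)) * -(A * (p * κ ^ (p - 1)))) * (A * κ ^ p)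
            - (1 - Real.exp (-(A * κ ^ p))) * (A * (p * κ ^ (p - 1))))
            / (A * κ ^ p) ^ 2) κ := hnum.div hpw hAk
      have hfin := ((hasDerivAt_id κ).mul hg).neg.div_const (p - 1)
      refine HasDerivAt.congr_deriv hfin ?_
      have hpow : κ ^ p = κ ^ (p - 1) * κ := by
        rw [← Real.rpow_add_one hκ0.ne']
        congr 1
        ring
      unfold gfunR
      simp only [id]
      rw [hpow]
      have h5 : κ ^ (p - 1) ≠ 0 := by positivity
      set E := Real.exp (-(A * (κ ^ (p - 1) * κ)))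
      set P := κ ^ (p - 1)
      field_simp
      ring
    · exact (gfunR_integrable A hA p hp).sub ((expR_integrable A hA p hp).const_mul _)
    · -- at infinity
      have h0 : Tendsto (fun κ : ℝ => (1 / (A * (p - 1))) * κ ^ (-(p - 1))) atTop (𝓝 0) := by
        have := (tendsto_rpow_neg_atTop (by linarith : 0 < p - 1)).const_mul (1 / (A * (p - 1)))
        simpa using this
      apply squeeze_zero_norm' _ h0
      filter_upwards [eventually_gt_atTop (0 : ℝ)] with κ hpos
      rw [Real.norm_eq_abs, abs_div, abs_neg,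
        abs_of_nonneg (mul_nonneg hpos.le (gfunR_nonneg A hA p κ hpos)),
        abs_of_pos (by linarith : (0 : ℝ) < p - 1)]
      have h6 := gfunR_le_inv A hA p κ hpos
      have h8 : κ * gfunR A p κ ≤ 1 / A * κ ^ (-(p - 1)) := by
        calc κ * gfunR A p κ ≤ κ * (1 / (A * κ ^ p)) := mul_le_mul_of_nonneg_left h6 hpos.le
          _ = 1 / A * κ ^ (-(p - 1)) := by
              have hpow : κ ^ p = κ ^ (p - 1) * κ := by
                rw [← Real.rpow_add_one hpos.ne']
                congr 1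
                ring
              rw [hpow, Real.rpow_neg hpos.le]
              have h5 : κ ^ (p - 1) ≠ 0 := by positivity
              field_simp
      calc κ * gfunR A p κ / (p - 1) ≤ (1 / A * κ ^ (-(p - 1))) / (p - 1) :=
            div_le_div_of_nonneg_right h8 (by linarith)
        _ = 1 / (A * (p - 1)) * κ ^ (-(p - 1)) := by
            field_simp
  rw [integral_sub (gfunR_integrable A hA p hp) ((expR_integrable A hA p hp).const_mul _),
    integral_const_mul, expR_integral A hA p hp] at key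
  linarith

/-- analytic step, Gamma constant, real exponent -/
theorem gammaANA (p : ℝ) (r : ℕ) (a K : ℕ → ℝ) (α β V : ℝ) (hp : 1 < p) (hα : 0 < α) (hβ : 0 < β)
    (hK : ∀ j < r, 0 ≤ K j)
    (h : ∀ κ t : ℝ, 0 < κ → t = α * κ ^ p / β →
      V * α * ((1 - Real.exp (-t)) / t)
        ≤ ∑ j ∈ Finset.range r, a j * min ((K j / κ) ^ p) 1) :
    Real.Gamma (1 + 1 / p) * (α ^ (1 - 1 / p) * β ^ (1 / p)) * V
      ≤ ∑ j ∈ Finset.range r, K j * a j := by
  have hk0 : (0 : ℝ) < p / (p - 1) := by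
    apply div_pos <;> linarith
  have hA : 0 < α / β := by positivity
  obtain ⟨hi, hI⟩ := sum_integralR p r hp a K hK
  have hmono : ∫ κ in Ioi (0 : ℝ), (V * α) * gfunR (α / β) p κ
      ≤ ∫ κ in Ioi (0 : ℝ), ∑ j ∈ Finset.range r, a j * min ((K j / κ) ^ p) 1 := by
    apply setIntegral_mono_on ((gfunR_integrable _ hA p hp).const_mul _) hi measurableSet_Ioi
    intro κ hκ
    have h1 := h κ (α * κ ^ p / β) hκ rfl
    have h2 : α * κ ^ p / β = α / β * κ ^ p := by ring
    rw [h2] at h1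
    exact h1
  rw [integral_const_mul, gfunR_integral _ hA p hp, hI] at hmono
  have h3 : V * α * ((α / β) ^ (-(1 / p)) * Real.Gamma (1 + 1 / p) * (p / (p - 1)))
      = (Real.Gamma (1 + 1 / p) * (α ^ (1 - 1 / p) * β ^ (1 / p)) * V) * (p / (p - 1)) := by
    rw [← rpow_aux α β hα hβ]
    ring
  rw [h3] at hmono
  exact le_of_mul_le_mul_right hmono hk0

/-- Integration of a mixture, real exponent. -/
theorem mixANAR (p : ℝ) (r : ℕ) (a K : ℕ → ℝ) (α β V : ℝ) (hp : 1 < p) (hα : 0 < α) (hβ : 0 < β)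
    (hK : ∀ j < r, 0 ≤ K j) (H : ℕ) (s : ℕ → ℝ) (hs : ∀ i < H, 0 ≤ s i)
    (h : ∀ κ : ℝ, 0 < κ → V * ∑ i ∈ Finset.range H, min (s i * (β / κ ^ p)) α
        ≤ ∑ j ∈ Finset.range r, a j * min ((K j / κ) ^ p) 1) :
    (∑ i ∈ Finset.range H, s i ^ (1 / p)) * (α ^ (1 - 1 / p) * β ^ (1 / p)) * V
      ≤ ∑ j ∈ Finset.range r, K j * a j := by
  have hkne : p ≠ 0 := by linarith
  have hk0 : (0 : ℝ) < p / (p - 1) := by
    apply div_pos <;> linarith
  set θ : ℝ := 1 / p with hθ
  have hc0 : ∀ i < H, 0 ≤ (s i * (β / α)) ^ θ := fun i hi =>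
    Real.rpow_nonneg (mul_nonneg (hs i hi) (by positivity)) _
  have hck : ∀ i < H, ((s i * (β / α)) ^ θ) ^ p = s i * (β / α) := by
    intro i hi
    rw [← Real.rpow_mul (mul_nonneg (hs i hi) (by positivity)), hθ,
      one_div_mul_cancel hkne, Real.rpow_one]
  obtain ⟨hi, hI⟩ := sum_integralR p r hp a K hK
  obtain ⟨hi2, hI2⟩ := sum_integralR p H hp (fun _ => V * α) (fun i => (s i * (β / α)) ^ θ) hc0
  have hmono : ∫ κ in Ioi (0 : ℝ), ∑ i ∈ Finset.range H,
        (V * α) * min (((s i * (β / α)) ^ θ / κ) ^ p) 1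
      ≤ ∫ κ in Ioi (0 : ℝ), ∑ j ∈ Finset.range r, a j * min ((K j / κ) ^ p) 1 := by
    apply setIntegral_mono_on hi2 hi measurableSet_Ioi
    intro κ hκ
    have hκ0 : 0 < κ := hκ
    refine le_trans (le_of_eq ?_) (h κ hκ0)
    rw [Finset.mul_sum]
    apply Finset.sum_congr rfl
    intro i hi
    have hi' := Finset.mem_range.mp hi
    have h2 : s i * (β / κ ^ p) = α * (((s i * (β / α)) ^ θ / κ) ^ p) := by
      rw [Real.div_rpow (hc0 i hi') hκ0.le, hck i hi']
      field_simp
    have h3 : min (s i * (β / κ ^ p)) α = α * min (((s i * (β / α)) ^ θ / κ) ^ p) 1 := by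
      rw [h2, mul_min_of_nonneg _ _ hα.le, mul_one]
    rw [h3]
    ring
  rw [hI2, hI] at hmono
  have h4 := le_of_mul_le_mul_right hmono hk0
  refine le_trans (le_of_eq ?_) h4
  rw [Finset.sum_mul, Finset.sum_mul]
  apply Finset.sum_congr rfl
  intro i hi
  have h5 : (s i * (β / α)) ^ θ = s i ^ θ * (β / α) ^ θ :=
    Real.mul_rpow (hs i (Finset.mem_range.mp hi)) (by positivity)
  have h6 : α * (β / α) ^ θ = α ^ (1 - θ) * β ^ θ := by
    rw [← rpow_aux α β hα hβ]
    congr 1
    rw [← inv_div α β, Real.inv_rpow (by positivity), Real.rpow_neg (by positivity)]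
  rw [h5, ← h6]
  ring

end Pool.Agent.Y402.PL
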