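import Pool.Agent.Y402.PL.Stm

set_option autoImplicit false

namespace Pool.Agent.Y402.PL

theorem sum_min_le (H : ℝ) (hH : 0 < H) : ∀ n : ℕ, ∀ ρ : ℝ, 0 < ρ → ρ ≤ ((n : ℝ) + 1) * H →
    ∑ x ∈ Finset.range (n + 1), min H (ρ / ((x : ℝ) + 1))
      ≤ ρ * (1 + Real.log (((n : ℝ) + 1) * H / ρ)) := by
  intro n
  induction n with
  | zero =>
    intro ρ hρ hle
    simp only [Nat.cast_zero, zero_add, one_mul, Finset.range_one, Finset.sum_singleton,
      div_one] at hle ⊢
    have h1 : 0 ≤ Real.log (H / ρ) := Real.log_nonneg (by rwa [one_le_div hρ])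
    calc min H ρ ≤ ρ := min_le_right _ _
      _ ≤ ρ * (1 + Real.log (H / ρ)) := by nlinarith
  | succ n ih =>
    intro ρ hρ hle
    rw [Finset.sum_range_succ]
    push_cast at hle ⊢
    have hn1 : (0 : ℝ) < (n : ℝ) + 1 := by positivity
    have hn2 : (0 : ℝ) < (n : ℝ) + 1 + 1 := by positivity
    rcases le_total ρ (((n : ℝ) + 1) * H) with hc | hc
    · have h1 := ih ρ hρ hc
      have h2 : min H (ρ / ((n : ℝ) + 1 + 1)) ≤ ρ / ((n : ℝ) + 1 + 1) := min_le_right _ _
      have h3 : 1 / ((n : ℝ) + 1 + 1) ≤ Real.log (((n : ℝ) + 1 + 1) / ((n : ℝ) + 1)) := by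
        have := Real.one_sub_inv_le_log_of_pos (div_pos hn2 hn1)
        refine le_trans (le_of_eq ?_) this
        field_simp
        ring
      have h4 : Real.log (((n : ℝ) + 1 + 1) * H / ρ)
          = Real.log (((n : ℝ) + 1) * H / ρ) + Real.log (((n : ℝ) + 1 + 1) / ((n : ℝ) + 1)) := by
        rw [← Real.log_mul (by positivity) (by positivity)]
        congr 1
        field_simp
      rw [h4]
      have h5 : ρ / ((n : ℝ) + 1 + 1) ≤ ρ * Real.log (((n : ℝ) + 1 + 1) / ((n : ℝ) + 1)) := by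
        calc ρ / ((n : ℝ) + 1 + 1) = ρ * (1 / ((n : ℝ) + 1 + 1)) := by ring
          _ ≤ _ := mul_le_mul_of_nonneg_left h3 hρ.le
      nlinarith
    · have h1 : ∑ x ∈ Finset.range (n + 1), min H (ρ / ((x : ℝ) + 1)) ≤ ((n : ℝ) + 1) * H := by
        calc ∑ x ∈ Finset.range (n + 1), min H (ρ / ((x : ℝ) + 1))
            ≤ ∑ x ∈ Finset.range (n + 1), H := Finset.sum_le_sum (fun x _ => min_le_left _ _)
          _ = ((n : ℝ) + 1) * H := by simp
      have h2 : min H (ρ / ((n : ℝ) + 1 + 1)) ≤ ρ / ((n : ℝ) + 1 + 1) := min_le_right _ _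
      set u : ℝ := ((n : ℝ) + 1 + 1) * H / ρ with hu
      have hupos : 0 < u := by positivity
      have hu1 : 1 ≤ u := by rw [hu, one_le_div hρ]; exact hle
      have hu2 : ((n : ℝ) + 1) * u ≤ (n : ℝ) + 1 + 1 := by
        rw [hu, ← mul_div_assoc, div_le_iff₀ hρ]
        nlinarith
      have hHu : H = u * ρ / ((n : ℝ) + 1 + 1) := by
        rw [hu]; field_simp
      have hlog : 1 - u⁻¹ ≤ Real.log u := Real.one_sub_inv_le_log_of_pos hupos
      have h3 : ((n : ℝ) + 1) * H + ρ / ((n : ℝ) + 1 + 1) ≤ ρ * (2 - u⁻¹) := by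
        have h5 : ((n : ℝ) + 1) * u ^ 2 + u ≤ 2 * ((n : ℝ) + 1 + 1) * u - ((n : ℝ) + 1 + 1) := by
          nlinarith [mul_nonneg (sub_nonneg.mpr hu2) (sub_nonneg.mpr hu1)]
        have h6 : ((n : ℝ) + 1) * H + ρ / ((n : ℝ) + 1 + 1)
            = ρ / (((n : ℝ) + 1 + 1) * u) * (((n : ℝ) + 1) * u ^ 2 + u) := by
          rw [hHu]; field_simp
        have h7 : ρ * (2 - u⁻¹)
            = ρ / (((n : ℝ) + 1 + 1) * u) * (2 * ((n : ℝ) + 1 + 1) * u - ((n : ℝ) + 1 + 1)) := by
          field_simp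
        rw [h6, h7]
        exact mul_le_mul_of_nonneg_left h5 (by positivity)
      have h4 : ρ * (2 - u⁻¹) ≤ ρ * (1 + Real.log u) :=
        mul_le_mul_of_nonneg_left (by linarith) hρ.le
      linarith

theorem mainAREA : S_AREA := by
  intro n m D ρ hD hρ hle hprod
  have hfib : D.card = ∑ x ∈ Finset.range (n + 1), (D.filter (fun p => p.1 = x)).card := by
    apply Finset.card_eq_sum_card_fiberwise
    intro p hp
    have := hD hp
    unfold box at this
    simpa using (Finset.mem_product.mp this).1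
  have hcol : ∀ x ∈ Finset.range (n + 1), ((D.filter (fun p => p.1 = x)).card : ℝ)
      ≤ min ((m : ℝ) + 1) (ρ / ((x : ℝ) + 1)) := by
    intro x _
    have hinj : Set.InjOn (fun p : ℕ × ℕ => p.2) (D.filter (fun p => p.1 = x) : Finset (ℕ × ℕ)) := by
      intro p hp q hq hpq
      simp only [Finset.coe_filter, Set.mem_setOf_eq] at hp hq
      exact Prod.ext (hp.2.trans hq.2.symm) hpq
    apply le_min
    · have h1 : (D.filter (fun p => p.1 = x)).card ≤ (Finset.range (m + 1)).card := by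
        apply Finset.card_le_card_of_injOn (fun p : ℕ × ℕ => p.2) _ hinj
        intro p hp
        have h0 : p ∈ D ∧ p.1 = x := by simpa using hp
        have h2 := hD h0.1
        unfold box at h2
        exact (Finset.mem_product.mp h2).2
      rw [Finset.card_range] at h1
      exact_mod_cast h1
    · have hpos : (0 : ℝ) < (x : ℝ) + 1 := by positivity
      have h1 : (D.filter (fun p => p.1 = x)).card ≤ (Finset.range ⌊ρ / ((x : ℝ) + 1)⌋₊).card := by
        apply Finset.card_le_card_of_injOn (fun p : ℕ × ℕ => p.2) _ hinj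
        intro p hp
        have h2 := Finset.mem_filter.mp (by simpa using hp : p ∈ D.filter (fun p => p.1 = x))
        have h3 := hprod p h2.1
        rw [h2.2] at h3
        simp only [Finset.coe_range, Set.mem_Iio]
        have h4 : p.2 + 1 ≤ ⌊ρ / ((x : ℝ) + 1)⌋₊ := by
          apply Nat.le_floor
          push_cast
          rw [le_div_iff₀ hpos]
          linarith
        omega
      rw [Finset.card_range] at h1
      calc ((D.filter (fun p => p.1 = x)).card : ℝ) ≤ (⌊ρ / ((x : ℝ) + 1)⌋₊ : ℝ) := by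
            exact_mod_cast h1
        _ ≤ ρ / ((x : ℝ) + 1) := Nat.floor_le (by positivity)
  have hcard : (D.card : ℝ) = ∑ x ∈ Finset.range (n + 1),
      ((D.filter (fun p => p.1 = x)).card : ℝ) := by
    exact_mod_cast hfib
  rw [hcard]
  exact le_trans (Finset.sum_le_sum hcol)
    (sum_min_le ((m : ℝ) + 1) (by positivity) n ρ hρ hle)

end Pool.Agent.Y402.PL
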