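import Pool.Agent.Y402.PL.Stm

set_option autoImplicit false

namespace Pool.Agent.Y402.PL

open Pointwise

/-- The rectangular Schnirelmann density in `[0,N] × [0,M]`. -/
noncomputable def sig (N M : ℕ) (C : Finset (ℕ × ℕ)) : ℝ :=
  ⨅ p : Fin (N + 1) × Fin (M + 1),
    (((C.filter (fun q => q.1 ≤ (p.1 : ℕ) ∧ q.2 ≤ (p.2 : ℕ))).card : ℝ) /
      ((((p.1 : ℕ) : ℝ) + 1) * (((p.2 : ℕ) : ℝ) + 1)))

theorem mem_box {n m : ℕ} {p : ℕ × ℕ} : p ∈ box n m ↔ p.1 ≤ n ∧ p.2 ≤ m := by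
  unfold box
  simp only [Finset.mem_product, Finset.mem_range]
  omega

theorem card_box (n m : ℕ) : ((box n m).card : ℝ) = ((n : ℝ) + 1) * ((m : ℝ) + 1) := by
  unfold box
  simp [Finset.card_product]

theorem filter_eq (C : Finset (ℕ × ℕ)) (n m : ℕ) :
    C.filter (fun q => q.1 ≤ n ∧ q.2 ≤ m) = C ∩ box n m := by
  ext p
  simp only [Finset.mem_filter, Finset.mem_inter, mem_box]

theorem sig_mul_le (N M : ℕ) (C : Finset (ℕ × ℕ)) (n m : ℕ) (hn : n ≤ N) (hm : m ≤ M) :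
    sig N M C * (((n : ℝ) + 1) * ((m : ℝ) + 1)) ≤ ((C ∩ box n m).card : ℝ) := by
  have h : sig N M C ≤ (((C.filter (fun q => q.1 ≤ n ∧ q.2 ≤ m)).card : ℝ) /
      (((n : ℝ) + 1) * ((m : ℝ) + 1))) := by
    unfold sig
    exact ciInf_le (Finite.bddBelow_range _)
      ((⟨n, by omega⟩, ⟨m, by omega⟩) : Fin (N + 1) × Fin (M + 1))
  rw [filter_eq] at h
  have hpos : (0 : ℝ) < ((n : ℝ) + 1) * ((m : ℝ) + 1) := by positivity
  rwa [le_div_iff₀ hpos] at h

theorem exists_sig (N M : ℕ) (C : Finset (ℕ × ℕ)) : ∃ n m : ℕ, n ≤ N ∧ m ≤ M ∧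
    ((C ∩ box n m).card : ℝ) = sig N M C * (((n : ℝ) + 1) * ((m : ℝ) + 1)) := by
  obtain ⟨p, hp⟩ := exists_eq_ciInf_of_finite
    (f := fun p : Fin (N + 1) × Fin (M + 1) =>
      (((C.filter (fun q => q.1 ≤ (p.1 : ℕ) ∧ q.2 ≤ (p.2 : ℕ))).card : ℝ) /
      ((((p.1 : ℕ) : ℝ) + 1) * (((p.2 : ℕ) : ℝ) + 1))))
  refine ⟨p.1, p.2, by omega, by omega, ?_⟩
  have h2 : sig N M C = (((C.filter (fun q => q.1 ≤ (p.1 : ℕ) ∧ q.2 ≤ (p.2 : ℕ))).card : ℝ) /
      ((((p.1 : ℕ) : ℝ) + 1) * (((p.2 : ℕ) : ℝ) + 1))) := by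
    unfold sig
    exact hp.symm
  rw [filter_eq] at h2
  rw [h2]
  field_simp

theorem sig_nonneg (N M : ℕ) (C : Finset (ℕ × ℕ)) : 0 ≤ sig N M C := by
  unfold sig
  exact Real.iInf_nonneg (fun p => by positivity)

theorem exists_threshold (K : ℕ → ℝ) (hK : Monotone K) (κ : ℝ) (r : ℕ) :
    ∃ j0 ≤ r, (∀ j < j0, K j ≤ κ) ∧ ∀ j, j0 ≤ j → j < r → κ < K j := by
  classical
  by_cases h : ∃ j, j < r ∧ κ < K j
  · refine ⟨Nat.find h, (Nat.find_spec h).1.le, ?_, ?_⟩
    · intro j hj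
      have h1 := Nat.find_min h hj
      have h2 : j < r := lt_trans hj (Nat.find_spec h).1
      by_contra hc
      exact h1 ⟨h2, not_le.mp hc⟩
    · intro j hj _
      exact lt_of_lt_of_le (Nat.find_spec h).2 (hK hj)
  · refine ⟨r, le_rfl, ?_, ?_⟩
    · intro j hj
      by_contra hc
      exact h ⟨j, hj, not_le.mp hc⟩
    · intro j h1 h2
      omega

/-- The lower bound for the sum in terms of the threshold set. -/
theorem threshold_bound (n m k : ℕ) (A B : Finset (ℕ × ℕ)) (hB : ((0, 0) : ℕ × ℕ) ∈ B)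
    (hA : A ⊆ box n m)
    (hCH : S_CH) (hk : 1 ≤ k) :
    ∃ (r : ℕ) (a K : ℕ → ℝ), (∀ j < r, 0 ≤ a j) ∧ (∀ j < r, 0 ≤ K j) ∧
      ∑ j ∈ Finset.range r, K j * a j = (((A + B) ∩ box n m).card : ℝ) ∧
      ∀ κ : ℝ, 0 < κ → ∃ W : Finset (ℕ × ℕ), W ⊆ A ∧
        (κ ^ k)⁻¹ * (((W + k • B) ∩ box n m).card : ℝ) + ((A \ W).card : ℝ)
          ≤ ∑ j ∈ Finset.range r, a j * min ((K j / κ) ^ k) 1 := by
  obtain ⟨r, V, K, hV0, hVr, hVmono, hKmono, hK0, hstep⟩ := hCH n m k A B hk hB hA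
  have hVm : Monotone V := monotone_nat_of_le_succ hVmono
  refine ⟨r, fun j => ((V (j + 1)).card : ℝ) - ((V j).card : ℝ), K, ?_, fun j _ => hK0 j, ?_, ?_⟩
  · intro j _
    have := Finset.card_le_card (hVmono j)
    have h2 : ((V j).card : ℝ) ≤ ((V (j + 1)).card : ℝ) := by exact_mod_cast this
    simp only
    linarith
  · have htel : ∀ s, s ≤ r → ∑ j ∈ Finset.range s,
        K j * (((V (j + 1)).card : ℝ) - ((V j).card : ℝ)) = (((V s + B) ∩ box n m).card : ℝ) := by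
      intro s
      induction s with
      | zero => intro _; simp [hV0]
      | succ s ih =>
        intro hs
        rw [Finset.sum_range_succ, ih (by omega), (hstep s (by omega)).1]
    simpa [hVr] using htel r le_rfl
  · intro κ hκ
    obtain ⟨j0, hj0, hlow, hhigh⟩ := exists_threshold K hKmono κ r
    refine ⟨V j0, hVr ▸ hVm hj0, ?_⟩
    have hsplit : ∑ j ∈ Finset.range r,
        (((V (j + 1)).card : ℝ) - ((V j).card : ℝ)) * min ((K j / κ) ^ k) 1
        = ∑ j ∈ Finset.range j0,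
            (((V (j + 1)).card : ℝ) - ((V j).card : ℝ)) * min ((K j / κ) ^ k) 1
          + ∑ j ∈ Finset.Ico j0 r,
            (((V (j + 1)).card : ℝ) - ((V j).card : ℝ)) * min ((K j / κ) ^ k) 1 := by
      rw [Finset.sum_range_add_sum_Ico _ hj0]
    have h1 : ∀ s, s ≤ j0 → (κ ^ k)⁻¹ * (((V s + k • B) ∩ box n m).card : ℝ) ≤
        ∑ j ∈ Finset.range s,
            (((V (j + 1)).card : ℝ) - ((V j).card : ℝ)) * min ((K j / κ) ^ k) 1 := by
      intro s
      induction s with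
      | zero => intro _; simp [hV0]
      | succ s ih =>
        intro hs
        rw [Finset.sum_range_succ]
        have h2 := (hstep s (by omega)).2
        have h3 := ih (by omega)
        have h4 : min ((K s / κ) ^ k) 1 = (κ ^ k)⁻¹ * K s ^ k := by
          have h5 : (K s / κ) ^ k ≤ 1 := by
            apply pow_le_one₀
            · exact div_nonneg (hK0 s) hκ.le
            · rw [div_le_one hκ]
              exact hlow s (by omega)
          rw [min_eq_left h5, div_pow]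
          field_simp
        rw [h4]
        have h6 : (0 : ℝ) < (κ ^ k)⁻¹ := by positivity
        calc (κ ^ k)⁻¹ * (((V (s + 1) + k • B) ∩ box n m).card : ℝ)
            ≤ (κ ^ k)⁻¹ * ((((V s + k • B) ∩ box n m).card : ℝ)
              + K s ^ k * (((V (s + 1)).card : ℝ) - ((V s).card : ℝ))) :=
              mul_le_mul_of_nonneg_left h2 h6.le
          _ = (κ ^ k)⁻¹ * (((V s + k • B) ∩ box n m).card : ℝ)
              + (((V (s + 1)).card : ℝ) - ((V s).card : ℝ)) * ((κ ^ k)⁻¹ * K s ^ k) := by ring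
          _ ≤ _ := by linarith
    have h2 : ∑ j ∈ Finset.Ico j0 r,
            (((V (j + 1)).card : ℝ) - ((V j).card : ℝ)) * min ((K j / κ) ^ k) 1
        = ((A \ V j0).card : ℝ) := by
      have h3 : ∑ j ∈ Finset.Ico j0 r,
            (((V (j + 1)).card : ℝ) - ((V j).card : ℝ)) * min ((K j / κ) ^ k) 1
          = ∑ j ∈ Finset.Ico j0 r, (((V (j + 1)).card : ℝ) - ((V j).card : ℝ)) := by
        apply Finset.sum_congr rfl
        intro j hj
        rw [Finset.mem_Ico] at hj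
        have h4 : 1 ≤ (K j / κ) ^ k := by
          apply one_le_pow₀
          rw [one_le_div hκ]
          exact (hhigh j hj.1 hj.2).le
        rw [min_eq_right h4, mul_one]
      rw [h3, Finset.sum_Ico_eq_sub _ hj0, Finset.sum_range_sub (fun j => ((V j).card : ℝ)),
        Finset.sum_range_sub (fun j => ((V j).card : ℝ))]
      have h5 : V j0 ⊆ A := hVr ▸ hVm hj0
      rw [Finset.card_sdiff_of_subset h5, Nat.cast_sub (Finset.card_le_card h5), hVr]
      ring
    rw [hsplit, h2]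
    have := h1 j0 le_rfl
    linarith

end Pool.Agent.Y402.PL
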