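import Pool.Agent.Y402.PL.Final3

set_option autoImplicit false

namespace Pool.Agent.Y402.PL

open Pointwise

/-- Level bound when the bottom row of `C = kB` is dense. -/
theorem level_bound_row (n m : ℕ) (A W C : Finset (ℕ × ℕ)) (α τ c : ℝ)
    (hα : 0 ≤ α) (hτ : 0 ≤ τ) (hc0 : 0 ≤ c)
    (hA : ∀ a ≤ n, α * (((a : ℝ) + 1) * ((m : ℝ) + 1)) ≤ ((A ∩ box a m).card : ℝ))
    (hC : ∀ a ≤ n, τ * ((a : ℝ) + 1) ≤ ((C ∩ box a 0).card : ℝ)) :
    ((n : ℝ) + 1) * min (1 * (τ * c)) (((m : ℝ) + 1) * α)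
      ≤ c * (((W + C) ∩ box n m).card : ℝ) + (((A ∩ box n m) \ W).card : ℝ) := by
  rcases (W ∩ box n m).eq_empty_or_nonempty with he | hne
  · have h1 : (A ∩ box n m) \ W = A ∩ box n m := by
      rw [Finset.sdiff_eq_self_iff_disjoint, Finset.disjoint_left]
      intro x hx hxW
      have : x ∈ W ∩ box n m := Finset.mem_inter.mpr ⟨hxW, (Finset.mem_inter.mp hx).2⟩
      rw [he] at this
      exact Finset.notMem_empty _ this
    rw [h1]
    have h2 := hA n le_rfl
    have h3 : ((n : ℝ) + 1) * min (1 * (τ * c)) (((m : ℝ) + 1) * α)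
        ≤ ((n : ℝ) + 1) * (((m : ℝ) + 1) * α) :=
      mul_le_mul_of_nonneg_left (min_le_right _ _) (by positivity)
    have h4 : 0 ≤ c * (((W + C) ∩ box n m).card : ℝ) := by positivity
    nlinarith
  · obtain ⟨z, hz, hzmin⟩ := Finset.exists_min_image (W ∩ box n m) (fun w => w.1) hne
    rw [Finset.mem_inter, mem_box] at hz
    obtain ⟨hzW, hz1, hz2⟩ := hz
    set d : ℕ := z.1 with hd
    -- the sumset
    have hsum : τ * ((n : ℝ) + 1 - d) ≤ (((W + C) ∩ box n m).card : ℝ) := by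
      have h1 := hC (n - d) (by omega)
      have h2 : ((C ∩ box (n - d) 0).card : ℝ) ≤ (((W + C) ∩ box n m).card : ℝ) := by
        have h3 : (C ∩ box (n - d) 0).card ≤ ((W + C) ∩ box n m).card := by
          apply Finset.card_le_card_of_injOn (fun x => z + x)
          · intro x hx
            have hx' := Finset.mem_inter.mp (Finset.mem_coe.mp hx)
            have hxb := mem_box.mp hx'.2
            rw [Finset.mem_coe, Finset.mem_inter, mem_box]
            refine ⟨Finset.add_mem_add hzW hx'.1, ?_, ?_⟩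
            · simp only [Prod.fst_add]
              omega
            · simp only [Prod.snd_add]
              omega
          · intro x _ y _ hxy
            exact add_left_cancel hxy
        exact_mod_cast h3
      have h4 : (((n - d : ℕ) : ℝ) + 1) = (n : ℝ) + 1 - d := by
        rw [Nat.cast_sub hz1]
        ring
      rw [h4] at h1
      linarith
    -- the rest
    have hrest : ((m : ℝ) + 1) * α * d ≤ (((A ∩ box n m) \ W).card : ℝ) := by
      rcases Nat.eq_zero_or_pos d with h0 | h0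
      · rw [h0]
        simp
      · have h1 := hA (d - 1) (by omega)
        have h2 : ((A ∩ box (d - 1) m).card : ℝ) ≤ (((A ∩ box n m) \ W).card : ℝ) := by
          have h3 : A ∩ box (d - 1) m ⊆ (A ∩ box n m) \ W := by
            intro x hx
            rw [Finset.mem_inter, mem_box] at hx
            rw [Finset.mem_sdiff, Finset.mem_inter, mem_box]
            refine ⟨⟨hx.1, by omega, hx.2.2⟩, fun hxW => ?_⟩
            have := hzmin x (Finset.mem_inter.mpr ⟨hxW, mem_box.mpr ⟨by omega, hx.2.2⟩⟩)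
            omega
          exact_mod_cast Finset.card_le_card h3
        have h4 : (((d - 1 : ℕ) : ℝ) + 1) = (d : ℝ) := by
          rw [Nat.cast_sub h0]
          simp
        rw [h4] at h1
        nlinarith
    have hdn : (d : ℝ) ≤ (n : ℝ) := by exact_mod_cast hz1
    set μ : ℝ := min (1 * (τ * c)) (((m : ℝ) + 1) * α) with hμ
    have e1 : μ ≤ τ * c := by rw [hμ, one_mul]; exact min_le_left _ _
    have e2 : μ ≤ ((m : ℝ) + 1) * α := min_le_right _ _
    have e3 : μ * ((n : ℝ) + 1 - d) ≤ τ * c * ((n : ℝ) + 1 - d) :=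
      mul_le_mul_of_nonneg_right e1 (by linarith)
    have e4 : μ * d ≤ ((m : ℝ) + 1) * α * d :=
      mul_le_mul_of_nonneg_right e2 (by positivity)
    have e5 : c * (τ * ((n : ℝ) + 1 - d)) ≤ c * (((W + C) ∩ box n m).card : ℝ) :=
      mul_le_mul_of_nonneg_left hsum hc0
    nlinarith

theorem axis_row (N M : ℕ) (A B : Finset (ℕ × ℕ)) (hB : ((0, 0) : ℕ × ℕ) ∈ B)
    (hB0 : ∀ b ∈ B, b.2 = 0) (k k' : ℕ) (hk' : 0 < k') (hk : k' < k) :
    sig N M A ^ (1 - (k' : ℝ) / (k : ℝ)) * sig N M (k • B) ^ ((k' : ℝ) / (k : ℝ))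
      ≤ sig N M (A + k' • B) := by
  have hkr : (0 : ℝ) < (k : ℝ) := by exact_mod_cast (by omega : 0 < k)
  have hkr' : (0 : ℝ) < (k' : ℝ) := by exact_mod_cast hk'
  have hlt : (k' : ℝ) < (k : ℝ) := by exact_mod_cast hk
  have hq1 : (k' : ℝ) / (k : ℝ) < 1 := by rw [div_lt_one hkr]; exact hlt
  have hq0 : 0 < (k' : ℝ) / (k : ℝ) := by positivity
  rcases (sig_nonneg N M A).eq_or_lt with hA | hA
  · rw [← hA, Real.zero_rpow (by linarith), zero_mul]
    exact sig_nonneg _ _ _
  rcases (sig_nonneg N M (k • B)).eq_or_lt with hb | hb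
  · rw [← hb, Real.zero_rpow (by linarith), mul_zero]
    exact sig_nonneg _ _ _
  have hk0 : ∀ (i : ℕ) (x : ℕ × ℕ), x ∈ i • B → x.2 = 0 := by
    intro i
    induction i with
    | zero =>
      intro x hx
      rw [zero_nsmul] at hx
      rw [Finset.mem_zero.mp hx]
      rfl
    | succ i ih =>
      intro x hx
      rw [succ_nsmul] at hx
      obtain ⟨y, hy, z, hz, rfl⟩ := Finset.mem_add.mp hx
      simp [ih y hy, hB0 z hz]
  obtain ⟨n, m, hn, hm, hcard⟩ := exists_sig N M (A + k' • B)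
  obtain ⟨r, a, K, hK, hsum, hlev⟩ := threshold_bound2 n m k k' (A ∩ box n m) B hB
    Finset.inter_subset_right hCH2 hk' hk
  rw [sumset_box, hcard] at hsum
  set p : ℝ := (k : ℝ) / (k' : ℝ) with hp
  have hp1 : 1 < p := by rw [hp, one_lt_div hkr']; exact hlt
  have hθ : (k' : ℝ) / (k : ℝ) = 1 / p := by rw [hp, one_div_div]
  rw [hθ]
  rw [hθ] at hq0 hq1
  set α : ℝ := sig N M A with hαdef
  set β : ℝ := sig N M (k • B) with hβdef
  have hm1 : (0 : ℝ) < (m : ℝ) + 1 := by positivity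
  have hmM : (m : ℝ) + 1 ≤ (M : ℝ) + 1 := by
    have : (m : ℝ) ≤ M := by exact_mod_cast hm
    linarith
  have hC : ∀ a ≤ n, (((m : ℝ) + 1) * β) * ((a : ℝ) + 1) ≤ ((k • B ∩ box a 0).card : ℝ) := by
    intro a' ha'
    have h1 := sig_mul_le N M (k • B) a' M (by omega) le_rfl
    have h2 : k • B ∩ box a' M = k • B ∩ box a' 0 := by
      ext x
      rw [Finset.mem_inter, Finset.mem_inter, mem_box, mem_box]
      constructor
      · rintro ⟨hx, h3, h4⟩
        exact ⟨hx, h3, by rw [hk0 k x hx]⟩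
      · rintro ⟨hx, h3, h4⟩
        exact ⟨hx, h3, by omega⟩
    rw [h2] at h1
    refine le_trans ?_ h1
    have h5 : (0 : ℝ) ≤ β * ((a' : ℝ) + 1) := by positivity
    nlinarith [mul_le_mul_of_nonneg_left hmM h5]
  have hmix := mixANAR p r a K (((m : ℝ) + 1) * α) (((m : ℝ) + 1) * β) ((n : ℝ) + 1) hp1
    (by positivity) (by positivity) hK 1 (fun _ => 1) (fun i _ => zero_le_one) (by
      intro κ hκ
      obtain ⟨W, hWA, hW⟩ := hlev κ hκ
      refine le_trans ?_ hW
      have := level_bound_row n m A W (k • B) α (((m : ℝ) + 1) * β) ((κ ^ p)⁻¹) hA.le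
        (by positivity) (by positivity)
        (fun a' ha' => sig_mul_le N M A a' m (by omega) hm) hC
      simpa [div_eq_mul_inv] using this)
  simp only [Finset.range_one, Finset.sum_const, Finset.card_singleton, one_smul,
    Real.one_rpow, one_mul] at hmix
  have h1 := le_trans hmix hsum
  have h2 : (((m : ℝ) + 1) * α) ^ (1 - 1 / p) * (((m : ℝ) + 1) * β) ^ (1 / p)
      = ((m : ℝ) + 1) * (α ^ (1 - 1 / p) * β ^ (1 / p)) := by
    rw [Real.mul_rpow hm1.le hA.le, Real.mul_rpow hm1.le hb.le]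
    have h3 : ((m : ℝ) + 1) ^ (1 - 1 / p) * ((m : ℝ) + 1) ^ (1 / p) = (m : ℝ) + 1 := by
      rw [← Real.rpow_add hm1]
      simp
    calc _ = (((m : ℝ) + 1) ^ (1 - 1 / p) * ((m : ℝ) + 1) ^ (1 / p))
          * (α ^ (1 - 1 / p) * β ^ (1 / p)) := by ring
      _ = _ := by rw [h3]
  rw [h2] at h1
  have hVpos : (0 : ℝ) < ((n : ℝ) + 1) * ((m : ℝ) + 1) := by positivity
  have h4 : (α ^ (1 - 1 / p) * β ^ (1 / p)) * (((n : ℝ) + 1) * ((m : ℝ) + 1))
      ≤ sig N M (A + k' • B) * (((n : ℝ) + 1) * ((m : ℝ) + 1)) := by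
    refine le_trans (le_of_eq ?_) h1
    ring
  exact le_of_mul_le_mul_right h4 hVpos

theorem axis_both (N M : ℕ) (A B : Finset (ℕ × ℕ)) (hB : ((0, 0) : ℕ × ℕ) ∈ B)
    (hB0 : (∀ b ∈ B, b.2 = 0) ∨ (∀ b ∈ B, b.1 = 0)) (k k' : ℕ) (hk' : 0 < k') (hk : k' < k) :
    sig N M A ^ (1 - (k' : ℝ) / (k : ℝ)) * sig N M (k • B) ^ ((k' : ℝ) / (k : ℝ))
      ≤ sig N M (A + k' • B) := by
  rcases hB0 with h | h
  · exact axis_row N M A B hB h k k' hk' hk
  · have hB' : ((0, 0) : ℕ × ℕ) ∈ B.image Prod.swap := by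
      rw [Finset.mem_image]
      exact ⟨(0, 0), hB, rfl⟩
    have h' : ∀ b ∈ B.image Prod.swap, b.2 = 0 := by
      intro b hb
      obtain ⟨x, hx, rfl⟩ := Finset.mem_image.mp hb
      exact h x hx
    have := axis_row M N (A.image Prod.swap) (B.image Prod.swap) hB' h' k k' hk' hk
    rwa [← swap_nsmul, ← swap_nsmul, ← swap_add, sig_swap, sig_swap, sig_swap] at this

end Pool.Agent.Y402.PL
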