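import Pool.Agent.Y402.PL.Asm

set_option autoImplicit false

namespace Pool.Agent.Y402.PL

open Pointwise

/-- the points of the box that are above some point of `W` -/
def up (n m : ℕ) (W : Finset (ℕ × ℕ)) : Finset (ℕ × ℕ) :=
  (box n m).filter (fun p => ∃ w ∈ W, w.1 ≤ p.1 ∧ w.2 ≤ p.2)

theorem up_subset (n m : ℕ) (W : Finset (ℕ × ℕ)) : up n m W ⊆ box n m :=
  Finset.filter_subset _ _

/-- Properties of the complement `D` of the up-closure of `W`. -/
theorem compl_down (n m : ℕ) (W : Finset (ℕ × ℕ)) (p q : ℕ × ℕ) (hp : p ∈ box n m \ up n m W)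
    (h1 : q.1 ≤ p.1) (h2 : q.2 ≤ p.2) : q ∈ box n m \ up n m W := by
  simp only [Finset.mem_sdiff, up, Finset.mem_filter, mem_box, not_and, not_exists] at hp ⊢
  obtain ⟨⟨hp1, hp2⟩, hp3⟩ := hp
  refine ⟨⟨by omega, by omega⟩, fun _ w hw hw1 hw2 => ?_⟩
  exact hp3 ⟨hp1, hp2⟩ w hw (by omega) (by omega)

theorem card_compl (n m : ℕ) (W : Finset (ℕ × ℕ)) :
    ((up n m W).card : ℝ) = ((n : ℝ) + 1) * ((m : ℝ) + 1) - ((box n m \ up n m W).card : ℝ) := by
  rw [Finset.card_sdiff_of_subset (up_subset n m W),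
    Nat.cast_sub (Finset.card_le_card (up_subset n m W)), card_box]
  ring

theorem inter_compl_subset (n m : ℕ) (A W : Finset (ℕ × ℕ)) :
    A ∩ (box n m \ up n m W) ⊆ (A ∩ box n m) \ W := by
  intro p hp
  simp only [Finset.mem_inter, Finset.mem_sdiff] at hp ⊢
  refine ⟨⟨hp.1, hp.2.1⟩, fun hW => hp.2.2 ?_⟩
  simp only [up, Finset.mem_filter]
  exact ⟨hp.2.1, p, hW, le_rfl, le_rfl⟩

/-- The lower bound at level `κ`. -/
theorem level_bound (hAREA : S_AREA) (n m : ℕ) (A W : Finset (ℕ × ℕ)) (α β c t x y : ℝ)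
    (hα : 0 < α) (ht : 0 < t) (hc : c * β = α / t) (hc0 : 0 < c)
    (hA : ∀ a ≤ n, ∀ b ≤ m, α * (((a : ℝ) + 1) * ((b : ℝ) + 1)) ≤ ((A ∩ box a b).card : ℝ))
    (hx : β * ((up n m W).card : ℝ) ≤ x)
    (hy : (((A ∩ box n m) \ W).card : ℝ) ≤ y) :
    ((n : ℝ) + 1) * ((m : ℝ) + 1) * α * ((1 - Real.exp (-t)) / t) ≤ c * x + y := by
  set V : ℝ := ((n : ℝ) + 1) * ((m : ℝ) + 1) with hV
  have hVpos : 0 < V := by positivity
  set D : Finset (ℕ × ℕ) := box n m \ up n m W with hD
  have hup : ((up n m W).card : ℝ) = V - (D.card : ℝ) := card_compl n m W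
  have h1 : α / t * (V - (D.card : ℝ)) ≤ c * x := by
    rw [← hc, ← hup]
    calc c * β * ((up n m W).card : ℝ) = c * (β * ((up n m W).card : ℝ)) := by ring
      _ ≤ c * x := mul_le_mul_of_nonneg_left hx hc0.le
  have h2 : ((A ∩ D).card : ℝ) ≤ y := by
    refine le_trans ?_ hy
    exact_mod_cast Finset.card_le_card (inter_compl_subset n m A W)
  have hexp : 0 < Real.exp (-t) := Real.exp_pos _
  have key : V * (1 - Real.exp (-t)) ≤ (V - (D.card : ℝ)) + t / α * ((A ∩ D).card : ℝ) := by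
    rcases D.eq_empty_or_nonempty with hDe | hDne
    · rw [hDe]
      simp only [Finset.card_empty, Nat.cast_zero, sub_zero, Finset.inter_empty, mul_zero,
        add_zero]
      nlinarith [mul_pos hVpos hexp]
    · obtain ⟨p0, hp0, hmax⟩ := Finset.exists_max_image D
        (fun p : ℕ × ℕ => ((p.1 : ℝ) + 1) * ((p.2 : ℝ) + 1)) hDne
      set ρ : ℝ := ((p0.1 : ℝ) + 1) * ((p0.2 : ℝ) + 1) with hρ
      have hρpos : 0 < ρ := by positivity
      have hp0box : p0.1 ≤ n ∧ p0.2 ≤ m := by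
        have := (Finset.mem_sdiff.mp hp0).1
        exact mem_box.mp this
      have hρV : ρ ≤ V := by
        have e1 : (p0.1 : ℝ) ≤ (n : ℝ) := by exact_mod_cast hp0box.1
        have e2 : (p0.2 : ℝ) ≤ (m : ℝ) := by exact_mod_cast hp0box.2
        rw [hρ, hV]
        apply mul_le_mul <;> first | linarith | positivity
      have harea := hAREA n m D ρ Finset.sdiff_subset hρpos hρV hmax
      have hAD : α * ρ ≤ ((A ∩ D).card : ℝ) := by
        refine le_trans (hA p0.1 hp0box.1 p0.2 hp0box.2) ?_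
        have hsub : A ∩ box p0.1 p0.2 ⊆ A ∩ D := by
          intro q hq
          rw [Finset.mem_inter] at hq ⊢
          refine ⟨hq.1, ?_⟩
          have hq2 := mem_box.mp hq.2
          exact compl_down n m W p0 q hp0 hq2.1 hq2.2
        exact_mod_cast Finset.card_le_card hsub
      have hlog : Real.log (V / ρ) - t ≤ V * Real.exp (-t) / ρ - 1 := by
        have h3 : 0 < V * Real.exp (-t) / ρ := by positivity
        have h4 := Real.log_le_sub_one_of_pos h3
        have h5 : Real.log (V * Real.exp (-t) / ρ) = Real.log (V / ρ) - t := by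
          have : V * Real.exp (-t) / ρ = V / ρ * Real.exp (-t) := by ring
          rw [this, Real.log_mul (by positivity) (by positivity), Real.log_exp]
          ring
        linarith
      have h6 : ρ * (1 + (Real.log (V / ρ) - t)) ≤ V * Real.exp (-t) := by
        calc ρ * (1 + (Real.log (V / ρ) - t)) ≤ ρ * (1 + (V * Real.exp (-t) / ρ - 1)) :=
              mul_le_mul_of_nonneg_left (by linarith) hρpos.le
          _ = V * Real.exp (-t) := by
              field_simp
              ring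
      have h7 : t * ρ ≤ t / α * ((A ∩ D).card : ℝ) := by
        calc t * ρ = t / α * (α * ρ) := by
              field_simp
          _ ≤ t / α * ((A ∩ D).card : ℝ) := mul_le_mul_of_nonneg_left hAD (by positivity)
      nlinarith [h6, h7, harea]
  calc V * α * ((1 - Real.exp (-t)) / t) = α / t * (V * (1 - Real.exp (-t))) := by
        field_simp
    _ ≤ α / t * ((V - (D.card : ℝ)) + t / α * ((A ∩ D).card : ℝ)) :=
        mul_le_mul_of_nonneg_left key (by positivity)
    _ = α / t * (V - (D.card : ℝ)) + ((A ∩ D).card : ℝ) := by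
        field_simp
    _ ≤ c * x + y := by linarith

theorem core (hCH : S_CH) (hSTC : S_STC) (hAREA : S_AREA) (hANA : S_ANA)
    (N M : ℕ) (A B : Finset (ℕ × ℕ)) (hB : ((0, 0) : ℕ × ℕ) ∈ B) (k : ℕ) (hk : 2 ≤ k)
    (hα : 0 < sig N M A) (hβ : 0 < sig N M (k • B)) :
    Real.Gamma (1 + 1 / (k : ℝ)) *
      (sig N M A ^ (1 - 1 / (k : ℝ)) * sig N M (k • B) ^ (1 / (k : ℝ))) ≤ sig N M (A + B) := by
  obtain ⟨n, m, hn, hm, hcard⟩ := exists_sig N M (A + B)
  obtain ⟨r, a, K, ha, hK, hsum, hlev⟩ := threshold_bound n m k (A ∩ box n m) B hB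
    Finset.inter_subset_right hCH (by omega)
  have hsumset : (A ∩ box n m + B) ∩ box n m = (A + B) ∩ box n m := by
    ext p
    simp only [Finset.mem_inter, Finset.mem_add, mem_box]
    constructor
    · rintro ⟨⟨x, hx, y, hy, rfl⟩, hp⟩
      exact ⟨⟨x, hx.1, y, hy, rfl⟩, hp⟩
    · rintro ⟨⟨x, hx, y, hy, rfl⟩, hp⟩
      refine ⟨⟨x, ⟨hx, ?_⟩, y, hy, rfl⟩, hp⟩
      simp only [Prod.fst_add, Prod.snd_add] at hp
      omega
  rw [hsumset, hcard] at hsum
  have hVpos : (0 : ℝ) < ((n : ℝ) + 1) * ((m : ℝ) + 1) := by positivity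
  have hana := hANA k r a K (sig N M A) (sig N M (k • B)) (((n : ℝ) + 1) * ((m : ℝ) + 1))
    hk hα hβ hVpos.le ha hK (by
      intro κ t hκ ht
      obtain ⟨W, hWA, hW⟩ := hlev κ hκ
      refine le_trans ?_ hW
      have htpos : 0 < t := by rw [ht]; positivity
      apply level_bound hAREA n m A W (sig N M A) (sig N M (k • B)) ((κ ^ k)⁻¹) t _ _ hα htpos
      · rw [ht]
        field_simp
      · positivity
      · intro a' ha' b' hb'
        exact sig_mul_le N M A a' b' (by omega) (by omega)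
      · exact hSTC N M (k • B) W (sig N M (k • B)) hβ.le
          (fun a' ha' b' hb' => sig_mul_le N M (k • B) a' b' ha' hb') n hn m hm
      · exact le_rfl)
  rw [hsum] at hana
  exact le_of_mul_le_mul_right hana hVpos

/-- The main theorem, from the four components. -/
theorem main_of (hCH : S_CH) (hSTC : S_STC) (hAREA : S_AREA) (hANA : S_ANA)
    (N M : ℕ) (A B : Finset (ℕ × ℕ)) (hB : ((0, 0) : ℕ × ℕ) ∈ B) (k k' : ℕ) (hk' : 0 < k')
    (hlt : k' < k) (hdvd : k' ∣ k) :
    Real.Gamma (1 + (k' : ℝ) / (k : ℝ)) *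
      (sig N M A ^ (1 - (k' : ℝ) / (k : ℝ)) * sig N M (k • B) ^ ((k' : ℝ) / (k : ℝ)))
      ≤ sig N M (A + k' • B) := by
  obtain ⟨q, rfl⟩ := hdvd
  have hq : 2 ≤ q := by
    by_contra h
    have : q = 0 ∨ q = 1 := by omega
    rcases this with rfl | rfl <;> omega
  have hkq : ((k' : ℝ) / ((k' * q : ℕ) : ℝ)) = 1 / (q : ℝ) := by
    have h1 : (k' : ℝ) ≠ 0 := by positivity
    have h2 : (q : ℝ) ≠ 0 := by positivity
    push_cast
    field_simp
  rw [hkq]
  have hsmul : (k' * q) • B = q • (k' • B) := by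
    rw [smul_smul, mul_comm]
  rw [hsmul]
  have hB' : ((0, 0) : ℕ × ℕ) ∈ k' • B := by
    have h0 : (0 : ℕ × ℕ) ∈ B := hB
    have : ∀ i : ℕ, (0 : ℕ × ℕ) ∈ i • B := by
      intro i
      induction i with
      | zero => simp
      | succ i ih =>
        rw [succ_nsmul]
        have := Finset.add_mem_add ih h0
        simpa using this
    exact this k'
  have hq1 : 1 / (q : ℝ) < 1 := by
    rw [div_lt_one (by positivity)]
    exact_mod_cast (by omega : 1 < q)
  have hq0 : 0 < 1 / (q : ℝ) := by positivity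
  rcases (sig_nonneg N M A).eq_or_lt with hA | hA
  · rw [← hA, Real.zero_rpow (by linarith), zero_mul, mul_zero]
    exact sig_nonneg _ _ _
  rcases (sig_nonneg N M (q • (k' • B))).eq_or_lt with hb | hb
  · rw [← hb, Real.zero_rpow (by linarith), mul_zero, mul_zero]
    exact sig_nonneg _ _ _
  exact core hCH hSTC hAREA hANA N M A (k' • B) hB' q hq hA hb

end Pool.Agent.Y402.PL
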