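import Pool.Agent.Y402.PL.Final2
import Pool.Agent.Y748.PL.PUSH
import Pool.Agent.Y454.PL.MIN
import Pool.Agent.Y248.PL.CH2

set_option autoImplicit false

namespace Pool.Agent.Y402.PL

open Pointwise

theorem hPLU : S_PLU := Pool.Agent.Y454.PL.mainMIN Pool.Agent.Y748.PL.mainPUSH

theorem hCH2 : S_CH2 := Pool.Agent.Y248.PL.mainCH2 hPLU

end Pool.Agent.Y402.PL
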