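import Pool.Agent.Y402.PL.Stm3
import Pool.Agent.Y402.PL.Final3

set_option autoImplicit false

namespace Pool.Agent.Y402.PL

open Pointwise Filter

/-- The threshold bound (with nonnegative masses) for general `k' < k`. -/
theorem threshold_bound3 (n m k k' : ℕ) (A B : Finset (ℕ × ℕ)) (hB : ((0, 0) : ℕ × ℕ) ∈ B)
    (hA : A ⊆ box n m) (hCH : S_CH2) (hk' : 0 < k') (hk : k' < k) :
    ∃ (r : ℕ) (a K : ℕ → ℝ), (∀ j < r, 0 ≤ K j) ∧ (∀ j < r, 0 ≤ a j) ∧
      ∑ j ∈ Finset.range r, K j * a j ≤ (((A + k' • B) ∩ box n m).card : ℝ) ∧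
      ∀ κ : ℝ, 0 < κ → ∃ W : Finset (ℕ × ℕ), W ⊆ A ∧
        (κ ^ ((k : ℝ) / (k' : ℝ)))⁻¹ * (((W + k • B) ∩ box n m).card : ℝ) + ((A \ W).card : ℝ)
          ≤ ∑ j ∈ Finset.range r, a j * min ((K j / κ) ^ ((k : ℝ) / (k' : ℝ))) 1 := by
  obtain ⟨r, V, K, hV0, hVr, hVmono, hKmono, hK0, hstep⟩ := hCH n m k k' A B hk' hk hB hA
  have hVm : Monotone V := monotone_nat_of_le_succ hVmono
  set p : ℝ := (k : ℝ) / (k' : ℝ) with hp
  have hp0 : 0 ≤ p := by positivity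
  refine ⟨r, fun j => ((V (j + 1)).card : ℝ) - ((V j).card : ℝ), K, fun j _ => hK0 j, ?_, ?_, ?_⟩
  · intro j _
    have h2 : ((V j).card : ℝ) ≤ ((V (j + 1)).card : ℝ) := by
      exact_mod_cast Finset.card_le_card (hVmono j)
    simp only
    linarith
  · have htel : ∀ s, s ≤ r → ∑ j ∈ Finset.range s,
        K j * (((V (j + 1)).card : ℝ) - ((V j).card : ℝ))
          ≤ (((V s + k' • B) ∩ box n m).card : ℝ) := by
      intro s
      induction s with
      | zero => intro _; simp [hV0]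
      | succ s ih =>
        intro hs
        rw [Finset.sum_range_succ]
        have h1 := ih (by omega)
        have h2 := (hstep s (by omega)).1
        linarith
    simpa [hVr] using htel r le_rfl
  · intro κ hκ
    obtain ⟨j0, hj0, hlow, hhigh⟩ := exists_threshold K hKmono κ r
    refine ⟨V j0, hVr ▸ hVm hj0, ?_⟩
    have hsplit : ∑ j ∈ Finset.range r,
        (((V (j + 1)).card : ℝ) - ((V j).card : ℝ)) * min ((K j / κ) ^ p) 1
        = ∑ j ∈ Finset.range j0,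
            (((V (j + 1)).card : ℝ) - ((V j).card : ℝ)) * min ((K j / κ) ^ p) 1
          + ∑ j ∈ Finset.Ico j0 r,
            (((V (j + 1)).card : ℝ) - ((V j).card : ℝ)) * min ((K j / κ) ^ p) 1 := by
      rw [Finset.sum_range_add_sum_Ico _ hj0]
    have h1 : ∀ s, s ≤ j0 → (κ ^ p)⁻¹ * (((V s + k • B) ∩ box n m).card : ℝ) ≤
        ∑ j ∈ Finset.range s,
            (((V (j + 1)).card : ℝ) - ((V j).card : ℝ)) * min ((K j / κ) ^ p) 1 := by
      intro s
      induction s with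
      | zero => intro _; simp [hV0]
      | succ s ih =>
        intro hs
        rw [Finset.sum_range_succ]
        have h2 := (hstep s (by omega)).2
        have h3 := ih (by omega)
        have h4 : min ((K s / κ) ^ p) 1 = (κ ^ p)⁻¹ * K s ^ p := by
          have h5 : (K s / κ) ^ p ≤ 1 := by
            apply Real.rpow_le_one
            · exact div_nonneg (hK0 s) hκ.le
            · rw [div_le_one hκ]
              exact hlow s (by omega)
            · exact hp0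
          rw [min_eq_left h5, Real.div_rpow (hK0 s) hκ.le]
          field_simp
        rw [h4]
        have h6 : (0 : ℝ) < (κ ^ p)⁻¹ := by positivity
        calc (κ ^ p)⁻¹ * (((V (s + 1) + k • B) ∩ box n m).card : ℝ)
            ≤ (κ ^ p)⁻¹ * ((((V s + k • B) ∩ box n m).card : ℝ)
              + K s ^ p * (((V (s + 1)).card : ℝ) - ((V s).card : ℝ))) :=
              mul_le_mul_of_nonneg_left h2 h6.le
          _ = (κ ^ p)⁻¹ * (((V s + k • B) ∩ box n m).card : ℝ)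
              + (((V (s + 1)).card : ℝ) - ((V s).card : ℝ)) * ((κ ^ p)⁻¹ * K s ^ p) := by ring
          _ ≤ _ := by linarith
    have h2 : ∑ j ∈ Finset.Ico j0 r,
            (((V (j + 1)).card : ℝ) - ((V j).card : ℝ)) * min ((K j / κ) ^ p) 1
        = ((A \ V j0).card : ℝ) := by
      have h3 : ∑ j ∈ Finset.Ico j0 r,
            (((V (j + 1)).card : ℝ) - ((V j).card : ℝ)) * min ((K j / κ) ^ p) 1
          = ∑ j ∈ Finset.Ico j0 r, (((V (j + 1)).card : ℝ) - ((V j).card : ℝ)) := by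
        apply Finset.sum_congr rfl
        intro j hj
        rw [Finset.mem_Ico] at hj
        have h4 : 1 ≤ (K j / κ) ^ p := by
          apply Real.one_le_rpow _ hp0
          rw [one_le_div hκ]
          exact (hhigh j hj.1 hj.2).le
        rw [min_eq_right h4, mul_one]
      rw [h3, Finset.sum_Ico_eq_sub _ hj0, Finset.sum_range_sub (fun j => ((V j).card : ℝ)),
        Finset.sum_range_sub (fun j => ((V j).card : ℝ))]
      have h5 : V j0 ⊆ A := hVr ▸ hVm hj0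
      rw [Finset.card_sdiff_of_subset h5, Nat.cast_sub (Finset.card_le_card h5), hVr]
      ring
    rw [hsplit, h2]
    have := h1 j0 le_rfl
    linarith

/-- The level bound with an error term. -/
theorem level_bound_err (hAREA : S_AREA) (n m N0 : ℕ) (A W : Finset (ℕ × ℕ))
    (α β c t x y : ℝ) (hN0 : 1 ≤ N0)
    (hα : 0 < α) (ht : 0 < t) (hc : c * β = α / t) (hc0 : 0 < c)
    (hEV : (N0 : ℝ) * (((n : ℝ) + 1) + ((m : ℝ) + 1)) ≤ ((n : ℝ) + 1) * ((m : ℝ) + 1))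
    (hA : ∀ a b : ℕ, N0 ≤ a → a ≤ n → N0 ≤ b → b ≤ m →
      α * (((a : ℝ) + 1) * ((b : ℝ) + 1)) ≤ ((A ∩ box a b).card : ℝ))
    (hx : β * ((up n m W).card : ℝ) ≤ x + β * ((N0 : ℝ) * (((n : ℝ) + 1) + ((m : ℝ) + 1))))
    (hy : (((A ∩ box n m) \ W).card : ℝ) ≤ y) :
    ((n : ℝ) + 1) * ((m : ℝ) + 1) * α * ((1 - Real.exp (-t)) / t)
      - α * ((N0 : ℝ) * (((n : ℝ) + 1) + ((m : ℝ) + 1))) * (1 + 1 / t) ≤ c * x + y := by
  set V : ℝ := ((n : ℝ) + 1) * ((m : ℝ) + 1) with hV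
  set E : ℝ := (N0 : ℝ) * (((n : ℝ) + 1) + ((m : ℝ) + 1)) with hE
  have hN0r : (1 : ℝ) ≤ (N0 : ℝ) := by exact_mod_cast hN0
  have hEpos : 0 < E := by positivity
  have hVpos : 0 < V := by positivity
  set D : Finset (ℕ × ℕ) := box n m \ up n m W with hD
  have hup : ((up n m W).card : ℝ) = V - (D.card : ℝ) := card_compl n m W
  have h1 : α / t * (V - (D.card : ℝ) - E) ≤ c * x := by
    rw [← hc, ← hup]
    calc c * β * (((up n m W).card : ℝ) - E) = c * (β * ((up n m W).card : ℝ) - β * E) := by ring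
      _ ≤ c * x := mul_le_mul_of_nonneg_left (by linarith) hc0.le
  have h2 : ((A ∩ D).card : ℝ) ≤ y := by
    refine le_trans ?_ hy
    exact_mod_cast Finset.card_le_card (inter_compl_subset n m A W)
  have hexp : 0 < Real.exp (-t) := Real.exp_pos _
  have key : ∃ ρ0 : ℝ, 0 ≤ ρ0 ∧ ρ0 ≤ V ∧ α * ρ0 ≤ ((A ∩ D).card : ℝ) ∧
      ∀ p ∈ D, ((p.1 : ℝ) + 1) * ((p.2 : ℝ) + 1) ≤ max ρ0 E := by
    have hthin : ∀ p ∈ D, ¬ (N0 ≤ p.1 ∧ N0 ≤ p.2) →
        ((p.1 : ℝ) + 1) * ((p.2 : ℝ) + 1) ≤ E := by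
      intro p hp hnot
      have hpb : p.1 ≤ n ∧ p.2 ≤ m := mem_box.mp (Finset.mem_sdiff.mp hp).1
      have e1 : (p.1 : ℝ) + 1 ≤ (n : ℝ) + 1 := by
        have : (p.1 : ℝ) ≤ n := by exact_mod_cast hpb.1
        linarith
      have e2 : (p.2 : ℝ) + 1 ≤ (m : ℝ) + 1 := by
        have : (p.2 : ℝ) ≤ m := by exact_mod_cast hpb.2
        linarith
      have hor : p.1 + 1 ≤ N0 ∨ p.2 + 1 ≤ N0 := by omega
      rcases hor with h | h
      · have e3 : (p.1 : ℝ) + 1 ≤ N0 := by exact_mod_cast h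
        calc ((p.1 : ℝ) + 1) * ((p.2 : ℝ) + 1) ≤ N0 * ((m : ℝ) + 1) := by
              apply mul_le_mul e3 e2 (by positivity) (by positivity)
          _ ≤ E := by rw [hE]; nlinarith [show (0 : ℝ) ≤ (N0 : ℝ) * ((n : ℝ) + 1) by positivity]
      · have e3 : (p.2 : ℝ) + 1 ≤ N0 := by exact_mod_cast h
        calc ((p.1 : ℝ) + 1) * ((p.2 : ℝ) + 1) ≤ ((n : ℝ) + 1) * N0 := by
              apply mul_le_mul e1 e3 (by positivity) (by positivity)
          _ ≤ E := by rw [hE]; nlinarith [show (0 : ℝ) ≤ (N0 : ℝ) * ((m : ℝ) + 1) by positivity]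
    rcases (D.filter (fun p => N0 ≤ p.1 ∧ N0 ≤ p.2)).eq_empty_or_nonempty with hDe | hDne
    · refine ⟨0, le_rfl, hVpos.le, by simp, ?_⟩
      intro p hp
      refine le_trans (hthin p hp ?_) (le_max_right _ _)
      intro hpp
      have : p ∈ D.filter (fun p => N0 ≤ p.1 ∧ N0 ≤ p.2) := Finset.mem_filter.mpr ⟨hp, hpp⟩
      rw [hDe] at this
      exact Finset.notMem_empty _ this
    · obtain ⟨p0, hp0, hmax⟩ := Finset.exists_max_image _
        (fun p : ℕ × ℕ => ((p.1 : ℝ) + 1) * ((p.2 : ℝ) + 1)) hDne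
      rw [Finset.mem_filter] at hp0
      have hp0box : p0.1 ≤ n ∧ p0.2 ≤ m := mem_box.mp (Finset.mem_sdiff.mp hp0.1).1
      refine ⟨((p0.1 : ℝ) + 1) * ((p0.2 : ℝ) + 1), by positivity, ?_, ?_, ?_⟩
      · have e1 : (p0.1 : ℝ) ≤ (n : ℝ) := by exact_mod_cast hp0box.1
        have e2 : (p0.2 : ℝ) ≤ (m : ℝ) := by exact_mod_cast hp0box.2
        rw [hV]
        exact mul_le_mul (by linarith) (by linarith) (by positivity) (by positivity)
      · refine le_trans (hA p0.1 p0.2 hp0.2.1 hp0box.1 hp0.2.2 hp0box.2) ?_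
        have hsub : A ∩ box p0.1 p0.2 ⊆ A ∩ D := by
          intro q hq
          rw [Finset.mem_inter] at hq ⊢
          refine ⟨hq.1, ?_⟩
          have hq2 := mem_box.mp hq.2
          exact compl_down n m W p0 q hp0.1 hq2.1 hq2.2
        exact_mod_cast Finset.card_le_card hsub
      · intro p hp
        by_cases hpp : N0 ≤ p.1 ∧ N0 ≤ p.2
        · exact le_trans (hmax p (Finset.mem_filter.mpr ⟨hp, hpp⟩)) (le_max_left _ _)
        · exact le_trans (hthin p hp hpp) (le_max_right _ _)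
  obtain ⟨ρ0, hρ00, hρ0V, hρ0A, hρ0D⟩ := key
  set ρ : ℝ := max ρ0 E with hρ
  have hρpos : 0 < ρ := lt_of_lt_of_le hEpos (le_max_right _ _)
  have hρV : ρ ≤ V := max_le hρ0V hEV
  have hρle : ρ ≤ ρ0 + E := max_le (by linarith) (by linarith)
  have harea := hAREA n m D ρ Finset.sdiff_subset hρpos hρV hρ0D
  have hlog : Real.log (V / ρ) - t ≤ V * Real.exp (-t) / ρ - 1 := by
    have h3 : 0 < V * Real.exp (-t) / ρ := by positivity
    have h4 := Real.log_le_sub_one_of_pos h3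
    have h5 : Real.log (V * Real.exp (-t) / ρ) = Real.log (V / ρ) - t := by
      have : V * Real.exp (-t) / ρ = V / ρ * Real.exp (-t) := by ring
      rw [this, Real.log_mul (by positivity) (by positivity), Real.log_exp]
      ring
    linarith
  have h6 : ρ * (1 + (Real.log (V / ρ) - t)) ≤ V * Real.exp (-t) := by
    calc ρ * (1 + (Real.log (V / ρ) - t)) ≤ ρ * (1 + (V * Real.exp (-t) / ρ - 1)) :=
          mul_le_mul_of_nonneg_left (by linarith) hρpos.le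
      _ = V * Real.exp (-t) := by
          field_simp
          ring
  have key2 : V * (1 - Real.exp (-t)) ≤ (V - (D.card : ℝ)) + t * ρ := by
    nlinarith [h6, harea]
  have h7 : α * ρ ≤ ((A ∩ D).card : ℝ) + α * E := by nlinarith
  have h8 : V * α * ((1 - Real.exp (-t)) / t) ≤ α / t * (V - (D.card : ℝ)) + α * ρ := by
    calc V * α * ((1 - Real.exp (-t)) / t) = α / t * (V * (1 - Real.exp (-t))) := by
          field_simp
      _ ≤ α / t * ((V - (D.card : ℝ)) + t * ρ) :=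
          mul_le_mul_of_nonneg_left key2 (by positivity)
      _ = α / t * (V - (D.card : ℝ)) + α * ρ := by
          field_simp
  have h9 : α * E * (1 + 1 / t) = α * E + α / t * E := by
    field_simp
  rw [h9]
  have h10 : α / t * (V - (D.card : ℝ) - E) = α / t * (V - (D.card : ℝ)) - α / t * E := by ring
  linarith

/-- The finite statement. -/
theorem fin_main (hCH : S_CH2) (hSTC : S_STC2) (hAREA : S_AREA) (hANA : S_ANA3)
    (k k' : ℕ) (hk' : 0 < k') (hk : k' < k) (α β c : ℝ) (hα : 0 < α) (hβ : 0 < β)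
    (hc : c < Real.Gamma (1 + (k' : ℝ) / (k : ℝ)) *
      (α ^ (1 - (k' : ℝ) / (k : ℝ)) * β ^ ((k' : ℝ) / (k : ℝ)))) :
    ∃ η : ℝ, 0 < η ∧ ∀ (N0 n m : ℕ) (A B : Finset (ℕ × ℕ)), 1 ≤ N0 →
      ((0, 0) : ℕ × ℕ) ∈ B →
      (N0 : ℝ) * (((n : ℝ) + 1) + ((m : ℝ) + 1)) ≤ ((n : ℝ) + 1) * ((m : ℝ) + 1) →
      (N0 : ℝ) * (((n : ℝ) + 1) + ((m : ℝ) + 1)) ≤ η * (((n : ℝ) + 1) * ((m : ℝ) + 1)) →
      (∀ a b : ℕ, N0 ≤ a → a ≤ n → N0 ≤ b → b ≤ m →
        α * (((a : ℝ) + 1) * ((b : ℝ) + 1)) ≤ ((A ∩ box a b).card : ℝ)) →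
      (∀ a b : ℕ, N0 ≤ a → a ≤ n → N0 ≤ b → b ≤ m →
        β * (((a : ℝ) + 1) * ((b : ℝ) + 1)) ≤ ((k • B ∩ box a b).card : ℝ)) →
      c * (((n : ℝ) + 1) * ((m : ℝ) + 1)) ≤ (((A + k' • B) ∩ box n m).card : ℝ) := by
  have hkr : (0 : ℝ) < (k : ℝ) := by exact_mod_cast (by omega : 0 < k)
  have hkr' : (0 : ℝ) < (k' : ℝ) := by exact_mod_cast hk'
  have hlt : (k' : ℝ) < (k : ℝ) := by exact_mod_cast hk
  have hp1 : 1 < (k : ℝ) / (k' : ℝ) := by rw [one_lt_div hkr']; exact hlt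
  have hθ : (k' : ℝ) / (k : ℝ) = 1 / ((k : ℝ) / (k' : ℝ)) := by rw [one_div_div]
  rw [hθ] at hc
  obtain ⟨η, hη, hmain⟩ := hANA ((k : ℝ) / (k' : ℝ)) α β c hp1 hα hβ hc
  refine ⟨η, hη, ?_⟩
  intro N0 n m A B hN0 hB hEV hEη hA hkB
  set p : ℝ := (k : ℝ) / (k' : ℝ) with hp
  obtain ⟨r, a, K, hK, ha, hsum, hlev⟩ : ∃ (r : ℕ) (a K : ℕ → ℝ), (∀ j < r, 0 ≤ K j) ∧
      (∀ j < r, 0 ≤ a j) ∧
      ∑ j ∈ Finset.range r, K j * a j ≤ (((A ∩ box n m + k' • B) ∩ box n m).card : ℝ) ∧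
      ∀ κ : ℝ, 0 < κ → ∃ W : Finset (ℕ × ℕ), W ⊆ A ∩ box n m ∧
        (κ ^ p)⁻¹ * (((W + k • B) ∩ box n m).card : ℝ) + (((A ∩ box n m) \ W).card : ℝ)
          ≤ ∑ j ∈ Finset.range r, a j * min ((K j / κ) ^ p) 1 := by
    obtain ⟨r1, a1, K1, hK1, ha1, hsum1, hlev1⟩ := threshold_bound3 n m k k' (A ∩ box n m) B hB
      Finset.inter_subset_right hCH hk' hk
    exact ⟨r1, a1, K1, hK1, ha1, hsum1, hlev1⟩
  rw [sumset_box] at hsum
  refine le_trans ?_ hsum
  apply hmain r a K (((n : ℝ) + 1) * ((m : ℝ) + 1))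
    ((N0 : ℝ) * (((n : ℝ) + 1) + ((m : ℝ) + 1))) (by positivity) (by positivity) hEη ha hK
  intro κ t hκ ht
  obtain ⟨W, hWA, hW⟩ := hlev κ hκ
  refine le_trans ?_ hW
  have htpos : 0 < t := by rw [ht]; positivity
  apply level_bound_err hAREA n m N0 A W α β ((κ ^ p)⁻¹) t _ _ hN0 hα htpos
  · rw [ht]
    field_simp
  · positivity
  · exact hEV
  · exact hA
  · exact hSTC N0 n m (k • B) W β hβ.le hkB
  · exact le_rfl

end Pool.Agent.Y402.PL
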