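import Pool.Agent.Y402.PL.Dens

set_option autoImplicit false

namespace Pool.Agent.Y402.PL

open Pointwise Filter

/-- The proportion of `C` in the rectangle `[0,W] × [0,H]`. -/
noncomputable def ratio (C : Set (ℕ × ℕ)) (W H : ℕ) : ℝ :=
  ((C ∩ {p : ℕ × ℕ | p.1 ≤ W ∧ p.2 ≤ H}).ncard : ℝ) / (((W : ℝ) + 1) * ((H : ℝ) + 1))

/-- The lower rectangular density: the infimum over all sequences `W j → ∞`, `H j → ∞` of the
lower limits of the proportions. -/
noncomputable def dRect (C : Set (ℕ × ℕ)) : ℝ :=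
  sInf {x : ℝ | ∃ W H : ℕ → ℕ, Tendsto W atTop atTop ∧ Tendsto H atTop atTop ∧
    x = liminf (fun j : ℕ => ratio C (W j) (H j)) atTop}

/-- The `k`-fold sumset `kB` (`0B = {(0,0)}`). -/
def kfold (B : Set (ℕ × ℕ)) : ℕ → Set (ℕ × ℕ)
  | 0 => {(0, 0)}
  | k + 1 => kfold B k + B

open Classical in
/-- truncation to a box -/
noncomputable def tr (C : Set (ℕ × ℕ)) (n m : ℕ) : Finset (ℕ × ℕ) :=
  (box n m).filter (fun p => p ∈ C)

theorem mem_tr {C : Set (ℕ × ℕ)} {n m : ℕ} {p : ℕ × ℕ} :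
    p ∈ tr C n m ↔ (p.1 ≤ n ∧ p.2 ≤ m) ∧ p ∈ C := by
  classical
  unfold tr
  rw [Finset.mem_filter, mem_box]

theorem ncard_eq (C : Set (ℕ × ℕ)) (n m : ℕ) :
    (C ∩ {p : ℕ × ℕ | p.1 ≤ n ∧ p.2 ≤ m}).ncard = (tr C n m).card := by
  rw [← Set.ncard_coe_finset]
  congr 1
  ext p
  simp only [Set.mem_inter_iff, Finset.mem_coe, mem_tr]
  constructor
  · rintro ⟨h1, h2⟩
    exact ⟨h2, h1⟩
  · rintro ⟨h2, h1⟩
    exact ⟨h1, h2⟩

theorem ratio_nonneg (C : Set (ℕ × ℕ)) (W H : ℕ) : 0 ≤ ratio C W H := by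
  unfold ratio
  positivity

theorem ratio_le_one (C : Set (ℕ × ℕ)) (W H : ℕ) : ratio C W H ≤ 1 := by
  classical
  unfold ratio
  rw [ncard_eq, div_le_one (by positivity), ← card_box]
  unfold tr
  exact_mod_cast Finset.card_filter_le _ _

theorem ratio_bdd_below (C : Set (ℕ × ℕ)) (W H : ℕ → ℕ) :
    IsBoundedUnder (· ≥ ·) atTop (fun j : ℕ => ratio C (W j) (H j)) :=
  isBoundedUnder_of ⟨0, fun j => ratio_nonneg C (W j) (H j)⟩

theorem ratio_cobdd (C : Set (ℕ × ℕ)) (W H : ℕ → ℕ) :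
    IsCoboundedUnder (· ≥ ·) atTop (fun j : ℕ => ratio C (W j) (H j)) := by
  have h : IsBoundedUnder (· ≤ ·) atTop (fun j : ℕ => ratio C (W j) (H j)) :=
    isBoundedUnder_of ⟨1, fun j => ratio_le_one C (W j) (H j)⟩
  exact h.isCoboundedUnder_ge

theorem dRect_bdd (C : Set (ℕ × ℕ)) :
    BddBelow {x : ℝ | ∃ W H : ℕ → ℕ, Tendsto W atTop atTop ∧ Tendsto H atTop atTop ∧
      x = liminf (fun j : ℕ => ratio C (W j) (H j)) atTop} := by
  refine ⟨0, ?_⟩
  rintro x ⟨W, H, _, _, rfl⟩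
  exact le_liminf_of_le (ratio_cobdd C W H)
    (Eventually.of_forall (fun j => ratio_nonneg C (W j) (H j)))

theorem dRect_nonempty (C : Set (ℕ × ℕ)) :
    {x : ℝ | ∃ W H : ℕ → ℕ, Tendsto W atTop atTop ∧ Tendsto H atTop atTop ∧
      x = liminf (fun j : ℕ => ratio C (W j) (H j)) atTop}.Nonempty :=
  ⟨_, fun j => j, fun j => j, tendsto_id, tendsto_id, rfl⟩

theorem dRect_nonneg (C : Set (ℕ × ℕ)) : 0 ≤ dRect C := by
  apply le_csInf (dRect_nonempty C)
  rintro x ⟨W, H, _, _, rfl⟩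
  exact le_liminf_of_le (ratio_cobdd C W H)
    (Eventually.of_forall (fun j => ratio_nonneg C (W j) (H j)))

theorem le_dRect (C : Set (ℕ × ℕ)) (c : ℝ) (N : ℕ)
    (h : ∀ W H : ℕ, N ≤ W → N ≤ H → c ≤ ratio C W H) : c ≤ dRect C := by
  apply le_csInf (dRect_nonempty C)
  rintro x ⟨W, H, hW, hH, rfl⟩
  apply le_liminf_of_le (ratio_cobdd C W H)
  filter_upwards [hW.eventually_ge_atTop N, hH.eventually_ge_atTop N] with j h1 h2
  exact h _ _ h1 h2

theorem of_lt_dRect (C : Set (ℕ × ℕ)) (x : ℝ) (hx : x < dRect C) :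
    ∃ N : ℕ, ∀ W H : ℕ, N ≤ W → N ≤ H → x ≤ ratio C W H := by
  by_contra hcon
  push Not at hcon
  choose W H hW hH hlt using hcon
  have hWt : Tendsto W atTop atTop := tendsto_atTop_mono hW tendsto_id
  have hHt : Tendsto H atTop atTop := tendsto_atTop_mono hH tendsto_id
  have h1 : dRect C ≤ liminf (fun j : ℕ => ratio C (W j) (H j)) atTop :=
    csInf_le (dRect_bdd C) ⟨W, H, hWt, hHt, rfl⟩
  have h2 : liminf (fun j : ℕ => ratio C (W j) (H j)) atTop ≤ x := by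
    apply liminf_le_of_frequently_le _ (ratio_bdd_below C W H)
    exact (Eventually.of_forall (fun j => (hlt j).le)).frequently
  linarith

theorem kfold_down (B : Set (ℕ × ℕ)) (n m k : ℕ) (x : ℕ × ℕ) (hx : x ∈ kfold B k)
    (h1 : x.1 ≤ n) (h2 : x.2 ≤ m) : x ∈ k • tr B n m := by
  induction k generalizing x with
  | zero =>
    have : x = (0, 0) := hx
    subst this
    rw [zero_nsmul]
    exact Finset.mem_zero.mpr rfl
  | succ k ih =>
    obtain ⟨y, hy, b, hb, rfl⟩ := Set.mem_add.mp (show x ∈ kfold B k + B from hx)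
    simp only [Prod.fst_add, Prod.snd_add] at h1 h2
    rw [succ_nsmul]
    apply Finset.add_mem_add
    · exact ih y hy (by omega) (by omega)
    · rw [mem_tr]
      exact ⟨⟨by omega, by omega⟩, hb⟩

theorem kfold_up (B : Set (ℕ × ℕ)) (n m k : ℕ) (x : ℕ × ℕ) (hx : x ∈ k • tr B n m) :
    x ∈ kfold B k := by
  induction k generalizing x with
  | zero =>
    rw [zero_nsmul] at hx
    have : x = 0 := Finset.mem_zero.mp hx
    rw [this]
    rfl
  | succ k ih =>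
    rw [succ_nsmul] at hx
    obtain ⟨y, hy, b, hb, rfl⟩ := Finset.mem_add.mp hx
    exact Set.add_mem_add (ih y hy) (mem_tr.mp hb).2

theorem tr_kfold (B : Set (ℕ × ℕ)) (n m k a b : ℕ) (ha : a ≤ n) (hb : b ≤ m) :
    (k • tr B n m) ∩ box a b = tr (kfold B k) a b := by
  ext x
  rw [Finset.mem_inter, mem_box, mem_tr]
  constructor
  · rintro ⟨h1, h2⟩
    exact ⟨h2, kfold_up B n m k x h1⟩
  · rintro ⟨h2, h1⟩
    exact ⟨kfold_down B n m k x h1 (by omega) (by omega), h2⟩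

theorem tr_self (A : Set (ℕ × ℕ)) (n m a b : ℕ) (ha : a ≤ n) (hb : b ≤ m) :
    (tr A n m) ∩ box a b = tr A a b := by
  ext x
  rw [Finset.mem_inter, mem_box, mem_tr, mem_tr]
  constructor
  · rintro ⟨⟨_, h1⟩, h2⟩
    exact ⟨h2, h1⟩
  · rintro ⟨h2, h1⟩
    exact ⟨⟨⟨by omega, by omega⟩, h1⟩, h2⟩

theorem tr_sum (A B : Set (ℕ × ℕ)) (n m k : ℕ) :
    (tr A n m + k • tr B n m) ∩ box n m = tr (A + kfold B k) n m := by
  ext x
  rw [Finset.mem_inter, mem_box, mem_tr]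
  constructor
  · rintro ⟨h1, h2⟩
    obtain ⟨y, hy, z, hz, rfl⟩ := Finset.mem_add.mp h1
    exact ⟨h2, Set.add_mem_add (mem_tr.mp hy).2 (kfold_up B n m k z hz)⟩
  · rintro ⟨h2, h1⟩
    obtain ⟨y, hy, z, hz, rfl⟩ := Set.mem_add.mp h1
    simp only [Prod.fst_add, Prod.snd_add] at h2
    refine ⟨Finset.add_mem_add ?_ ?_, by simpa using h2⟩
    · rw [mem_tr]
      exact ⟨⟨by omega, by omega⟩, hy⟩
    · exact kfold_down B n m k z hz (by omega) (by omega)

theorem ratio_mul (C : Set (ℕ × ℕ)) (W H : ℕ) (x : ℝ) :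
    x ≤ ratio C W H ↔ x * (((W : ℝ) + 1) * ((H : ℝ) + 1)) ≤ ((tr C W H).card : ℝ) := by
  unfold ratio
  rw [ncard_eq, le_div_iff₀ (by positivity)]

/-- The main theorem for the lower rectangular density. -/
theorem dens_main (hCH : S_CH2) (hSTC : S_STC2) (hAREA : S_AREA) (hANA : S_ANA3)
    (A B : Set (ℕ × ℕ)) (hB : ((0, 0) : ℕ × ℕ) ∈ B) (k k' : ℕ) (hk' : 0 < k') (hk : k' < k) :
    Real.Gamma (1 + (k' : ℝ) / (k : ℝ)) *
      (dRect A ^ (1 - (k' : ℝ) / (k : ℝ)) * dRect (kfold B k) ^ ((k' : ℝ) / (k : ℝ)))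
      ≤ dRect (A + kfold B k') := by
  have hkr : (0 : ℝ) < (k : ℝ) := by exact_mod_cast (by omega : 0 < k)
  have hkr' : (0 : ℝ) < (k' : ℝ) := by exact_mod_cast hk'
  have hlt : (k' : ℝ) < (k : ℝ) := by exact_mod_cast hk
  have hq1 : (k' : ℝ) / (k : ℝ) < 1 := by rw [div_lt_one hkr]; exact hlt
  have hq0 : 0 < (k' : ℝ) / (k : ℝ) := by positivity
  rcases (dRect_nonneg A).eq_or_lt with hA | hA
  · rw [← hA, Real.zero_rpow (by linarith), zero_mul, mul_zero]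
    exact dRect_nonneg _
  rcases (dRect_nonneg (kfold B k)).eq_or_lt with hb | hb
  · rw [← hb, Real.zero_rpow (by linarith), mul_zero, mul_zero]
    exact dRect_nonneg _
  set θ : ℝ := (k' : ℝ) / (k : ℝ) with hθ
  set α : ℝ := dRect A with hα
  set β : ℝ := dRect (kfold B k) with hβ
  set P : ℝ := Real.Gamma (1 + θ) * (α ^ (1 - θ) * β ^ θ) with hP
  have hGam : 0 < Real.Gamma (1 + θ) := Real.Gamma_pos_of_pos (by linarith)
  have hPpos : 0 < P := by positivity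
  apply le_of_forall_lt
  intro c0 hc0
  -- choose c with c0 < c < P
  obtain ⟨c, hc1, hc2⟩ := exists_between (max_lt hc0 hPpos)
  have hcpos : 0 < c := lt_of_le_of_lt (le_max_right _ _) hc1
  have hc0c : c0 < c := lt_of_le_of_lt (le_max_left _ _) hc1
  refine lt_of_lt_of_le hc0c ?_
  -- choose s
  obtain ⟨s, hs1, hs2⟩ := exists_between (show c / P < 1 by rw [div_lt_one hPpos]; exact hc2)
  have hspos : 0 < s := lt_trans (by positivity) hs1
  have hcs : c < s * P := by rwa [div_lt_iff₀ hPpos] at hs1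
  have hsP : s * P = Real.Gamma (1 + θ) * ((s * α) ^ (1 - θ) * (s * β) ^ θ) := by
    rw [Real.mul_rpow hspos.le hA.le, Real.mul_rpow hspos.le hb.le]
    have h1 : s ^ (1 - θ) * s ^ θ = s := by
      rw [← Real.rpow_add hspos]
      simp
    calc s * P = (s ^ (1 - θ) * s ^ θ) * P := by rw [h1]
      _ = _ := by rw [hP]; ring
  rw [hsP] at hcs
  have hsα : 0 < s * α := by positivity
  have hsβ : 0 < s * β := by positivity
  obtain ⟨η, hη, hfin⟩ := fin_main hCH hSTC hAREA hANA k k' hk' hk (s * α) (s * β) c hsα hsβ hcs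
  obtain ⟨N1, hN1⟩ := of_lt_dRect A (s * α) (by rw [← hα]; nlinarith)
  obtain ⟨N2, hN2⟩ := of_lt_dRect (kfold B k) (s * β) (by rw [← hβ]; nlinarith)
  set N0 : ℕ := N1 + N2 + 1 with hN0
  -- large boxes
  set μ : ℝ := min η 1 with hμ
  have hμpos : 0 < μ := lt_min hη one_pos
  obtain ⟨N3, hN3⟩ := exists_nat_gt (2 * (N0 : ℝ) / μ)
  apply le_dRect (A + kfold B k') c N3
  intro W H hW hH
  rw [ratio_mul, ← tr_sum]
  have hN3μ : 2 * (N0 : ℝ) < N3 * μ := by rwa [div_lt_iff₀ hμpos] at hN3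
  have hWr : (N3 : ℝ) ≤ (W : ℝ) + 1 := by
    have : (N3 : ℝ) ≤ (W : ℝ) := by exact_mod_cast hW
    linarith
  have hHr : (N3 : ℝ) ≤ (H : ℝ) + 1 := by
    have : (N3 : ℝ) ≤ (H : ℝ) := by exact_mod_cast hH
    linarith
  have hE : (N0 : ℝ) * (((W : ℝ) + 1) + ((H : ℝ) + 1)) ≤ μ * (((W : ℝ) + 1) * ((H : ℝ) + 1)) := by
    have h1 : (0 : ℝ) < (W : ℝ) + 1 := by positivity
    have h2 : (0 : ℝ) < (H : ℝ) + 1 := by positivity
    have e1 : 2 * (N0 : ℝ) ≤ ((W : ℝ) + 1) * μ := le_trans hN3μ.le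
      (mul_le_mul_of_nonneg_right hWr hμpos.le)
    have e2 : 2 * (N0 : ℝ) ≤ ((H : ℝ) + 1) * μ := le_trans hN3μ.le
      (mul_le_mul_of_nonneg_right hHr hμpos.le)
    nlinarith [mul_le_mul_of_nonneg_right e1 h2.le, mul_le_mul_of_nonneg_right e2 h1.le]
  have hVpos : (0 : ℝ) < ((W : ℝ) + 1) * ((H : ℝ) + 1) := by positivity
  apply hfin N0 W H (tr A W H) (tr B W H) (by omega)
  · rw [mem_tr]
    exact ⟨⟨Nat.zero_le _, Nat.zero_le _⟩, hB⟩
  · refine le_trans hE ?_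
    have : μ ≤ 1 := min_le_right _ _
    nlinarith
  · refine le_trans hE ?_
    have : μ ≤ η := min_le_left _ _
    nlinarith
  · intro a b ha1 ha2 hb1 hb2
    rw [tr_self A W H a b ha2 hb2, ← ratio_mul]
    exact hN1 a b (by omega) (by omega)
  · intro a b ha1 ha2 hb1 hb2
    rw [tr_kfold B W H k a b ha2 hb2, ← ratio_mul]
    exact hN2 a b (by omega) (by omega)

end Pool.Agent.Y402.PL
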