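import Pool.Agent.Y402.PL.Final

set_option autoImplicit false

namespace Pool.Agent.Y402.PL

open Pointwise

/-- `D` is down-closed (a staircase region) -/
def Down (D : Finset (ℕ × ℕ)) : Prop :=
  ∀ p ∈ D, ∀ q : ℕ × ℕ, q.1 ≤ p.1 → q.2 ≤ p.2 → q ∈ D

theorem level_bound_exact (n m : ℕ) (A W : Finset (ℕ × ℕ)) (α β c x y : ℝ)
    (hα : 0 < α) (hβ : 0 < β) (hc0 : 0 < c)
    (hA : ∀ D : Finset (ℕ × ℕ), D ⊆ box n m → Down D → α * (D.card : ℝ) ≤ ((A ∩ D).card : ℝ))
    (hx : β * ((up n m W).card : ℝ) ≤ x)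
    (hy : (((A ∩ box n m) \ W).card : ℝ) ≤ y) :
    ((n : ℝ) + 1) * ((m : ℝ) + 1) * min (β * c) α ≤ c * x + y := by
  set V : ℝ := ((n : ℝ) + 1) * ((m : ℝ) + 1) with hV
  set D : Finset (ℕ × ℕ) := box n m \ up n m W with hD
  have hup : ((up n m W).card : ℝ) = V - (D.card : ℝ) := card_compl n m W
  have hup0 : 0 ≤ V - (D.card : ℝ) := by rw [← hup]; positivity
  have h1 : (β * c) * (V - (D.card : ℝ)) ≤ c * x := by
    rw [← hup]
    calc β * c * ((up n m W).card : ℝ) = c * (β * ((up n m W).card : ℝ)) := by ring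
      _ ≤ c * x := mul_le_mul_of_nonneg_left hx hc0.le
  have h2 : ((A ∩ D).card : ℝ) ≤ y := by
    refine le_trans ?_ hy
    exact_mod_cast Finset.card_le_card (inter_compl_subset n m A W)
  have h3 := hA D Finset.sdiff_subset (fun p hp q h1 h2 => compl_down n m W p q hp h1 h2)
  have h4 : min (β * c) α * (V - (D.card : ℝ)) ≤ β * c * (V - (D.card : ℝ)) :=
    mul_le_mul_of_nonneg_right (min_le_left _ _) hup0
  have h5 : min (β * c) α * (D.card : ℝ) ≤ α * (D.card : ℝ) :=
    mul_le_mul_of_nonneg_right (min_le_right _ _) (by positivity)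
  nlinarith

theorem core_exact (hCH : S_CH) (hSTC : S_STC)
    (N M : ℕ) (A B : Finset (ℕ × ℕ)) (hB : ((0, 0) : ℕ × ℕ) ∈ B) (k : ℕ) (hk : 2 ≤ k) (α : ℝ)
    (hα : 0 < α) (hβ : 0 < sig N M (k • B))
    (hA : ∀ D : Finset (ℕ × ℕ), D ⊆ box N M → Down D → α * (D.card : ℝ) ≤ ((A ∩ D).card : ℝ)) :
    α ^ (1 - 1 / (k : ℝ)) * sig N M (k • B) ^ (1 / (k : ℝ)) ≤ sig N M (A + B) := by
  obtain ⟨n, m, hn, hm, hcard⟩ := exists_sig N M (A + B)
  obtain ⟨r, a, K, ha, hK, hsum, hlev⟩ := threshold_bound n m k (A ∩ box n m) B hB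
    Finset.inter_subset_right hCH (by omega)
  have hsumset : (A ∩ box n m + B) ∩ box n m = (A + B) ∩ box n m := by
    ext p
    simp only [Finset.mem_inter, Finset.mem_add, mem_box]
    constructor
    · rintro ⟨⟨x, hx, y, hy, rfl⟩, hp⟩
      exact ⟨⟨x, hx.1, y, hy, rfl⟩, hp⟩
    · rintro ⟨⟨x, hx, y, hy, rfl⟩, hp⟩
      refine ⟨⟨x, ⟨hx, ?_⟩, y, hy, rfl⟩, hp⟩
      simp only [Prod.fst_add, Prod.snd_add] at hp
      omega
  rw [hsumset, hcard] at hsum
  have hVpos : (0 : ℝ) < ((n : ℝ) + 1) * ((m : ℝ) + 1) := by positivity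
  have hbox : box n m ⊆ box N M := by
    intro p hp
    rw [mem_box] at hp ⊢
    omega
  have hana := exactANA k r a K α (sig N M (k • B)) (((n : ℝ) + 1) * ((m : ℝ) + 1)) hk hα hβ hK (by
      intro κ hκ
      obtain ⟨W, hWA, hW⟩ := hlev κ hκ
      refine le_trans ?_ hW
      have := level_bound_exact n m A W α (sig N M (k • B)) ((κ ^ k)⁻¹)
        (((W + k • B) ∩ box n m).card : ℝ) ((((A ∩ box n m) \ W).card : ℝ)) hα hβ (by positivity)
        (fun D hD hdown => hA D (hD.trans hbox) hdown)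
        (hSTC N M (k • B) W (sig N M (k • B)) hβ.le
          (fun a' ha' b' hb' => sig_mul_le N M (k • B) a' b' ha' hb') n hn m hm) le_rfl
      exact this)
  rw [hsum] at hana
  exact le_of_mul_le_mul_right hana hVpos

theorem main_exact (N M : ℕ) (A B : Finset (ℕ × ℕ)) (hB : ((0, 0) : ℕ × ℕ) ∈ B) (k k' q : ℕ)
    (hq : 2 ≤ q) (hkq : k ≤ q * k') (α : ℝ) (hα : 0 ≤ α)
    (hA : ∀ D : Finset (ℕ × ℕ), D ⊆ box N M → Down D → α * (D.card : ℝ) ≤ ((A ∩ D).card : ℝ)) :
    α ^ (1 - 1 / (q : ℝ)) * sig N M (k • B) ^ (1 / (q : ℝ)) ≤ sig N M (A + k' • B) := by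
  have hq1 : 1 / (q : ℝ) < 1 := by
    rw [div_lt_one (by positivity)]
    exact_mod_cast (by omega : 1 < q)
  have hq0 : 0 < 1 / (q : ℝ) := by positivity
  have hB' := zero_mem_nsmul B hB k'
  have hle : sig N M (k • B) ≤ sig N M (q • (k' • B)) := by
    apply sig_mono
    rw [smul_smul]
    exact nsmul_mono B hB _ _ hkq
  rcases hα.eq_or_lt with h0 | h0
  · rw [← h0, Real.zero_rpow (by linarith), zero_mul]
    exact sig_nonneg _ _ _
  rcases (sig_nonneg N M (k • B)).eq_or_lt with hb | hb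
  · rw [← hb, Real.zero_rpow (by linarith), mul_zero]
    exact sig_nonneg _ _ _
  have h1 := core_exact Pool.Agent.Y409.PL.mainCH Pool.Agent.Y409.PL.mainSTC N M A (k' • B) hB' q hq
    α h0 (lt_of_lt_of_le hb hle) hA
  refine le_trans ?_ h1
  apply mul_le_mul_of_nonneg_left _ (by positivity)
  exact Real.rpow_le_rpow hb.le hle hq0.le

/-- One-dimensional Schnirelmann density in `[0,N]`. -/
noncomputable def sig1 (N : ℕ) (C : Finset ℕ) : ℝ :=
  ⨅ n : Fin (N + 1), ((C.filter (fun x => x ≤ (n : ℕ))).card : ℝ) / (((n : ℕ) : ℝ) + 1)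

theorem sig1_nonneg (N : ℕ) (C : Finset ℕ) : 0 ≤ sig1 N C := by
  unfold sig1
  exact Real.iInf_nonneg (fun p => by positivity)

theorem sig1_mul_le (N : ℕ) (C : Finset ℕ) (n : ℕ) (hn : n ≤ N) :
    sig1 N C * ((n : ℝ) + 1) ≤ ((C.filter (fun x => x ≤ n)).card : ℝ) := by
  have h : sig1 N C ≤ ((C.filter (fun x => x ≤ n)).card : ℝ) / ((n : ℝ) + 1) := by
    unfold sig1
    exact ciInf_le (Finite.bddBelow_range _) (⟨n, by omega⟩ : Fin (N + 1))
  have hpos : (0 : ℝ) < (n : ℝ) + 1 := by positivity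
  rwa [le_div_iff₀ hpos] at h

/-- a down-closed finite set of naturals inside `[0,N]` is met in proportion at least the density -/
theorem seg_count (N : ℕ) (C S : Finset ℕ) (hS : ∀ x ∈ S, x ≤ N) (hdown : ∀ x ∈ S, ∀ y ≤ x, y ∈ S) :
    sig1 N C * (S.card : ℝ) ≤ ((C ∩ S).card : ℝ) := by
  rcases S.eq_empty_or_nonempty with h | h
  · subst h; simp
  · set n := S.max' h with hn
    have hnS : n ∈ S := S.max'_mem h
    have hSeq : S = Finset.range (n + 1) := by
      ext x
      rw [Finset.mem_range]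
      constructor
      · intro hx
        have h7 : x ≤ n := S.le_max' x hx
        exact Nat.lt_succ_of_le h7
      · intro hx
        exact hdown n hnS x (by omega)
    have h1 := sig1_mul_le N C n (hS n hnS)
    have h2 : C.filter (fun x => x ≤ n) = C ∩ S := by
      ext x
      rw [hSeq, Finset.mem_filter, Finset.mem_inter, Finset.mem_range, Nat.lt_succ_iff]
    rw [h2] at h1
    rw [hSeq, Finset.card_range, ← hSeq]
    push_cast
    exact h1

theorem prod_stair (N M : ℕ) (A1 A2 : Finset ℕ) (D : Finset (ℕ × ℕ)) (hD : D ⊆ box N M)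
    (hdown : Down D) :
    sig1 N A1 * sig1 M A2 * (D.card : ℝ) ≤ (((A1 ×ˢ A2) ∩ D).card : ℝ) := by
  -- rows
  set D1 : Finset (ℕ × ℕ) := D.filter (fun p => p.1 ∈ A1) with hD1
  have hrow : sig1 N A1 * (D.card : ℝ) ≤ (D1.card : ℝ) := by
    have e1 : D.card = ∑ y ∈ Finset.range (M + 1), (D.filter (fun p => p.2 = y)).card := by
      apply Finset.card_eq_sum_card_fiberwise
      intro p hp
      have := mem_box.mp (hD hp)
      simp only [Finset.coe_range, Set.mem_Iio]
      omega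
    have e2 : D1.card = ∑ y ∈ Finset.range (M + 1), (D1.filter (fun p => p.2 = y)).card := by
      apply Finset.card_eq_sum_card_fiberwise
      intro p hp
      have hp' : p ∈ D ∧ p.1 ∈ A1 := by simpa [hD1] using hp
      have := mem_box.mp (hD hp'.1)
      simp only [Finset.coe_range, Set.mem_Iio]
      omega
    have e3 : ∀ y ∈ Finset.range (M + 1), sig1 N A1 * ((D.filter (fun p => p.2 = y)).card : ℝ)
        ≤ ((D1.filter (fun p => p.2 = y)).card : ℝ) := by
      intro y _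
      set S : Finset ℕ := (D.filter (fun p => p.2 = y)).image Prod.fst with hS
      have c1 : (D.filter (fun p => p.2 = y)).card = S.card := by
        rw [hS, Finset.card_image_of_injOn]
        intro p hp q hq hpq
        have hp' : p ∈ D ∧ p.2 = y := by simpa using hp
        have hq' : q ∈ D ∧ q.2 = y := by simpa using hq
        exact Prod.ext hpq (hp'.2.trans hq'.2.symm)
      have c2 : (D1.filter (fun p => p.2 = y)).card = (A1 ∩ S).card := by
        have : A1 ∩ S = (D1.filter (fun p => p.2 = y)).image Prod.fst := by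
          ext x
          simp only [hS, hD1, Finset.mem_inter, Finset.mem_image, Finset.mem_filter]
          constructor
          · rintro ⟨hx, p, ⟨hp, hpy⟩, rfl⟩
            exact ⟨p, ⟨⟨hp, hx⟩, hpy⟩, rfl⟩
          · rintro ⟨p, ⟨⟨hp, hx⟩, hpy⟩, rfl⟩
            exact ⟨hx, p, ⟨hp, hpy⟩, rfl⟩
        rw [this, Finset.card_image_of_injOn]
        intro p hp q hq hpq
        have hp' : p ∈ D1 ∧ p.2 = y := by simpa using hp
        have hq' : q ∈ D1 ∧ q.2 = y := by simpa using hq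
        exact Prod.ext hpq (hp'.2.trans hq'.2.symm)
      rw [c1, c2]
      apply seg_count
      · intro x hx
        simp only [hS, Finset.mem_image, Finset.mem_filter] at hx
        obtain ⟨p, ⟨hp, _⟩, rfl⟩ := hx
        exact (mem_box.mp (hD hp)).1
      · intro x hx z hz
        simp only [hS, Finset.mem_image, Finset.mem_filter] at hx ⊢
        obtain ⟨p, ⟨hp, hpy⟩, rfl⟩ := hx
        exact ⟨(z, p.2), ⟨hdown p hp (z, p.2) hz le_rfl, hpy⟩, rfl⟩
    rw [e1, e2]
    push_cast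
    rw [Finset.mul_sum]
    exact Finset.sum_le_sum e3
  -- columns
  have hcol : sig1 M A2 * (D1.card : ℝ) ≤ (((A1 ×ˢ A2) ∩ D).card : ℝ) := by
    have e0 : (A1 ×ˢ A2) ∩ D = D1.filter (fun p => p.2 ∈ A2) := by
      ext p
      simp only [hD1, Finset.mem_inter, Finset.mem_product, Finset.mem_filter]
      tauto
    rw [e0]
    have e1 : D1.card = ∑ y ∈ Finset.range (N + 1), (D1.filter (fun p => p.1 = y)).card := by
      apply Finset.card_eq_sum_card_fiberwise
      intro p hp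
      have hp' : p ∈ D ∧ p.1 ∈ A1 := by simpa [hD1] using hp
      have := mem_box.mp (hD hp'.1)
      simp only [Finset.coe_range, Set.mem_Iio]
      omega
    have e2 : (D1.filter (fun p => p.2 ∈ A2)).card = ∑ y ∈ Finset.range (N + 1),
        ((D1.filter (fun p => p.2 ∈ A2)).filter (fun p => p.1 = y)).card := by
      apply Finset.card_eq_sum_card_fiberwise
      intro p hp
      have hp' : (p ∈ D ∧ p.1 ∈ A1) ∧ p.2 ∈ A2 := by simpa [hD1] using hp
      have := mem_box.mp (hD hp'.1.1)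
      simp only [Finset.coe_range, Set.mem_Iio]
      omega
    have e3 : ∀ y ∈ Finset.range (N + 1), sig1 M A2 * ((D1.filter (fun p => p.1 = y)).card : ℝ)
        ≤ (((D1.filter (fun p => p.2 ∈ A2)).filter (fun p => p.1 = y)).card : ℝ) := by
      intro y _
      set S : Finset ℕ := (D1.filter (fun p => p.1 = y)).image Prod.snd with hS
      have c1 : (D1.filter (fun p => p.1 = y)).card = S.card := by
        rw [hS, Finset.card_image_of_injOn]
        intro p hp q hq hpq
        have hp' : p ∈ D1 ∧ p.1 = y := by simpa using hp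
        have hq' : q ∈ D1 ∧ q.1 = y := by simpa using hq
        exact Prod.ext (hp'.2.trans hq'.2.symm) hpq
      have c2 : ((D1.filter (fun p => p.2 ∈ A2)).filter (fun p => p.1 = y)).card
          = (A2 ∩ S).card := by
        have : A2 ∩ S = ((D1.filter (fun p => p.2 ∈ A2)).filter (fun p => p.1 = y)).image
            Prod.snd := by
          ext x
          simp only [hS, Finset.mem_inter, Finset.mem_image, Finset.mem_filter]
          constructor
          · rintro ⟨hx, p, ⟨hp, hpy⟩, rfl⟩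
            exact ⟨p, ⟨⟨hp, hx⟩, hpy⟩, rfl⟩
          · rintro ⟨p, ⟨⟨hp, hx⟩, hpy⟩, rfl⟩
            exact ⟨hx, p, ⟨hp, hpy⟩, rfl⟩
        rw [this, Finset.card_image_of_injOn]
        intro p hp q hq hpq
        have hp' : (p ∈ D1 ∧ p.2 ∈ A2) ∧ p.1 = y := by
          simpa only [Finset.coe_filter, Finset.mem_filter, Set.mem_ofPred_eq] using hp
        have hq' : (q ∈ D1 ∧ q.2 ∈ A2) ∧ q.1 = y := by
          simpa only [Finset.coe_filter, Finset.mem_filter, Set.mem_ofPred_eq] using hq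
        exact Prod.ext (hp'.2.trans hq'.2.symm) hpq
      rw [c1, c2]
      apply seg_count
      · intro x hx
        simp only [hS, hD1, Finset.mem_image, Finset.mem_filter] at hx
        obtain ⟨p, ⟨⟨hp, _⟩, _⟩, rfl⟩ := hx
        exact (mem_box.mp (hD hp)).2
      · intro x hx z hz
        simp only [hS, hD1, Finset.mem_image, Finset.mem_filter] at hx ⊢
        obtain ⟨p, ⟨⟨hp, hp1⟩, hpy⟩, rfl⟩ := hx
        exact ⟨(p.1, z), ⟨⟨hdown p hp (p.1, z) le_rfl hz, hp1⟩, hpy⟩, rfl⟩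
    rw [e1, e2]
    push_cast
    rw [Finset.mul_sum]
    exact Finset.sum_le_sum e3
  calc sig1 N A1 * sig1 M A2 * (D.card : ℝ) = sig1 M A2 * (sig1 N A1 * (D.card : ℝ)) := by ring
    _ ≤ sig1 M A2 * (D1.card : ℝ) := mul_le_mul_of_nonneg_left hrow (sig1_nonneg _ _)
    _ ≤ _ := hcol

/-- The density of a product set is the product of the densities (only `≤` is needed). -/
theorem sig_prod_le (N M : ℕ) (A1 A2 : Finset ℕ) :
    sig N M (A1 ×ˢ A2) ≤ sig1 N A1 * sig1 M A2 := by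
  obtain ⟨n, hn⟩ := exists_eq_ciInf_of_finite
    (f := fun n : Fin (N + 1) => ((A1.filter (fun x => x ≤ (n : ℕ))).card : ℝ) /
      (((n : ℕ) : ℝ) + 1))
  obtain ⟨m, hm⟩ := exists_eq_ciInf_of_finite
    (f := fun n : Fin (M + 1) => ((A2.filter (fun x => x ≤ (n : ℕ))).card : ℝ) /
      (((n : ℕ) : ℝ) + 1))
  have h1 : sig1 N A1 = ((A1.filter (fun x => x ≤ (n : ℕ))).card : ℝ) / (((n : ℕ) : ℝ) + 1) := by
    unfold sig1; exact hn.symm
  have h2 : sig1 M A2 = ((A2.filter (fun x => x ≤ (m : ℕ))).card : ℝ) / (((m : ℕ) : ℝ) + 1) := by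
    unfold sig1; exact hm.symm
  have h3 := sig_mul_le N M (A1 ×ˢ A2) n m (by omega) (by omega)
  have h4 : ((A1 ×ˢ A2) ∩ box n m) = (A1.filter (fun x => x ≤ (n : ℕ))) ×ˢ
      (A2.filter (fun x => x ≤ (m : ℕ))) := by
    ext p
    simp only [Finset.mem_inter, Finset.mem_product, Finset.mem_filter, mem_box]
    tauto
  rw [h4, Finset.card_product] at h3
  push_cast at h3
  rw [h1, h2, div_mul_div_comm, le_div_iff₀ (by positivity)]
  exact h3

theorem prod_exact (N M : ℕ) (A1 A2 : Finset ℕ) (B : Finset (ℕ × ℕ)) (hB : ((0, 0) : ℕ × ℕ) ∈ B)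
    (k k' q : ℕ) (hq : 2 ≤ q) (hkq : k ≤ q * k') :
    sig N M (A1 ×ˢ A2) ^ (1 - 1 / (q : ℝ)) * sig N M (k • B) ^ (1 / (q : ℝ))
      ≤ sig N M (A1 ×ˢ A2 + k' • B) := by
  have hq1 : 1 / (q : ℝ) < 1 := by
    rw [div_lt_one (by positivity)]
    exact_mod_cast (by omega : 1 < q)
  have h := main_exact N M (A1 ×ˢ A2) B hB k k' q hq hkq (sig1 N A1 * sig1 M A2)
    (mul_nonneg (sig1_nonneg _ _) (sig1_nonneg _ _))
    (fun D hD hdown => prod_stair N M A1 A2 D hD hdown)
  refine le_trans ?_ h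
  apply mul_le_mul_of_nonneg_right _ (Real.rpow_nonneg (sig_nonneg _ _ _) _)
  exact Real.rpow_le_rpow (sig_nonneg _ _ _) (sig_prod_le N M A1 A2) (by linarith)

end Pool.Agent.Y402.PL
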