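import Pool.Agent.Y402.PL.Mix
import Pool.Agent.Y402.PL.AREA
import Pool.Agent.Y409.PL.CH
import Pool.Agent.Y409.PL.STC

set_option autoImplicit false

namespace Pool.Agent.Y402.PL

open Pointwise

/-- The level bound with the elementary constants. -/
theorem level_bound_mix (n m : ℕ) (A W : Finset (ℕ × ℕ)) (α β c x y : ℝ)
    (hα : 0 < α) (hβ : 0 < β) (hc0 : 0 < c)
    (hA : ∀ a ≤ n, ∀ b ≤ m, α * (((a : ℝ) + 1) * ((b : ℝ) + 1)) ≤ ((A ∩ box a b).card : ℝ))
    (hx : β * ((up n m W).card : ℝ) ≤ x)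
    (hy : (((A ∩ box n m) \ W).card : ℝ) ≤ y) :
    ((n : ℝ) + 1) * ∑ i ∈ Finset.range (m + 1), min (tailSum (m + 1) i * (β * c)) α
      ≤ c * x + y := by
  set L : ℝ := (n : ℝ) + 1 with hL
  have hLpos : 0 < L := by positivity
  set D : Finset (ℕ × ℕ) := box n m \ up n m W with hD
  have hup : ((up n m W).card : ℝ) = L * ((m : ℝ) + 1) - (D.card : ℝ) := card_compl n m W
  have h1 : (β * c) * (L * ((m : ℝ) + 1) - (D.card : ℝ)) ≤ c * x := by
    rw [← hup]
    calc β * c * ((up n m W).card : ℝ) = c * (β * ((up n m W).card : ℝ)) := by ring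
      _ ≤ c * x := mul_le_mul_of_nonneg_left hx hc0.le
  have h2 : ((A ∩ D).card : ℝ) ≤ y := by
    refine le_trans ?_ hy
    exact_mod_cast Finset.card_le_card (inter_compl_subset n m A W)
  have key : ∃ ρ : ℝ, 0 ≤ ρ ∧ ρ ≤ L * ((m : ℝ) + 1) ∧ α * ρ ≤ ((A ∩ D).card : ℝ) ∧
      (D.card : ℝ) ≤ ∑ i ∈ Finset.range (m + 1), min L (ρ / ((i : ℝ) + 1)) := by
    rcases D.eq_empty_or_nonempty with hDe | hDne
    · refine ⟨0, le_rfl, by positivity, by simp, ?_⟩
      rw [hDe]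
      simp only [Finset.card_empty, Nat.cast_zero, zero_div]
      apply Finset.sum_nonneg
      intro i _
      exact le_min hLpos.le le_rfl
    · obtain ⟨p0, hp0, hmax⟩ := Finset.exists_max_image D
        (fun p : ℕ × ℕ => ((p.1 : ℝ) + 1) * ((p.2 : ℝ) + 1)) hDne
      have hp0box : p0.1 ≤ n ∧ p0.2 ≤ m := by
        have := (Finset.mem_sdiff.mp hp0).1
        exact mem_box.mp this
      refine ⟨((p0.1 : ℝ) + 1) * ((p0.2 : ℝ) + 1), by positivity, ?_, ?_, ?_⟩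
      · have e1 : (p0.1 : ℝ) ≤ (n : ℝ) := by exact_mod_cast hp0box.1
        have e2 : (p0.2 : ℝ) ≤ (m : ℝ) := by exact_mod_cast hp0box.2
        rw [hL]
        apply mul_le_mul <;> first | linarith | positivity
      · refine le_trans (hA p0.1 hp0box.1 p0.2 hp0box.2) ?_
        have hsub : A ∩ box p0.1 p0.2 ⊆ A ∩ D := by
          intro q hq
          rw [Finset.mem_inter] at hq ⊢
          refine ⟨hq.1, ?_⟩
          have hq2 := mem_box.mp hq.2
          exact compl_down n m W p0 q hp0 hq2.1 hq2.2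
        exact_mod_cast Finset.card_le_card hsub
      · exact row_count n m D _ Finset.sdiff_subset (by positivity) hmax
  obtain ⟨ρ, hρ0, hρ1, hρ2, hρ3⟩ := key
  have hmix := mix_ineq α (β * c) L ρ (D.card : ℝ) (m + 1) (by positivity) (by positivity) hLpos
    hρ0 (by push_cast; exact hρ1) hρ3
  push_cast at hmix
  linarith

/-- The constant `c_H(θ) = (1/H) Σ_{j=1}^H (1/j + ... + 1/H)^θ`. -/
noncomputable def cst (H : ℕ) (θ : ℝ) : ℝ := (∑ j ∈ Finset.range H, tailSum H j ^ θ) / (H : ℝ)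

theorem tail_avg (H j : ℕ) (hj : j < H) :
    tailSum H j = ((H : ℝ) - j) / ((H : ℝ) + 1) * tailSum (H + 1) j
      + ((j : ℝ) + 1) / ((H : ℝ) + 1) * tailSum (H + 1) (j + 1) := by
  rw [tailSum_succ H j hj.le, tailSum_succ H (j + 1) hj, tailSum_head H j hj]
  have h1 : (0 : ℝ) < (H : ℝ) + 1 := by positivity
  have h2 : (0 : ℝ) < (j : ℝ) + 1 := by positivity
  field_simp
  ring

theorem cst_succ_le (H : ℕ) (hH : 0 < H) (θ : ℝ) (h0 : 0 ≤ θ) (h1 : θ ≤ 1) :
    cst (H + 1) θ ≤ cst H θ := by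
  have hHr : (0 : ℝ) < H := by exact_mod_cast hH
  have hH1 : (0 : ℝ) < (H : ℝ) + 1 := by positivity
  have hconc := Real.concaveOn_rpow h0 h1
  have hstep : ∀ j ∈ Finset.range H,
      ((H : ℝ) - j) / ((H : ℝ) + 1) * tailSum (H + 1) j ^ θ
        + ((j : ℝ) + 1) / ((H : ℝ) + 1) * tailSum (H + 1) (j + 1) ^ θ ≤ tailSum H j ^ θ := by
    intro j hj
    have hjH := Finset.mem_range.mp hj
    have hjr : (j : ℝ) < H := by exact_mod_cast hjH
    have hw0 : 0 ≤ ((H : ℝ) - j) / ((H : ℝ) + 1) := div_nonneg (by linarith) hH1.le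
    have hw1 : 0 ≤ ((j : ℝ) + 1) / ((H : ℝ) + 1) := by positivity
    have hw : ((H : ℝ) - j) / ((H : ℝ) + 1) + ((j : ℝ) + 1) / ((H : ℝ) + 1) = 1 := by
      field_simp
      ring
    have h := hconc.2 (Set.mem_Ici.mpr (tailSum_nonneg (H + 1) j))
      (Set.mem_Ici.mpr (tailSum_nonneg (H + 1) (j + 1))) hw0 hw1 hw
    simp only [smul_eq_mul] at h
    rw [tail_avg H j hjH]
    exact h
  have hsum := Finset.sum_le_sum hstep
  have hre : ∑ j ∈ Finset.range H, (((H : ℝ) - j) / ((H : ℝ) + 1) * tailSum (H + 1) j ^ θ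
        + ((j : ℝ) + 1) / ((H : ℝ) + 1) * tailSum (H + 1) (j + 1) ^ θ)
      = (H : ℝ) / ((H : ℝ) + 1) * ∑ j ∈ Finset.range (H + 1), tailSum (H + 1) j ^ θ := by
    rw [Finset.sum_add_distrib]
    have e1 : ∑ j ∈ Finset.range H, ((H : ℝ) - j) / ((H : ℝ) + 1) * tailSum (H + 1) j ^ θ
        = ∑ j ∈ Finset.range (H + 1), ((H : ℝ) - j) / ((H : ℝ) + 1) * tailSum (H + 1) j ^ θ := by
      rw [Finset.sum_range_succ]
      simp
    have e2 : ∑ j ∈ Finset.range H, ((j : ℝ) + 1) / ((H : ℝ) + 1) * tailSum (H + 1) (j + 1) ^ θ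
        = ∑ j ∈ Finset.range (H + 1), (j : ℝ) / ((H : ℝ) + 1) * tailSum (H + 1) j ^ θ := by
      rw [Finset.sum_range_succ' (fun j : ℕ => (j : ℝ) / ((H : ℝ) + 1) * tailSum (H + 1) j ^ θ)]
      simp
    rw [e1, e2, ← Finset.sum_add_distrib, Finset.mul_sum]
    apply Finset.sum_congr rfl
    intro j _
    field_simp
    ring
  rw [hre] at hsum
  unfold cst
  rw [div_le_div_iff₀ (by push_cast; exact hH1) hHr]
  push_cast
  have h3 : (H : ℝ) / ((H : ℝ) + 1) * ∑ j ∈ Finset.range (H + 1), tailSum (H + 1) j ^ θ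
      = ((∑ j ∈ Finset.range (H + 1), tailSum (H + 1) j ^ θ) * H) / ((H : ℝ) + 1) := by ring
  rw [h3, div_le_iff₀ hH1] at hsum
  exact hsum

theorem cst_anti (θ : ℝ) (h0 : 0 ≤ θ) (h1 : θ ≤ 1) (m M : ℕ) (h : m ≤ M) :
    cst (M + 1) θ ≤ cst (m + 1) θ := by
  induction M, h using Nat.le_induction with
  | base => exact le_rfl
  | succ M _ ih => exact le_trans (cst_succ_le (M + 1) (by omega) θ h0 h1) ih

theorem core_mix (hCH : S_CH) (hSTC : S_STC)
    (N M : ℕ) (A B : Finset (ℕ × ℕ)) (hB : ((0, 0) : ℕ × ℕ) ∈ B) (k : ℕ) (hk : 2 ≤ k)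
    (hα : 0 < sig N M A) (hβ : 0 < sig N M (k • B)) :
    cst (M + 1) (1 / (k : ℝ)) *
      (sig N M A ^ (1 - 1 / (k : ℝ)) * sig N M (k • B) ^ (1 / (k : ℝ))) ≤ sig N M (A + B) := by
  obtain ⟨n, m, hn, hm, hcard⟩ := exists_sig N M (A + B)
  obtain ⟨r, a, K, ha, hK, hsum, hlev⟩ := threshold_bound n m k (A ∩ box n m) B hB
    Finset.inter_subset_right hCH (by omega)
  have hsumset : (A ∩ box n m + B) ∩ box n m = (A + B) ∩ box n m := by
    ext p
    simp only [Finset.mem_inter, Finset.mem_add, mem_box]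
    constructor
    · rintro ⟨⟨x, hx, y, hy, rfl⟩, hp⟩
      exact ⟨⟨x, hx.1, y, hy, rfl⟩, hp⟩
    · rintro ⟨⟨x, hx, y, hy, rfl⟩, hp⟩
      refine ⟨⟨x, ⟨hx, ?_⟩, y, hy, rfl⟩, hp⟩
      simp only [Prod.fst_add, Prod.snd_add] at hp
      omega
  rw [hsumset, hcard] at hsum
  have hVpos : (0 : ℝ) < ((n : ℝ) + 1) * ((m : ℝ) + 1) := by positivity
  have hana := mixANA k r a K (sig N M A) (sig N M (k • B)) ((n : ℝ) + 1) hk hα hβ hK
    (m + 1) (tailSum (m + 1)) (fun i _ => tailSum_nonneg _ _) (by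
      intro κ hκ
      obtain ⟨W, hWA, hW⟩ := hlev κ hκ
      refine le_trans ?_ hW
      have := level_bound_mix n m A W (sig N M A) (sig N M (k • B)) ((κ ^ k)⁻¹)
        (((W + k • B) ∩ box n m).card : ℝ) ((((A ∩ box n m) \ W).card : ℝ)) hα hβ (by positivity)
        (fun a' ha' b' hb' => sig_mul_le N M A a' b' (by omega) (by omega))
        (hSTC N M (k • B) W (sig N M (k • B)) hβ.le
          (fun a' ha' b' hb' => sig_mul_le N M (k • B) a' b' ha' hb') n hn m hm) le_rfl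
      exact this)
  rw [hsum] at hana
  have hk0 : (0 : ℝ) ≤ 1 / (k : ℝ) := by positivity
  have hk1 : 1 / (k : ℝ) ≤ 1 := by
    rw [div_le_one (by positivity)]
    exact_mod_cast (by omega : 1 ≤ k)
  have hmono := cst_anti (1 / (k : ℝ)) hk0 hk1 m M hm
  set P : ℝ := sig N M A ^ (1 - 1 / (k : ℝ)) * sig N M (k • B) ^ (1 / (k : ℝ)) with hP
  have hPpos : 0 ≤ P := by positivity
  have hfin : cst (m + 1) (1 / (k : ℝ)) * P * (((n : ℝ) + 1) * ((m : ℝ) + 1))
      ≤ sig N M (A + B) * (((n : ℝ) + 1) * ((m : ℝ) + 1)) := by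
    refine le_trans (le_of_eq ?_) hana
    unfold cst
    push_cast
    field_simp
  have h4 := le_of_mul_le_mul_right hfin hVpos
  exact le_trans (mul_le_mul_of_nonneg_right hmono hPpos) h4

theorem zero_mem_nsmul (B : Finset (ℕ × ℕ)) (hB : ((0, 0) : ℕ × ℕ) ∈ B) (i : ℕ) :
    ((0, 0) : ℕ × ℕ) ∈ i • B := by
  have h0 : (0 : ℕ × ℕ) ∈ B := hB
  have : (0 : ℕ × ℕ) ∈ i • B := by
    induction i with
    | zero => simp
    | succ i ih =>
      rw [succ_nsmul]
      have := Finset.add_mem_add ih h0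
      simpa using this
  exact this

theorem nsmul_mono (B : Finset (ℕ × ℕ)) (hB : ((0, 0) : ℕ × ℕ) ∈ B) (i j : ℕ) (h : i ≤ j) :
    i • B ⊆ j • B := by
  obtain ⟨d, rfl⟩ := Nat.exists_eq_add_of_le h
  rw [add_nsmul]
  intro x hx
  have h0 : (0 : ℕ × ℕ) ∈ d • B := zero_mem_nsmul B hB d
  have := Finset.add_mem_add hx h0
  simpa using this

theorem sig_mono (N M : ℕ) (C C' : Finset (ℕ × ℕ)) (h : C ⊆ C') : sig N M C ≤ sig N M C' := by
  obtain ⟨n, m, hn, hm, hcard⟩ := exists_sig N M C'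
  have h1 := sig_mul_le N M C n m hn hm
  have h2 : ((C ∩ box n m).card : ℝ) ≤ ((C' ∩ box n m).card : ℝ) := by
    exact_mod_cast Finset.card_le_card (Finset.inter_subset_inter_right h)
  have hVpos : (0 : ℝ) < ((n : ℝ) + 1) * ((m : ℝ) + 1) := by positivity
  rw [hcard] at h2
  exact le_of_mul_le_mul_right (le_trans h1 h2) hVpos

/-- Both constants, for `k ≤ q k'`. -/
theorem main_both (N M : ℕ) (A B : Finset (ℕ × ℕ)) (hB : ((0, 0) : ℕ × ℕ) ∈ B) (k k' q : ℕ)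
    (hq : 2 ≤ q) (hkq : k ≤ q * k') :
    max (cst (M + 1) (1 / (q : ℝ))) (Real.Gamma (1 + 1 / (q : ℝ))) *
      (sig N M A ^ (1 - 1 / (q : ℝ)) * sig N M (k • B) ^ (1 / (q : ℝ)))
      ≤ sig N M (A + k' • B) := by
  have hq1 : 1 / (q : ℝ) < 1 := by
    rw [div_lt_one (by positivity)]
    exact_mod_cast (by omega : 1 < q)
  have hq0 : 0 < 1 / (q : ℝ) := by positivity
  have hB' := zero_mem_nsmul B hB k'
  have hle : sig N M (k • B) ≤ sig N M (q • (k' • B)) := by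
    apply sig_mono
    rw [smul_smul]
    exact nsmul_mono B hB _ _ hkq
  rcases (sig_nonneg N M A).eq_or_lt with hA | hA
  · rw [← hA, Real.zero_rpow (by linarith), zero_mul, mul_zero]
    exact sig_nonneg _ _ _
  rcases (sig_nonneg N M (k • B)).eq_or_lt with hb | hb
  · rw [← hb, Real.zero_rpow (by linarith), mul_zero, mul_zero]
    exact sig_nonneg _ _ _
  have hb2 : 0 < sig N M (q • (k' • B)) := lt_of_lt_of_le hb hle
  have h1 := core_mix Pool.Agent.Y409.PL.mainCH Pool.Agent.Y409.PL.mainSTC N M A (k' • B) hB' q hq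
    hA hb2
  have h2 := core Pool.Agent.Y409.PL.mainCH Pool.Agent.Y409.PL.mainSTC mainAREA mainANA N M A
    (k' • B) hB' q hq hA hb2
  have hc0 : 0 ≤ cst (M + 1) (1 / (q : ℝ)) := by
    unfold cst
    apply div_nonneg _ (by positivity)
    apply Finset.sum_nonneg
    intro j _
    exact Real.rpow_nonneg (tailSum_nonneg _ _) _
  have hmax0 : 0 ≤ max (cst (M + 1) (1 / (q : ℝ))) (Real.Gamma (1 + 1 / (q : ℝ))) :=
    le_trans hc0 (le_max_left _ _)
  have h3 : sig N M A ^ (1 - 1 / (q : ℝ)) * sig N M (k • B) ^ (1 / (q : ℝ))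
      ≤ sig N M A ^ (1 - 1 / (q : ℝ)) * sig N M (q • (k' • B)) ^ (1 / (q : ℝ)) := by
    apply mul_le_mul_of_nonneg_left _ (by positivity)
    exact Real.rpow_le_rpow hb.le hle hq0.le
  refine le_trans (mul_le_mul_of_nonneg_left h3 hmax0) ?_
  rcases max_choice (cst (M + 1) (1 / (q : ℝ))) (Real.Gamma (1 + 1 / (q : ℝ))) with hm | hm
  · rw [hm]; exact h1
  · rw [hm]; exact h2

end Pool.Agent.Y402.PL
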