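import Pool.Agent.Y402.PL.Stm2
import Pool.Agent.Y402.PL.ANA2
import Pool.Agent.Y402.PL.Exact

set_option autoImplicit false

namespace Pool.Agent.Y402.PL

open Pointwise

/-- The threshold bound for general `k' < k`. -/
theorem threshold_bound2 (n m k k' : ℕ) (A B : Finset (ℕ × ℕ)) (hB : ((0, 0) : ℕ × ℕ) ∈ B)
    (hA : A ⊆ box n m) (hCH : S_CH2) (hk' : 0 < k') (hk : k' < k) :
    ∃ (r : ℕ) (a K : ℕ → ℝ), (∀ j < r, 0 ≤ K j) ∧
      ∑ j ∈ Finset.range r, K j * a j ≤ (((A + k' • B) ∩ box n m).card : ℝ) ∧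
      ∀ κ : ℝ, 0 < κ → ∃ W : Finset (ℕ × ℕ), W ⊆ A ∧
        (κ ^ ((k : ℝ) / (k' : ℝ)))⁻¹ * (((W + k • B) ∩ box n m).card : ℝ) + ((A \ W).card : ℝ)
          ≤ ∑ j ∈ Finset.range r, a j * min ((K j / κ) ^ ((k : ℝ) / (k' : ℝ))) 1 := by
  obtain ⟨r, V, K, hV0, hVr, hVmono, hKmono, hK0, hstep⟩ := hCH n m k k' A B hk' hk hB hA
  have hVm : Monotone V := monotone_nat_of_le_succ hVmono
  set p : ℝ := (k : ℝ) / (k' : ℝ) with hp
  have hp0 : 0 ≤ p := by positivity
  refine ⟨r, fun j => ((V (j + 1)).card : ℝ) - ((V j).card : ℝ), K, fun j _ => hK0 j, ?_, ?_⟩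
  · have htel : ∀ s, s ≤ r → ∑ j ∈ Finset.range s,
        K j * (((V (j + 1)).card : ℝ) - ((V j).card : ℝ))
          ≤ (((V s + k' • B) ∩ box n m).card : ℝ) := by
      intro s
      induction s with
      | zero => intro _; simp [hV0]
      | succ s ih =>
        intro hs
        rw [Finset.sum_range_succ]
        have h1 := ih (by omega)
        have h2 := (hstep s (by omega)).1
        linarith
    simpa [hVr] using htel r le_rfl
  · intro κ hκ
    obtain ⟨j0, hj0, hlow, hhigh⟩ := exists_threshold K hKmono κ r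
    refine ⟨V j0, hVr ▸ hVm hj0, ?_⟩
    have hsplit : ∑ j ∈ Finset.range r,
        (((V (j + 1)).card : ℝ) - ((V j).card : ℝ)) * min ((K j / κ) ^ p) 1
        = ∑ j ∈ Finset.range j0,
            (((V (j + 1)).card : ℝ) - ((V j).card : ℝ)) * min ((K j / κ) ^ p) 1
          + ∑ j ∈ Finset.Ico j0 r,
            (((V (j + 1)).card : ℝ) - ((V j).card : ℝ)) * min ((K j / κ) ^ p) 1 := by
      rw [Finset.sum_range_add_sum_Ico _ hj0]
    have h1 : ∀ s, s ≤ j0 → (κ ^ p)⁻¹ * (((V s + k • B) ∩ box n m).card : ℝ) ≤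
        ∑ j ∈ Finset.range s,
            (((V (j + 1)).card : ℝ) - ((V j).card : ℝ)) * min ((K j / κ) ^ p) 1 := by
      intro s
      induction s with
      | zero => intro _; simp [hV0]
      | succ s ih =>
        intro hs
        rw [Finset.sum_range_succ]
        have h2 := (hstep s (by omega)).2
        have h3 := ih (by omega)
        have h4 : min ((K s / κ) ^ p) 1 = (κ ^ p)⁻¹ * K s ^ p := by
          have h5 : (K s / κ) ^ p ≤ 1 := by
            apply Real.rpow_le_one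
            · exact div_nonneg (hK0 s) hκ.le
            · rw [div_le_one hκ]
              exact hlow s (by omega)
            · exact hp0
          rw [min_eq_left h5, Real.div_rpow (hK0 s) hκ.le]
          field_simp
        rw [h4]
        have h6 : (0 : ℝ) < (κ ^ p)⁻¹ := by positivity
        calc (κ ^ p)⁻¹ * (((V (s + 1) + k • B) ∩ box n m).card : ℝ)
            ≤ (κ ^ p)⁻¹ * ((((V s + k • B) ∩ box n m).card : ℝ)
              + K s ^ p * (((V (s + 1)).card : ℝ) - ((V s).card : ℝ))) :=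
              mul_le_mul_of_nonneg_left h2 h6.le
          _ = (κ ^ p)⁻¹ * (((V s + k • B) ∩ box n m).card : ℝ)
              + (((V (s + 1)).card : ℝ) - ((V s).card : ℝ)) * ((κ ^ p)⁻¹ * K s ^ p) := by ring
          _ ≤ _ := by linarith
    have h2 : ∑ j ∈ Finset.Ico j0 r,
            (((V (j + 1)).card : ℝ) - ((V j).card : ℝ)) * min ((K j / κ) ^ p) 1
        = ((A \ V j0).card : ℝ) := by
      have h3 : ∑ j ∈ Finset.Ico j0 r,
            (((V (j + 1)).card : ℝ) - ((V j).card : ℝ)) * min ((K j / κ) ^ p) 1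
          = ∑ j ∈ Finset.Ico j0 r, (((V (j + 1)).card : ℝ) - ((V j).card : ℝ)) := by
        apply Finset.sum_congr rfl
        intro j hj
        rw [Finset.mem_Ico] at hj
        have h4 : 1 ≤ (K j / κ) ^ p := by
          apply Real.one_le_rpow _ hp0
          rw [one_le_div hκ]
          exact (hhigh j hj.1 hj.2).le
        rw [min_eq_right h4, mul_one]
      rw [h3, Finset.sum_Ico_eq_sub _ hj0, Finset.sum_range_sub (fun j => ((V j).card : ℝ)),
        Finset.sum_range_sub (fun j => ((V j).card : ℝ))]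
      have h5 : V j0 ⊆ A := hVr ▸ hVm hj0
      rw [Finset.card_sdiff_of_subset h5, Nat.cast_sub (Finset.card_le_card h5), hVr]
      ring
    rw [hsplit, h2]
    have := h1 j0 le_rfl
    linarith

theorem sumset_box (n m : ℕ) (A B : Finset (ℕ × ℕ)) :
    (A ∩ box n m + B) ∩ box n m = (A + B) ∩ box n m := by
  ext p
  simp only [Finset.mem_inter, Finset.mem_add, mem_box]
  constructor
  · rintro ⟨⟨x, hx, y, hy, rfl⟩, hp⟩
    exact ⟨⟨x, hx.1, y, hy, rfl⟩, hp⟩
  · rintro ⟨⟨x, hx, y, hy, rfl⟩, hp⟩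
    refine ⟨⟨x, ⟨hx, ?_⟩, y, hy, rfl⟩, hp⟩
    simp only [Prod.fst_add, Prod.snd_add] at hp
    omega

theorem core2 (hCH : S_CH2) (hSTC : S_STC) (hAREA : S_AREA)
    (N M : ℕ) (A B : Finset (ℕ × ℕ)) (hB : ((0, 0) : ℕ × ℕ) ∈ B) (k k' : ℕ) (hk' : 0 < k')
    (hk : k' < k) (hα : 0 < sig N M A) (hβ : 0 < sig N M (k • B)) :
    max (cst (M + 1) ((k' : ℝ) / (k : ℝ))) (Real.Gamma (1 + (k' : ℝ) / (k : ℝ))) *
      (sig N M A ^ (1 - (k' : ℝ) / (k : ℝ)) * sig N M (k • B) ^ ((k' : ℝ) / (k : ℝ)))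
      ≤ sig N M (A + k' • B) := by
  obtain ⟨n, m, hn, hm, hcard⟩ := exists_sig N M (A + k' • B)
  obtain ⟨r, a, K, hK, hsum, hlev⟩ := threshold_bound2 n m k k' (A ∩ box n m) B hB
    Finset.inter_subset_right hCH hk' hk
  rw [sumset_box, hcard] at hsum
  have hkr : (0 : ℝ) < (k : ℝ) := by exact_mod_cast (by omega : 0 < k)
  have hkr' : (0 : ℝ) < (k' : ℝ) := by exact_mod_cast hk'
  have hlt : (k' : ℝ) < (k : ℝ) := by exact_mod_cast hk
  set p : ℝ := (k : ℝ) / (k' : ℝ) with hp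
  have hp1 : 1 < p := by rw [hp, one_lt_div hkr']; exact hlt
  have hθ : (k' : ℝ) / (k : ℝ) = 1 / p := by rw [hp, one_div_div]
  rw [hθ]
  have hVpos : (0 : ℝ) < ((n : ℝ) + 1) * ((m : ℝ) + 1) := by positivity
  have hgam := gammaANA p r a K (sig N M A) (sig N M (k • B)) (((n : ℝ) + 1) * ((m : ℝ) + 1))
    hp1 hα hβ hK (by
      intro κ t hκ ht
      obtain ⟨W, hWA, hW⟩ := hlev κ hκ
      refine le_trans ?_ hW
      have htpos : 0 < t := by rw [ht]; positivity
      apply level_bound hAREA n m A W (sig N M A) (sig N M (k • B)) ((κ ^ p)⁻¹) t _ _ hα htpos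
      · rw [ht]
        field_simp
      · positivity
      · intro a' ha' b' hb'
        exact sig_mul_le N M A a' b' (by omega) (by omega)
      · exact hSTC N M (k • B) W (sig N M (k • B)) hβ.le
          (fun a' ha' b' hb' => sig_mul_le N M (k • B) a' b' ha' hb') n hn m hm
      · exact le_rfl)
  have hmix := mixANAR p r a K (sig N M A) (sig N M (k • B)) ((n : ℝ) + 1) hp1 hα hβ hK
    (m + 1) (tailSum (m + 1)) (fun i _ => tailSum_nonneg _ _) (by
      intro κ hκ
      obtain ⟨W, hWA, hW⟩ := hlev κ hκ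
      refine le_trans ?_ hW
      have := level_bound_mix n m A W (sig N M A) (sig N M (k • B)) ((κ ^ p)⁻¹)
        (((W + k • B) ∩ box n m).card : ℝ) ((((A ∩ box n m) \ W).card : ℝ)) hα hβ (by positivity)
        (fun a' ha' b' hb' => sig_mul_le N M A a' b' (by omega) (by omega))
        (hSTC N M (k • B) W (sig N M (k • B)) hβ.le
          (fun a' ha' b' hb' => sig_mul_le N M (k • B) a' b' ha' hb') n hn m hm) le_rfl
      exact this)
  have hk0 : (0 : ℝ) ≤ 1 / p := by positivity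
  have hk1 : 1 / p ≤ 1 := by
    rw [div_le_one (by positivity)]
    exact hp1.le
  have hmono := cst_anti (1 / p) hk0 hk1 m M hm
  set P : ℝ := sig N M A ^ (1 - 1 / p) * sig N M (k • B) ^ (1 / p) with hP
  have hPpos : 0 ≤ P := by positivity
  have hfin1 : cst (m + 1) (1 / p) * P * (((n : ℝ) + 1) * ((m : ℝ) + 1))
      ≤ sig N M (A + k' • B) * (((n : ℝ) + 1) * ((m : ℝ) + 1)) := by
    refine le_trans (le_of_eq ?_) (le_trans hmix hsum)
    unfold cst
    push_cast
    field_simp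
  have h4 := le_of_mul_le_mul_right hfin1 hVpos
  have h5 : cst (M + 1) (1 / p) * P ≤ sig N M (A + k' • B) :=
    le_trans (mul_le_mul_of_nonneg_right hmono hPpos) h4
  have h6 : Real.Gamma (1 + 1 / p) * P ≤ sig N M (A + k' • B) :=
    le_of_mul_le_mul_right (le_trans hgam hsum) hVpos
  rcases max_choice (cst (M + 1) (1 / p)) (Real.Gamma (1 + 1 / p)) with hm | hm
  · rw [hm]; exact h5
  · rw [hm]; exact h6

/-- All `0 < k' < k`, constant depending on `M`. -/
theorem main2_M (hCH : S_CH2) (hSTC : S_STC) (hAREA : S_AREA)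
    (N M : ℕ) (A B : Finset (ℕ × ℕ)) (hB : ((0, 0) : ℕ × ℕ) ∈ B) (k k' : ℕ) (hk' : 0 < k')
    (hk : k' < k) :
    max (cst (M + 1) ((k' : ℝ) / (k : ℝ))) (Real.Gamma (1 + (k' : ℝ) / (k : ℝ))) *
      (sig N M A ^ (1 - (k' : ℝ) / (k : ℝ)) * sig N M (k • B) ^ ((k' : ℝ) / (k : ℝ)))
      ≤ sig N M (A + k' • B) := by
  have hkr : (0 : ℝ) < (k : ℝ) := by exact_mod_cast (by omega : 0 < k)
  have hkr' : (0 : ℝ) < (k' : ℝ) := by exact_mod_cast hk'
  have hlt : (k' : ℝ) < (k : ℝ) := by exact_mod_cast hk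
  have hq1 : (k' : ℝ) / (k : ℝ) < 1 := by rw [div_lt_one hkr]; exact hlt
  have hq0 : 0 < (k' : ℝ) / (k : ℝ) := by positivity
  rcases (sig_nonneg N M A).eq_or_lt with hA | hA
  · rw [← hA, Real.zero_rpow (by linarith), zero_mul, mul_zero]
    exact sig_nonneg _ _ _
  rcases (sig_nonneg N M (k • B)).eq_or_lt with hb | hb
  · rw [← hb, Real.zero_rpow (by linarith), mul_zero, mul_zero]
    exact sig_nonneg _ _ _
  exact core2 hCH hSTC hAREA N M A B hB k k' hk' hk hA hb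

theorem swap_card (C : Finset (ℕ × ℕ)) (n m : ℕ) :
    ((C.image Prod.swap) ∩ box n m).card = (C ∩ box m n).card := by
  have h : (C.image Prod.swap) ∩ box n m = (C ∩ box m n).image Prod.swap := by
    ext p
    simp only [Finset.mem_inter, Finset.mem_image, mem_box]
    constructor
    · rintro ⟨⟨x, hx, rfl⟩, hp⟩
      exact ⟨x, ⟨hx, by simpa using hp.2, by simpa using hp.1⟩, rfl⟩
    · rintro ⟨x, ⟨hx, h1, h2⟩, rfl⟩
      exact ⟨⟨x, hx, rfl⟩, by simpa using h2, by simpa using h1⟩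
  rw [h, Finset.card_image_of_injective _ Prod.swap_injective]

theorem sig_swap_le (N M : ℕ) (C : Finset (ℕ × ℕ)) :
    sig N M C ≤ sig M N (C.image Prod.swap) := by
  obtain ⟨n, m, hn, hm, hcard⟩ := exists_sig M N (C.image Prod.swap)
  have h1 := sig_mul_le N M C m n hm hn
  rw [swap_card] at hcard
  have hVpos : (0 : ℝ) < ((m : ℝ) + 1) * ((n : ℝ) + 1) := by positivity
  rw [hcard, mul_comm ((n : ℝ) + 1) ((m : ℝ) + 1)] at h1
  exact le_of_mul_le_mul_right h1 hVpos

theorem sig_swap (N M : ℕ) (C : Finset (ℕ × ℕ)) :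
    sig M N (C.image Prod.swap) = sig N M C := by
  apply le_antisymm _ (sig_swap_le N M C)
  have h := sig_swap_le M N (C.image Prod.swap)
  have h2 : (C.image Prod.swap).image Prod.swap = C := by
    rw [Finset.image_image]
    simp
  rwa [h2] at h

theorem swap_add (C D : Finset (ℕ × ℕ)) :
    (C + D).image Prod.swap = C.image Prod.swap + D.image Prod.swap := by
  ext p
  simp only [Finset.mem_image, Finset.mem_add]
  constructor
  · rintro ⟨_, ⟨x, hx, y, hy, rfl⟩, rfl⟩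
    exact ⟨x.swap, ⟨x, hx, rfl⟩, y.swap, ⟨y, hy, rfl⟩, by simp [Prod.swap]⟩
  · rintro ⟨_, ⟨x, hx, rfl⟩, _, ⟨y, hy, rfl⟩, rfl⟩
    exact ⟨x + y, ⟨x, hx, y, hy, rfl⟩, by simp [Prod.swap]⟩

theorem swap_nsmul (C : Finset (ℕ × ℕ)) (i : ℕ) :
    (i • C).image Prod.swap = i • C.image Prod.swap := by
  induction i with
  | zero =>
    rw [zero_nsmul, zero_nsmul]
    rfl
  | succ i ih => rw [succ_nsmul, succ_nsmul, swap_add, ih]

/-- All `0 < k' < k`, the constant depends on the smaller side of the box only. -/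
theorem main2 (hCH : S_CH2) (hSTC : S_STC) (hAREA : S_AREA)
    (N M : ℕ) (A B : Finset (ℕ × ℕ)) (hB : ((0, 0) : ℕ × ℕ) ∈ B) (k k' : ℕ) (hk' : 0 < k')
    (hk : k' < k) :
    max (cst (min N M + 1) ((k' : ℝ) / (k : ℝ))) (Real.Gamma (1 + (k' : ℝ) / (k : ℝ))) *
      (sig N M A ^ (1 - (k' : ℝ) / (k : ℝ)) * sig N M (k • B) ^ ((k' : ℝ) / (k : ℝ)))
      ≤ sig N M (A + k' • B) := by
  rcases le_total M N with h | h
  · rw [min_eq_right h]
    exact main2_M hCH hSTC hAREA N M A B hB k k' hk' hk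
  · rw [min_eq_left h]
    have hB' : ((0, 0) : ℕ × ℕ) ∈ B.image Prod.swap := by
      rw [Finset.mem_image]
      exact ⟨(0, 0), hB, rfl⟩
    have := main2_M hCH hSTC hAREA M N (A.image Prod.swap) (B.image Prod.swap) hB' k k' hk' hk
    rwa [← swap_nsmul, ← swap_nsmul, ← swap_add, sig_swap, sig_swap, sig_swap] at this

/-- The exact inequality for staircase-dense sets, all `0 < k' < k`. -/
theorem exact2 (hCH : S_CH2) (hSTC : S_STC)
    (N M : ℕ) (A B : Finset (ℕ × ℕ)) (hB : ((0, 0) : ℕ × ℕ) ∈ B) (k k' : ℕ) (hk' : 0 < k')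
    (hk : k' < k) (α : ℝ) (hα : 0 ≤ α)
    (hA : ∀ D : Finset (ℕ × ℕ), D ⊆ box N M → Down D → α * (D.card : ℝ) ≤ ((A ∩ D).card : ℝ)) :
    α ^ (1 - (k' : ℝ) / (k : ℝ)) * sig N M (k • B) ^ ((k' : ℝ) / (k : ℝ))
      ≤ sig N M (A + k' • B) := by
  have hkr : (0 : ℝ) < (k : ℝ) := by exact_mod_cast (by omega : 0 < k)
  have hkr' : (0 : ℝ) < (k' : ℝ) := by exact_mod_cast hk'
  have hlt : (k' : ℝ) < (k : ℝ) := by exact_mod_cast hk
  have hq1 : (k' : ℝ) / (k : ℝ) < 1 := by rw [div_lt_one hkr]; exact hlt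
  have hq0 : 0 < (k' : ℝ) / (k : ℝ) := by positivity
  rcases hα.eq_or_lt with h0 | h0
  · rw [← h0, Real.zero_rpow (by linarith), zero_mul]
    exact sig_nonneg _ _ _
  rcases (sig_nonneg N M (k • B)).eq_or_lt with hb | hb
  · rw [← hb, Real.zero_rpow (by linarith), mul_zero]
    exact sig_nonneg _ _ _
  obtain ⟨n, m, hn, hm, hcard⟩ := exists_sig N M (A + k' • B)
  obtain ⟨r, a, K, hK, hsum, hlev⟩ := threshold_bound2 n m k k' (A ∩ box n m) B hB
    Finset.inter_subset_right hCH hk' hk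
  rw [sumset_box, hcard] at hsum
  set p : ℝ := (k : ℝ) / (k' : ℝ) with hp
  have hp1 : 1 < p := by rw [hp, one_lt_div hkr']; exact hlt
  have hθ : (k' : ℝ) / (k : ℝ) = 1 / p := by rw [hp, one_div_div]
  rw [hθ]
  have hVpos : (0 : ℝ) < ((n : ℝ) + 1) * ((m : ℝ) + 1) := by positivity
  have hbox : box n m ⊆ box N M := by
    intro p hp
    rw [mem_box] at hp ⊢
    omega
  have hmix := mixANAR p r a K α (sig N M (k • B)) (((n : ℝ) + 1) * ((m : ℝ) + 1)) hp1 h0 hb hK
    1 (fun _ => 1) (fun i _ => zero_le_one) (by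
      intro κ hκ
      obtain ⟨W, hWA, hW⟩ := hlev κ hκ
      refine le_trans ?_ hW
      have := level_bound_exact n m A W α (sig N M (k • B)) ((κ ^ p)⁻¹)
        (((W + k • B) ∩ box n m).card : ℝ) ((((A ∩ box n m) \ W).card : ℝ)) h0 hb (by positivity)
        (fun D hD hdown => hA D (hD.trans hbox) hdown)
        (hSTC N M (k • B) W (sig N M (k • B)) hb.le
          (fun a' ha' b' hb' => sig_mul_le N M (k • B) a' b' ha' hb') n hn m hm) le_rfl
      simpa [div_eq_mul_inv] using this)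
  simp only [Finset.range_one, Finset.sum_const, Finset.card_singleton, one_smul,
    Real.one_rpow, one_mul] at hmix
  exact le_of_mul_le_mul_right (le_trans hmix hsum) hVpos

theorem prod2 (hCH : S_CH2) (hSTC : S_STC)
    (N M : ℕ) (A1 A2 : Finset ℕ) (B : Finset (ℕ × ℕ)) (hB : ((0, 0) : ℕ × ℕ) ∈ B) (k k' : ℕ)
    (hk' : 0 < k') (hk : k' < k) :
    sig N M (A1 ×ˢ A2) ^ (1 - (k' : ℝ) / (k : ℝ)) * sig N M (k • B) ^ ((k' : ℝ) / (k : ℝ))
      ≤ sig N M (A1 ×ˢ A2 + k' • B) := by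
  have hkr : (0 : ℝ) < (k : ℝ) := by exact_mod_cast (by omega : 0 < k)
  have hlt : (k' : ℝ) < (k : ℝ) := by exact_mod_cast hk
  have hq1 : (k' : ℝ) / (k : ℝ) < 1 := by rw [div_lt_one hkr]; exact hlt
  have h := exact2 hCH hSTC N M (A1 ×ˢ A2) B hB k k' hk' hk (sig1 N A1 * sig1 M A2)
    (mul_nonneg (sig1_nonneg _ _) (sig1_nonneg _ _))
    (fun D hD hdown => prod_stair N M A1 A2 D hD hdown)
  refine le_trans ?_ h
  apply mul_le_mul_of_nonneg_right _ (Real.rpow_nonneg (sig_nonneg _ _ _) _)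
  exact Real.rpow_le_rpow (sig_nonneg _ _ _) (sig_prod_le N M A1 A2) (by linarith)

end Pool.Agent.Y402.PL
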