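import Pool.Agent.Y402.PL.Core
import Pool.Agent.Y402.PL.ANA

set_option autoImplicit false

namespace Pool.Agent.Y402.PL

open Pointwise MeasureTheory Set Filter Topology

/-- Integration of a mixture of the functions `min (α, s β / κ^k)`. -/
theorem mixANA (k r : ℕ) (a K : ℕ → ℝ) (α β V : ℝ) (hk : 2 ≤ k) (hα : 0 < α) (hβ : 0 < β)
    (hK : ∀ j < r, 0 ≤ K j) (H : ℕ) (s : ℕ → ℝ) (hs : ∀ i < H, 0 ≤ s i)
    (h : ∀ κ : ℝ, 0 < κ → V * ∑ i ∈ Finset.range H, min (s i * (β / κ ^ k)) α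
        ≤ ∑ j ∈ Finset.range r, a j * min ((K j / κ) ^ k) 1) :
    (∑ i ∈ Finset.range H, s i ^ (1 / (k : ℝ))) * (α ^ (1 - 1 / (k : ℝ)) * β ^ (1 / (k : ℝ))) * V
      ≤ ∑ j ∈ Finset.range r, K j * a j := by
  have hk1 : (1 : ℝ) < (k : ℝ) := by exact_mod_cast (by omega : 1 < k)
  have hkne : (k : ℝ) ≠ 0 := by linarith
  have hk0 : (0 : ℝ) < (k : ℝ) / ((k : ℝ) - 1) := by
    apply div_pos <;> linarith
  set θ : ℝ := 1 / (k : ℝ) with hθ
  have hc0 : ∀ i < H, 0 ≤ (s i * (β / α)) ^ θ := fun i hi =>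
    Real.rpow_nonneg (mul_nonneg (hs i hi) (by positivity)) _
  have hck : ∀ i < H, ((s i * (β / α)) ^ θ) ^ k = s i * (β / α) := by
    intro i hi
    rw [← Real.rpow_natCast, ← Real.rpow_mul (mul_nonneg (hs i hi) (by positivity)), hθ,
      one_div_mul_cancel hkne, Real.rpow_one]
  obtain ⟨hi, hI⟩ := sum_integral k r hk a K hK
  obtain ⟨hi2, hI2⟩ := sum_integral k H hk (fun _ => V * α) (fun i => (s i * (β / α)) ^ θ) hc0
  have hmono : ∫ κ in Ioi (0 : ℝ), ∑ i ∈ Finset.range H,
        (V * α) * min (((s i * (β / α)) ^ θ / κ) ^ k) 1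
      ≤ ∫ κ in Ioi (0 : ℝ), ∑ j ∈ Finset.range r, a j * min ((K j / κ) ^ k) 1 := by
    apply setIntegral_mono_on hi2 hi measurableSet_Ioi
    intro κ hκ
    have hκ0 : 0 < κ := hκ
    refine le_trans (le_of_eq ?_) (h κ hκ0)
    rw [Finset.mul_sum]
    apply Finset.sum_congr rfl
    intro i hi
    have h2 : s i * (β / κ ^ k) = α * (((s i * (β / α)) ^ θ / κ) ^ k) := by
      rw [div_pow, hck i (Finset.mem_range.mp hi)]
      field_simp
    have h3 : min (s i * (β / κ ^ k)) α = α * min (((s i * (β / α)) ^ θ / κ) ^ k) 1 := by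
      rw [h2, mul_min_of_nonneg _ _ hα.le, mul_one]
    rw [h3]
    ring
  rw [hI2, hI] at hmono
  have h4 := le_of_mul_le_mul_right hmono hk0
  refine le_trans (le_of_eq ?_) h4
  rw [Finset.sum_mul, Finset.sum_mul]
  apply Finset.sum_congr rfl
  intro i hi
  have h5 : (s i * (β / α)) ^ θ = s i ^ θ * (β / α) ^ θ :=
    Real.mul_rpow (hs i (Finset.mem_range.mp hi)) (by positivity)
  have h6 : α * (β / α) ^ θ = α ^ (1 - θ) * β ^ θ := by
    rw [← rpow_aux α β hα hβ]
    congr 1
    rw [← inv_div α β, Real.inv_rpow (by positivity), Real.rpow_neg (by positivity)]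
  rw [h5, ← h6]
  ring

/-- `tailSum H j = 1/(j+1) + ... + 1/H` -/
noncomputable def tailSum (H j : ℕ) : ℝ := ∑ i ∈ Finset.Ico j H, 1 / ((i : ℝ) + 1)

theorem tailSum_nonneg (H j : ℕ) : 0 ≤ tailSum H j := by
  unfold tailSum
  apply Finset.sum_nonneg
  intro i _
  positivity

theorem tailSum_succ (H j : ℕ) (h : j ≤ H) :
    tailSum (H + 1) j = tailSum H j + 1 / ((H : ℝ) + 1) := by
  unfold tailSum
  rw [Finset.sum_Ico_succ_top h]

theorem tailSum_self (H : ℕ) : tailSum H H = 0 := by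
  unfold tailSum
  simp

theorem tailSum_head (H j : ℕ) (h : j < H) :
    tailSum H j = 1 / ((j : ℝ) + 1) + tailSum H (j + 1) := by
  unfold tailSum
  rw [Finset.sum_eq_sum_Ico_succ_bot h]

theorem weight_sum (r : ℝ) (hr : 0 ≤ r) (H : ℕ) :
    ∑ j ∈ Finset.range H, (min ((j : ℝ) + 1) r - min (j : ℝ) r) = min (H : ℝ) r := by
  have := Finset.sum_range_sub (fun j : ℕ => min (j : ℝ) r) H
  simp only [Nat.cast_add, Nat.cast_one, Nat.cast_zero] at this
  rw [this, min_eq_left hr, sub_zero]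

theorem weight_tail (r : ℝ) (hr : 0 ≤ r) (H : ℕ) :
    ∑ j ∈ Finset.range H, (1 - (min ((j : ℝ) + 1) r - min (j : ℝ) r)) * tailSum H j
      = (H : ℝ) - ∑ i ∈ Finset.range H, min 1 (r / ((i : ℝ) + 1)) := by
  induction H with
  | zero => simp
  | succ H ih =>
    have h1 : ∑ j ∈ Finset.range (H + 1), (1 - (min ((j : ℝ) + 1) r - min (j : ℝ) r))
          * tailSum (H + 1) j
        = ∑ j ∈ Finset.range (H + 1), ((1 - (min ((j : ℝ) + 1) r - min (j : ℝ) r)) * tailSum H j
          + (1 - (min ((j : ℝ) + 1) r - min (j : ℝ) r)) * (1 / ((H : ℝ) + 1))) := by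
      apply Finset.sum_congr rfl
      intro j hj
      rw [tailSum_succ H j (by rw [Finset.mem_range] at hj; omega)]
      ring
    rw [h1, Finset.sum_add_distrib, Finset.sum_range_succ, tailSum_self, mul_zero, add_zero, ih,
      ← Finset.sum_mul, Finset.sum_sub_distrib, weight_sum r hr (H + 1),
      Finset.sum_range_succ (fun i : ℕ => min 1 (r / ((i : ℝ) + 1)))]
    have hH : (0 : ℝ) < (H : ℝ) + 1 := by positivity
    have h2 : min 1 (r / ((H : ℝ) + 1)) = min ((H : ℝ) + 1) r / ((H : ℝ) + 1) := by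
      rw [← min_div_div_right hH.le, div_self hH.ne']
    rw [h2]
    simp only [Finset.sum_const, Finset.card_range, nsmul_eq_mul, mul_one, Nat.cast_add,
      Nat.cast_one]
    field_simp
    ring

/-- The elementary inequality behind the sharper constant. -/
theorem mix_ineq (α b L ρ d : ℝ) (H : ℕ) (hα : 0 ≤ α) (hb : 0 ≤ b) (hL : 0 < L)
    (hρ : 0 ≤ ρ) (hρ2 : ρ ≤ L * H)
    (hd : d ≤ ∑ i ∈ Finset.range H, min L (ρ / ((i : ℝ) + 1))) :
    L * ∑ i ∈ Finset.range H, min (tailSum H i * b) α ≤ b * (L * H - d) + α * ρ := by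
  set r : ℝ := ρ / L with hr
  have hr0 : 0 ≤ r := by positivity
  have hrH : r ≤ H := by
    rw [hr, div_le_iff₀ hL]
    linarith
  have h1 : ∑ i ∈ Finset.range H, min (tailSum H i * b) α
      ≤ ∑ i ∈ Finset.range H, ((min ((i : ℝ) + 1) r - min (i : ℝ) r) * α
        + (1 - (min ((i : ℝ) + 1) r - min (i : ℝ) r)) * tailSum H i * b) := by
    apply Finset.sum_le_sum
    intro i _
    have hw0 : 0 ≤ min ((i : ℝ) + 1) r - min (i : ℝ) r := by
      have : min (i : ℝ) r ≤ min ((i : ℝ) + 1) r := min_le_min (by linarith) le_rfl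
      linarith
    have hw1 : min ((i : ℝ) + 1) r - min (i : ℝ) r ≤ 1 := by
      rcases le_total (i : ℝ) r with h | h
      · rw [min_eq_left h]
        have := min_le_left ((i : ℝ) + 1) r
        linarith
      · rw [min_eq_right h]
        have := min_le_right ((i : ℝ) + 1) r
        linarith
    set w := min ((i : ℝ) + 1) r - min (i : ℝ) r
    have e1 : min (tailSum H i * b) α ≤ α := min_le_right _ _
    have e2 : min (tailSum H i * b) α ≤ tailSum H i * b := min_le_left _ _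
    nlinarith [mul_le_mul_of_nonneg_left e1 hw0, mul_le_mul_of_nonneg_left e2 (sub_nonneg.mpr hw1)]
  rw [Finset.sum_add_distrib, ← Finset.sum_mul, ← Finset.sum_mul, weight_sum r hr0,
    weight_tail r hr0, min_eq_right hrH] at h1
  have h2 : ∑ i ∈ Finset.range H, min L (ρ / ((i : ℝ) + 1))
      = L * ∑ i ∈ Finset.range H, min 1 (r / ((i : ℝ) + 1)) := by
    rw [Finset.mul_sum]
    apply Finset.sum_congr rfl
    intro i _
    rw [mul_min_of_nonneg _ _ hL.le, mul_one, hr]
    congr 1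
    field_simp
  have h3 : L * r = ρ := by rw [hr]; field_simp
  calc L * ∑ i ∈ Finset.range H, min (tailSum H i * b) α
      ≤ L * (r * α + ((H : ℝ) - ∑ i ∈ Finset.range H, min 1 (r / ((i : ℝ) + 1))) * b) :=
        mul_le_mul_of_nonneg_left h1 hL.le
    _ = α * (L * r) + b * (L * H - L * ∑ i ∈ Finset.range H, min 1 (r / ((i : ℝ) + 1))) := by ring
    _ = α * ρ + b * (L * H - ∑ i ∈ Finset.range H, min L (ρ / ((i : ℝ) + 1))) := by rw [h3, h2]
    _ ≤ b * (L * H - d) + α * ρ := by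
        nlinarith [mul_le_mul_of_nonneg_left hd hb]

/-- counting a set by rows -/
theorem row_count (n m : ℕ) (D : Finset (ℕ × ℕ)) (ρ : ℝ) (hD : D ⊆ box n m) (hρ : 0 ≤ ρ)
    (hprod : ∀ p ∈ D, ((p.1 : ℝ) + 1) * ((p.2 : ℝ) + 1) ≤ ρ) :
    (D.card : ℝ) ≤ ∑ i ∈ Finset.range (m + 1), min ((n : ℝ) + 1) (ρ / ((i : ℝ) + 1)) := by
  have hfib : D.card = ∑ x ∈ Finset.range (m + 1), (D.filter (fun p => p.2 = x)).card := by
    apply Finset.card_eq_sum_card_fiberwise
    intro p hp
    have := hD hp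
    unfold box at this
    simpa using (Finset.mem_product.mp this).2
  have hcol : ∀ x ∈ Finset.range (m + 1), ((D.filter (fun p => p.2 = x)).card : ℝ)
      ≤ min ((n : ℝ) + 1) (ρ / ((x : ℝ) + 1)) := by
    intro x _
    have hinj : Set.InjOn (fun p : ℕ × ℕ => p.1)
        (D.filter (fun p => p.2 = x) : Finset (ℕ × ℕ)) := by
      intro p hp q hq hpq
      have hp' : p ∈ D ∧ p.2 = x := by simpa using hp
      have hq' : q ∈ D ∧ q.2 = x := by simpa using hq
      exact Prod.ext hpq (hp'.2.trans hq'.2.symm)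
    apply le_min
    · have h1 : (D.filter (fun p => p.2 = x)).card ≤ (Finset.range (n + 1)).card := by
        apply Finset.card_le_card_of_injOn (fun p : ℕ × ℕ => p.1) _ hinj
        intro p hp
        have h0 : p ∈ D ∧ p.2 = x := by simpa using hp
        have h2 := hD h0.1
        unfold box at h2
        exact (Finset.mem_product.mp h2).1
      rw [Finset.card_range] at h1
      exact_mod_cast h1
    · have hpos : (0 : ℝ) < (x : ℝ) + 1 := by positivity
      have h1 : (D.filter (fun p => p.2 = x)).card ≤ (Finset.range ⌊ρ / ((x : ℝ) + 1)⌋₊).card := by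
        apply Finset.card_le_card_of_injOn (fun p : ℕ × ℕ => p.1) _ hinj
        intro p hp
        have h2 : p ∈ D ∧ p.2 = x := by simpa using hp
        have h3 := hprod p h2.1
        rw [h2.2] at h3
        simp only [Finset.coe_range, Set.mem_Iio]
        have h4 : p.1 + 1 ≤ ⌊ρ / ((x : ℝ) + 1)⌋₊ := by
          apply Nat.le_floor
          push_cast
          rw [le_div_iff₀ hpos]
          linarith
        omega
      rw [Finset.card_range] at h1
      calc ((D.filter (fun p => p.2 = x)).card : ℝ) ≤ (⌊ρ / ((x : ℝ) + 1)⌋₊ : ℝ) := by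
            exact_mod_cast h1
        _ ≤ ρ / ((x : ℝ) + 1) := Nat.floor_le (by positivity)
  have hcard : (D.card : ℝ) = ∑ x ∈ Finset.range (m + 1),
      ((D.filter (fun p => p.2 = x)).card : ℝ) := by
    exact_mod_cast hfib
  rw [hcard]
  exact Finset.sum_le_sum hcol

end Pool.Agent.Y402.PL
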