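import Mathlib

/-!
Statements of the components for the partial result on MP_e68cd8_co
(two-dimensional Pluennecke inequality for Schnirelmann density, up to the constant
`Γ(1 + 1/k)`).
-/

set_option autoImplicit false

namespace Pool.Agent.Y402.PL

open Pointwise

/-- The box `[0,n] × [0,m]`. -/
def box (n m : ℕ) : Finset (ℕ × ℕ) := Finset.range (n + 1) ×ˢ Finset.range (m + 1)

/-- The greedy chain: there is an increasing chain `∅ = V 0 ⊆ ... ⊆ V r = A` and a monotone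
sequence of ratios `K j` such that adding `B` to the next set of the chain adds exactly
`K j * |V (j+1) \ V j|` points of the box, and adding `k • B` adds at most
`K j ^ k * |V (j+1) \ V j|` points of the box. -/
def S_CH : Prop :=
  ∀ (n m k : ℕ) (A B : Finset (ℕ × ℕ)), 1 ≤ k → ((0, 0) : ℕ × ℕ) ∈ B → A ⊆ box n m →
    ∃ (r : ℕ) (V : ℕ → Finset (ℕ × ℕ)) (K : ℕ → ℝ),
      V 0 = ∅ ∧ V r = A ∧ (∀ j, V j ⊆ V (j + 1)) ∧ Monotone K ∧ (∀ j, 0 ≤ K j) ∧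
      ∀ j < r,
        (((V (j + 1) + B) ∩ box n m).card : ℝ)
            = (((V j + B) ∩ box n m).card : ℝ)
              + K j * (((V (j + 1)).card : ℝ) - ((V j).card : ℝ)) ∧
        (((V (j + 1) + k • B) ∩ box n m).card : ℝ)
            ≤ (((V j + k • B) ∩ box n m).card : ℝ)
              + K j ^ k * (((V (j + 1)).card : ℝ) - ((V j).card : ℝ))

/-- The staircase bound: if `C` has at least `β (a+1)(b+1)` points in every corner box
`[0,a] × [0,b]`, then `W + C` has at least `β` times as many points in `[0,n] × [0,m]` as the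
up-closure of `W` inside that box. -/
def S_STC : Prop :=
  ∀ (N M : ℕ) (C W : Finset (ℕ × ℕ)) (β : ℝ), 0 ≤ β →
    (∀ a ≤ N, ∀ b ≤ M, β * (((a : ℝ) + 1) * ((b : ℝ) + 1)) ≤ ((C ∩ box a b).card : ℝ)) →
    ∀ n ≤ N, ∀ m ≤ M,
      β * (((box n m).filter (fun p => ∃ w ∈ W, w.1 ≤ p.1 ∧ w.2 ≤ p.2)).card : ℝ)
        ≤ (((W + C) ∩ box n m).card : ℝ)

/-- The hyperbola bound: the number of points `p` of the box `[0,n] × [0,m]` with
`(p.1+1)(p.2+1) ≤ ρ` is at most `ρ (1 + log ((n+1)(m+1)/ρ))`. -/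
def S_AREA : Prop :=
  ∀ (n m : ℕ) (D : Finset (ℕ × ℕ)) (ρ : ℝ), D ⊆ box n m →
    0 < ρ → ρ ≤ ((n : ℝ) + 1) * ((m : ℝ) + 1) →
    (∀ p ∈ D, ((p.1 : ℝ) + 1) * ((p.2 : ℝ) + 1) ≤ ρ) →
    (D.card : ℝ) ≤ ρ * (1 + Real.log (((n : ℝ) + 1) * ((m : ℝ) + 1) / ρ))

/-- The analytic step: integrate the inequality over `κ ∈ (0, ∞)`. -/
def S_ANA : Prop :=
  ∀ (k r : ℕ) (a K : ℕ → ℝ) (α β V : ℝ), 2 ≤ k → 0 < α → 0 < β → 0 ≤ V →
    (∀ j < r, 0 ≤ a j) → (∀ j < r, 0 ≤ K j) →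
    (∀ κ t : ℝ, 0 < κ → t = α * κ ^ k / β →
      V * α * ((1 - Real.exp (-t)) / t)
        ≤ ∑ j ∈ Finset.range r, a j * min ((K j / κ) ^ k) 1) →
    Real.Gamma (1 + 1 / (k : ℝ)) * (α ^ (1 - 1 / (k : ℝ)) * β ^ (1 / (k : ℝ))) * V
      ≤ ∑ j ∈ Finset.range r, K j * a j

end Pool.Agent.Y402.PL
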