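import Pool.Agent.Y402.PL.Stm

/-!
Statements for the second part: all pairs `0 < k' < k` (Pluennecke's inequality for the addition
graph with a target set, proved by pushing separating families down, no Menger theorem).
-/

set_option autoImplicit false

namespace Pool.Agent.Y402.PL

open Pointwise

/-- `reach A B S i`: the points of level `i` that can be reached from `A` by `i` steps
`x → x + b`, `b ∈ B`, such that the point of level `j` of the path is not in `S j`
for all `j ≤ i`. -/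
def reach (A B : Finset (ℕ × ℕ)) (S : ℕ → Finset (ℕ × ℕ)) : ℕ → Finset (ℕ × ℕ)
  | 0 => A \ S 0
  | i + 1 => (reach A B S i + B) \ S (i + 1)

/-- `S` separates `A` (level `0`) from the target set `Q` (level `h`). -/
def Sep (h : ℕ) (A B Q : Finset (ℕ × ℕ)) (S : ℕ → Finset (ℕ × ℕ)) : Prop :=
  Disjoint (reach A B S h) Q

/-- The weight of a family: a point of level `i` has weight `C^(-i)`. -/
noncomputable def wt (C : ℝ) (h : ℕ) (S : ℕ → Finset (ℕ × ℕ)) : ℝ :=
  ∑ i ∈ Finset.range (h + 1), (C⁻¹) ^ i * ((S i).card : ℝ)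

/-- Pushing one level of a separating family of minimal weight down. -/
def S_PUSH : Prop :=
  ∀ (h : ℕ) (A B Q : Finset (ℕ × ℕ)) (C : ℝ), 0 < C →
    ∀ S : ℕ → Finset (ℕ × ℕ), Sep h A B Q S →
      (∀ S' : ℕ → Finset (ℕ × ℕ), Sep h A B Q S' → wt C h S ≤ wt C h S') →
      ∀ i : ℕ, 1 ≤ i → i < h →
        ∃ S' : ℕ → Finset (ℕ × ℕ), Sep h A B Q S' ∧ wt C h S' = wt C h S ∧ S' i = ∅ ∧
          ∀ j, i < j → S' j = S j

/-- Pluennecke's inequality with a target set: if every `Z ⊆ A` has at least `C^h |Z|` sums in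
`(Z + h • B) ∩ Q`, then at level `i ≤ h` the points of `Z + i • B` from which `Q` can be reached
(any finite set `F` containing them) are at least `C^i |Z|`. -/
def S_PLU : Prop :=
  ∀ (h : ℕ) (A B Q : Finset (ℕ × ℕ)) (C : ℝ), 0 < C →
    (∀ Z ⊆ A, C ^ h * (Z.card : ℝ) ≤ (((Z + h • B) ∩ Q).card : ℝ)) →
    ∀ i : ℕ, 1 ≤ i → i < h → ∀ Z ⊆ A, ∀ F : Finset (ℕ × ℕ),
      (∀ y ∈ Z + i • B, (∃ c ∈ (h - i) • B, y + c ∈ Q) → y ∈ F) →
      C ^ i * (Z.card : ℝ) ≤ (F.card : ℝ)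

/-- The chain for `0 < k' < k`: the chain minimises ratios at level `k`; at level `k'` the
increments are at least `K j` times the size. -/
def S_CH2 : Prop :=
  ∀ (n m k k' : ℕ) (A B : Finset (ℕ × ℕ)), 0 < k' → k' < k → ((0, 0) : ℕ × ℕ) ∈ B →
    A ⊆ box n m →
    ∃ (r : ℕ) (V : ℕ → Finset (ℕ × ℕ)) (K : ℕ → ℝ),
      V 0 = ∅ ∧ V r = A ∧ (∀ j, V j ⊆ V (j + 1)) ∧ Monotone K ∧ (∀ j, 0 ≤ K j) ∧
      ∀ j < r,
        (((V j + k' • B) ∩ box n m).card : ℝ)
              + K j * (((V (j + 1)).card : ℝ) - ((V j).card : ℝ))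
            ≤ (((V (j + 1) + k' • B) ∩ box n m).card : ℝ) ∧
        (((V (j + 1) + k • B) ∩ box n m).card : ℝ)
            ≤ (((V j + k • B) ∩ box n m).card : ℝ)
              + K j ^ ((k : ℝ) / (k' : ℝ)) * (((V (j + 1)).card : ℝ) - ((V j).card : ℝ))

end Pool.Agent.Y402.PL
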